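import Pool.Agent.V8H15.DN.Pol

/-!
# The mollified mean square near the critical line, for a family of twists

Project DN (helper15); follows N786.D.Asm1 and N786.D.Asm2 (Hecke characters).
-/

set_option autoImplicit false

open Finset Filter Topology MeasureTheory ArithmeticFunction Complex

namespace Pool.Agent.V8H15.DN

open Pool.Agent.N786.D (Fr Cutf JJ SH cB cB_nn wt cauchy_le)
open Pool.Agent.R399.TW (pt pt_re pt_im pt_cont)

/-- the analytic input: growth and functional equation -/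
structure GrL (A T R : ℝ) (n : ℕ) (a : ArithmeticFunction ℂ) (g : ℕ → ℂ) (F : ℂ → ℂ) :
    Prop where
  diff : Differentiable ℂ F
  ser : ∀ s : ℂ, 3 / 2 ≤ s.re → F s = ∑' m : ℕ, a m * g m * ex s m
  cm : CM g
  gr : ∀ s : ℂ, 1 / 16 ≤ s.re → ‖F s‖ ≤ A * Real.exp R * (1 + |s.im| / T) ^ n
  low : ∀ s : ℂ, 2 ≤ s.re → A⁻¹ ≤ ‖F s‖
  fe : ∀ δ : ℝ, 0 < δ → δ ≤ 1 / 4 → ∀ τ : ℝ, ‖F (pt (1 / 2 - δ) τ)‖ ≤
    A * Real.exp (R * δ) * (1 + |τ| / T) ^ ((n : ℝ) * δ) * ‖F (pt (1 / 2 + δ) τ)‖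

lemma Dp_bdd (φ : ℝ → ℝ) (R : ℝ) (M : ℕ) (a : ℕ → ℂ) (g : ℕ → ℂ) :
    ∃ G : ℝ, 0 ≤ G ∧ ∀ s : ℂ, 0 ≤ s.re → ‖Dp φ R M a g s‖ ≤ G := by
  refine ⟨∑ n ∈ Icc 1 M, ‖((φ (Real.log n / R) : ℝ) : ℂ) * a n * g n‖,
    sum_nonneg fun _ _ => norm_nonneg _, fun s hs => ?_⟩
  unfold Dp
  refine (norm_sum_le _ _).trans (sum_le_sum fun n _ => ?_)
  rw [norm_mul, norm_ex]
  refine mul_le_of_le_one_right (norm_nonneg _) ?_
  rw [Real.exp_le_one_iff]
  have := mul_nonneg hs (Real.log_natCast_nonneg n)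
  linarith

/-- a uniform bound for the mollifier -/
lemma Mp_le {β₁ β₂ : ℝ} {θ : ℝ → ℝ} (hθ : Cutf β₁ β₂ θ) {R : ℝ} {b : ArithmeticFunction ℂ}
    {Z : ℝ} (h : AC b Z) {g : ℕ → ℂ} (hg : CM g) {s : ℂ} (hs : 1 / 2 ≤ s.re) :
    ‖Dp θ R ⌊Real.exp (β₂ * R)⌋₊ b g s‖ ≤ Real.exp (β₂ * R) * Z := by
  unfold Dp
  refine (norm_sum_le _ _).trans ?_
  have hE : 0 ≤ Real.exp (β₂ * R) := (Real.exp_pos _).le
  have h2 : ∀ n ∈ Icc 1 ⌊Real.exp (β₂ * R)⌋₊, ‖((θ (Real.log n / R) : ℝ) : ℂ) * b n * g n *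
      ex s n‖ ≤ Real.exp (β₂ * R) * (‖b n‖ * Real.exp (-(3 / 2 * Real.log n))) := by
    intro n hn
    rw [mem_Icc] at hn
    have hN : 0 < (n : ℝ) := by exact_mod_cast hn.1
    rw [norm_mul, norm_ex, norm_mul, norm_mul, Complex.norm_real, Real.norm_of_nonneg (hθ.nn _)]
    have h3 : θ (Real.log n / R) * ‖b n‖ * ‖g n‖ ≤ 1 * ‖b n‖ * 1 := by
      have := hg.le n
      have := hθ.le (Real.log n / R)
      have := hθ.nn (Real.log n / R)
      gcongr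
    have h5 : Real.exp (-(s.re * Real.log n)) ≤ Real.exp (β₂ * R) *
        Real.exp (-(3 / 2 * Real.log n)) := by
      rw [← Real.exp_add]
      refine Real.exp_le_exp.mpr ?_
      have h6 : Real.log n ≤ β₂ * R := by
        have h8 : (n : ℝ) ≤ Real.exp (β₂ * R) :=
          le_trans (by exact_mod_cast hn.2) (Nat.floor_le (Real.exp_pos _).le)
        rw [Real.log_le_iff_le_exp hN]
        exact h8
      have h9 := Real.log_natCast_nonneg n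
      nlinarith
    calc _ ≤ (1 * ‖b n‖ * 1) * (Real.exp (β₂ * R) * Real.exp (-(3 / 2 * Real.log n))) :=
          mul_le_mul h3 h5 (Real.exp_pos _).le (by positivity)
      _ = _ := by ring
  refine (sum_le_sum h2).trans ?_
  rw [← mul_sum]
  exact mul_le_mul_of_nonneg_left (h.2 _) hE

/-- growth of the differences -/
lemma grow_diff {α₁ α₂ : ℝ} {φ : ℝ → ℝ} (hφ : Cutf α₁ α₂ φ) (hα : 0 < α₁) {A T R : ℝ} {n : ℕ}
    (hR : 0 < R) (hT : 1 ≤ T) (hA : 1 ≤ A) {a : ArithmeticFunction ℂ} {Z : ℝ} (hZ : AC a Z)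
    {g : ℕ → ℂ} {F : ℂ → ℂ} (h : GrL A T R n a g F) :
    ∃ G : ℝ, ∀ z : ℂ, 1 / 4 ≤ z.re → ‖Dp φ R ⌊Real.exp (α₂ * R)⌋₊ a g z - F z‖ ≤
      G * (1 + |z.im|) ^ n * Real.exp (-(α₁ * R * z.re)) := by
  obtain ⟨G₀, hG₀, hG⟩ := Dp_bdd φ R ⌊Real.exp (α₂ * R)⌋₊ a g
  obtain ⟨E, hE⟩ : ∃ E : ℝ, E = Real.exp (α₁ * R * (3 / 2)) := ⟨_, rfl⟩
  have hE0 : 0 < E := by rw [hE]; exact Real.exp_pos _
  have hZ0 := hZ.1
  have hA0 : 0 < A := by linarith
  refine ⟨(Z + (G₀ + A * Real.exp R)) * E, fun z hz => ?_⟩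
  have hone : 1 ≤ (1 + |z.im|) ^ n := one_le_pow₀ (by linarith [abs_nonneg z.im])
  rcases le_total (3 / 2) z.re with h3 | h3
  · rw [h.ser z h3]
    refine (D_sub_L hZ h.cm hφ hR h3).trans ?_
    have e1 : Real.exp (-(α₁ * R * (z.re - 3 / 2))) = E * Real.exp (-(α₁ * R * z.re)) := by
      rw [hE, ← Real.exp_add]; congr 1; ring
    rw [e1]
    calc E * Real.exp (-(α₁ * R * z.re)) * Z = Z * E * 1 * Real.exp (-(α₁ * R * z.re)) := by
          ring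
      _ ≤ (Z + (G₀ + A * Real.exp R)) * E * (1 + |z.im|) ^ n * Real.exp (-(α₁ * R * z.re)) := by
          gcongr
          have : 0 ≤ G₀ + A * Real.exp R := by positivity
          linarith
  · have e2 : 1 ≤ E * Real.exp (-(α₁ * R * z.re)) := by
      rw [hE, ← Real.exp_add]
      refine Real.one_le_exp ?_
      have : 0 ≤ α₁ * R * (3 / 2 - z.re) := by
        have : 0 ≤ 3 / 2 - z.re := by linarith
        positivity
      linarith
    have e3 := h.gr z (by linarith)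
    have e4 : (1 + |z.im| / T) ^ n ≤ (1 + |z.im|) ^ n := by
      refine pow_le_pow_left₀ (by positivity) ?_ n
      have : |z.im| / T ≤ |z.im| := div_le_self (abs_nonneg _) hT
      linarith
    have e5 := hG z (by linarith)
    calc ‖Dp φ R ⌊Real.exp (α₂ * R)⌋₊ a g z - F z‖ ≤ ‖Dp φ R ⌊Real.exp (α₂ * R)⌋₊ a g z‖ +
          ‖F z‖ := norm_sub_le _ _
      _ ≤ G₀ + A * Real.exp R * (1 + |z.im|) ^ n := by
          refine add_le_add e5 (e3.trans ?_)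
          exact mul_le_mul_of_nonneg_left e4 (by positivity)
      _ ≤ G₀ * (1 + |z.im|) ^ n + A * Real.exp R * (1 + |z.im|) ^ n := by
          have := le_mul_of_one_le_right hG₀ hone
          linarith
      _ = (0 + (G₀ + A * Real.exp R)) * (1 + |z.im|) ^ n * 1 := by ring
      _ ≤ (Z + (G₀ + A * Real.exp R)) * (1 + |z.im|) ^ n *
          (E * Real.exp (-(α₁ * R * z.re))) := by gcongr
      _ = _ := by ring

/-- the trivial bound for the mollified mean square -/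
lemma JJ_triv {β₁ β₂ : ℝ} {θ : ℝ → ℝ} (hθ : Cutf β₁ β₂ θ) (hβ : β₂ ≤ 1) {A T R H P : ℝ} {n : ℕ}
    (hR : 0 < R) (hT : 1 ≤ T) (hA : 1 ≤ A) (hHT : H ≤ T)
    {a : ArithmeticFunction ℂ} {Z : ℝ} (hZ : AC (inv a) Z)
    {ι : Type} {E : Finset ι} {g : ι → ℕ → ℂ} (hP : E.card * H ≤ P)
    {F : ι → ℂ → ℂ} (h : ∀ i ∈ E, GrL A T R n a (g i) (F i)) {δ : ℝ}
    (hδ : 0 < δ) (t₀ v₀ : ℝ) :
    JJ E F (fun i => Dp θ R ⌊Real.exp (β₂ * R)⌋₊ (inv a) (g i)) (1 / 2 + δ) (1 / 2 + δ) H t₀ v₀ ≤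
      ENNReal.ofReal (P * (A ^ 2 * 4 ^ n * Z ^ 2) * Real.exp (4 * R) *
        (1 + |t₀| / T) ^ (2 * n)) := by
  have hT0 : 0 < T := by linarith
  have hZ0 := hZ.1
  obtain ⟨B, hB⟩ : ∃ B : ℝ, B = (A ^ 2 * 4 ^ n * Z ^ 2) * Real.exp (4 * R) *
    (1 + |t₀| / T) ^ (2 * n) := ⟨_, rfl⟩
  have hB0 : 0 ≤ B := by rw [hB]; positivity
  have hpt : ∀ i ∈ E, ∀ t ∈ Set.Icc t₀ (t₀ + H), ‖F i (pt (1 / 2 + δ) t)‖ ^ 2 *
      ‖Dp θ R ⌊Real.exp (β₂ * R)⌋₊ (inv a) (g i) (pt (1 / 2 + δ) (t - v₀))‖ ^ 2 ≤ B := by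
    intro i hl t ht
    have h1 := (h i hl).gr (pt (1 / 2 + δ) t) (by rw [pt_re]; linarith)
    rw [pt_im] at h1
    have h2 := Mp_le hθ (R := R) hZ (h i hl).cm (s := pt (1 / 2 + δ) (t - v₀))
      (by rw [pt_re]; linarith)
    have h3 : 1 + |t| / T ≤ 2 * (1 + |t₀| / T) := by
      have h4 : |t| ≤ |t₀| + T := by
        have : |t - t₀| ≤ T := by
          rw [abs_of_nonneg (by linarith [ht.1])]
          linarith [ht.2]
        have h5 := abs_add_le (t - t₀) t₀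
        rw [sub_add_cancel] at h5
        linarith
      have h6 : |t| / T ≤ |t₀| / T + 1 := by
        rw [div_le_iff₀ hT0, add_mul, div_mul_cancel₀ _ hT0.ne']
        linarith
      have h7 : 0 ≤ |t₀| / T := by positivity
      linarith
    have h8 : ‖F i (pt (1 / 2 + δ) t)‖ ^ 2 ≤ A ^ 2 * Real.exp (2 * R) * (4 ^ n *
        (1 + |t₀| / T) ^ (2 * n)) := by
      have h9 : ‖F i (pt (1 / 2 + δ) t)‖ ≤ A * Real.exp R * (2 * (1 + |t₀| / T)) ^ n := by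
        refine h1.trans ?_
        gcongr
      refine (pow_le_pow_left₀ (norm_nonneg _) h9 2).trans (le_of_eq ?_)
      rw [mul_pow, mul_pow, ← Real.exp_nat_mul, ← pow_mul, mul_pow, mul_comm n 2, pow_mul 2]
      norm_num
    have h10 : ‖Dp θ R ⌊Real.exp (β₂ * R)⌋₊ (inv a) (g i) (pt (1 / 2 + δ) (t - v₀))‖ ^ 2 ≤
        Real.exp (2 * R) * Z ^ 2 := by
      have h11 : Real.exp (β₂ * R) * Z ≤ Real.exp R * Z := by
        refine mul_le_mul_of_nonneg_right (Real.exp_le_exp.mpr ?_) hZ0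
        nlinarith
      refine (pow_le_pow_left₀ (norm_nonneg _) (h2.trans h11) 2).trans (le_of_eq ?_)
      rw [mul_pow, ← Real.exp_nat_mul]
      norm_num
    refine (mul_le_mul h8 h10 (by positivity) (by positivity)).trans (le_of_eq ?_)
    rw [hB]
    have e1 : Real.exp (4 * R) = Real.exp (2 * R) * Real.exp (2 * R) := by
      rw [← Real.exp_add]; congr 1; ring
    rw [e1]
    ring
  unfold JJ
  calc _ ≤ ∑ _i ∈ E, ENNReal.ofReal (B * H) := by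
        refine sum_le_sum fun i hl => ?_
        refine (setLIntegral_mono' measurableSet_Icc fun t ht =>
          ENNReal.ofReal_le_ofReal (hpt i hl t ht)).trans ?_
        rw [setLIntegral_const, Real.volume_Icc, ← ENNReal.ofReal_mul hB0]
        refine ENNReal.ofReal_le_ofReal (le_of_eq ?_)
        ring
    _ = ENNReal.ofReal (E.card * (B * H)) := by
        rw [sum_const, nsmul_eq_mul, ENNReal.ofReal_mul (Nat.cast_nonneg _),
          ENNReal.ofReal_natCast]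
    _ ≤ _ := by
        refine ENNReal.ofReal_le_ofReal ?_
        calc (E.card : ℝ) * (B * H) = (E.card * H) * B := by ring
          _ ≤ P * B := mul_le_mul_of_nonneg_right hP hB0
          _ = _ := by rw [hB]; ring

/-- existence of the constant `κ` -/
lemma kappa_exists (κ₀ c₁ g : ℝ) (k : ℕ) (hg : 0 < g) :
    ∃ κ : ℝ, 1 ≤ κ ∧ κ₀ ≤ κ ∧ c₁ * ((1 + 2 * κ) ^ k * Real.exp (-(g * κ))) ≤ 1 / 2 := by
  have h1 : Tendsto (fun κ : ℝ => c₁ * ((1 + 2 * κ) ^ k * Real.exp (-(g * κ)))) atTop (𝓝 0) := by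
    have h2 : Tendsto (fun κ : ℝ => (1 + 2 * κ) ^ k * Real.exp (-(g / 2 * (1 + 2 * κ)))) atTop
        (𝓝 0) := by
      have h3 : Tendsto (fun x : ℝ => x ^ k * Real.exp (-(g / 2 * x))) atTop (𝓝 0) := by
        have h4 := tendsto_rpow_mul_exp_neg_mul_atTop_nhds_zero (k : ℝ) (g / 2) (by positivity)
        refine h4.congr fun x => ?_
        rw [Real.rpow_natCast]
        congr 2
        ring
      refine h3.comp ?_
      exact tendsto_atTop_add_const_left _ _ (tendsto_id.const_mul_atTop two_pos)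
    have h5 := (h2.mul_const (Real.exp (g / 2))).const_mul c₁
    rw [zero_mul, mul_zero] at h5
    refine h5.congr fun κ => ?_
    rw [mul_assoc, ← Real.exp_add]
    congr 3
    ring
  have h6 : ∀ᶠ κ in atTop, c₁ * ((1 + 2 * κ) ^ k * Real.exp (-(g * κ))) ≤ 1 / 2 := by
    have := h1.eventually (Iio_mem_nhds (show (0 : ℝ) < 1 / 2 by norm_num))
    filter_upwards [this] with κ hκ
    exact (Set.mem_Iio.mp hκ).le
  obtain ⟨κ, h7, h8, h9⟩ := (h6.and ((eventually_ge_atTop 1).and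
    (eventually_ge_atTop κ₀))).exists
  exact ⟨κ, h8, h9, h7⟩

/-- **The mollified mean square near the critical line** -/
theorem mean_near {a : ArithmeticFunction ℂ} {c : ℕ → ℂ} (hLD : LD a c) {C : ℝ} (hC : HB c C)
    {Z Z' : ℝ} (hZ : AC a Z) (hZ' : AC (inv a) Z')
    {α' α₁ α₂ β₁ β₂ A : ℝ} {φ θ : ℝ → ℝ}
    (hφ : Cutf α₁ α₂ φ) (hθ : Cutf β₁ β₂ θ) (hα' : 1 / 2 < α') (hα : α' < α₁)
    (hβ1 : β₂ ≤ 1) (hA : 1 ≤ A) (n : ℕ) (hn : 1 ≤ n) (κ₀ : ℝ) :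
    ∃ (κ b R₀ : ℝ) (k E : ℕ), 1 ≤ κ ∧ κ₀ ≤ κ ∧ 0 ≤ b ∧ 4 * κ ≤ R₀ ∧
    ∀ (R T H P : ℝ) {ι : Type} (S : Finset ι) (g : ι → ℕ → ℂ)
      (F : ι → ℂ → ℂ), R₀ ≤ R → 1 ≤ T → 0 ≤ H → H ≤ T → S.card * H ≤ P →
      LSP S g H P (⌊Real.exp (α₂ * R)⌋₊ * ⌊Real.exp (β₂ * R)⌋₊) →
      (∀ i, Continuous (F i)) → (∀ i ∈ S, GrL A T R n a (g i) (F i)) →
      ∀ t₀ v₀ : ℝ, JJ S F (fun i => Dp θ R ⌊Real.exp (β₂ * R)⌋₊ (inv a) (g i)) (1 / 2 + κ / R)
        (1 / 2 + κ / R) H t₀ v₀ ≤ ENNReal.ofReal (P * b * wt T R k E t₀ v₀) := by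
  obtain ⟨k, hk⟩ : ∃ k : ℕ, 8 * C ≤ k := ⟨_, Nat.le_ceil _⟩
  obtain ⟨ε, hε⟩ : ∃ ε : ℝ, ε = 2 * α' - 1 := ⟨_, rfl⟩
  have hε0 : 0 < ε := by rw [hε]; linarith
  obtain ⟨E₁, hE₁⟩ : ∃ E₁ : ℕ, 8 * (n : ℝ) / ε ≤ E₁ := ⟨_, Nat.le_ceil _⟩
  obtain ⟨E, hE⟩ : ∃ E : ℕ, E = 2 * n + E₁ := ⟨_, rfl⟩
  obtain ⟨B, hB⟩ : ∃ B : ℕ, B = k + (n + E) + 2 := ⟨_, rfl⟩
  obtain ⟨κ, hκ1, hκ0, hκ⟩ := kappa_exists κ₀ (4 * cB B 0 * cB B (k + (n + E)) * A ^ 2) ε k hε0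
  obtain ⟨a₁, ha₁, hls1⟩ := ls_JJ hLD hC hk hφ hθ 0
  obtain ⟨a₂, ha₂, hls2⟩ := ls_JJ hLD hC hk hφ hθ (2 * κ)
  obtain ⟨b, hb⟩ : ∃ b : ℝ, b = a₁ + a₂ := ⟨_, rfl⟩
  obtain ⟨G, hG⟩ : ∃ G : ℝ, G = A ^ 2 * 4 ^ n * Z' ^ 2 := ⟨_, rfl⟩
  have hG0 : 0 ≤ G := by rw [hG]; positivity
  refine ⟨κ, 5 * b + 2 * G + 1, 4 * κ, k, E, hκ1, hκ0, by rw [hb]; positivity, le_rfl, ?_⟩
  intro R T H P ι S g F hR hT hH hHT hP hls hFc hF
  have hR0 : 0 < R := by linarith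
  have hT0 : 0 < T := by linarith
  obtain ⟨δ, hδ⟩ : ∃ δ : ℝ, δ = κ / R := ⟨_, rfl⟩
  have hδ0 : 0 < δ := by rw [hδ]; positivity
  have hRδ : R * δ = κ := by rw [hδ]; field_simp
  have hδ1 : δ ≤ 1 / 4 := by
    rw [hδ, div_le_iff₀ hR0]
    linarith
  have hP0 : 0 ≤ P := le_trans (by positivity) hP
  have hcm : ∀ i ∈ S, CM (g i) := fun i hi => (hF i hi).cm
  rw [← hδ]
  have hα₁ : 0 < α₁ := by linarith
  -- the structure
  obtain ⟨s₀, hs₀⟩ : ∃ s₀ : ℝ, s₀ = Real.exp (-(α' * R * (2 * δ))) := ⟨_, rfl⟩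
  have hs2 : s₀ ^ 2 = Real.exp (-(4 * (α' * κ))) := by
    rw [hs₀, ← Real.exp_nat_mul, ← hRδ]; congr 1; push_cast; ring
  have hSH : SH S F (fun i => Dp φ R ⌊Real.exp (α₂ * R)⌋₊ a (g i))
      (fun i => Dp θ R ⌊Real.exp (β₂ * R)⌋₊ (inv a) (g i)) T H R δ P b A s₀ n k B := by
    refine ⟨hT, hH, hHT, hR0, hδ0, by linarith, hP0, by rw [hb]; positivity, by linarith,
      by rw [hs₀]; exact (Real.exp_pos _).le, hFc, fun i => ?_, fun i => ?_, ?_, ?_, ?_, ?_⟩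
    · exact (Dp_diff _ _ _ _ _).continuous
    · exact (Dp_diff _ _ _ _ _).continuous
    · intro i hl τ
      exact (hF i hl).fe δ hδ0 hδ1 τ
    · intro t₀ v₁
      have h1 := hls1 R δ hR0 (by linarith) S g H P hcm hH hP0 hls t₀ v₁
      rw [zero_div, sub_zero] at h1
      refine h1.trans (ENNReal.ofReal_le_ofReal ?_)
      have : a₁ ≤ b := by rw [hb]; linarith
      gcongr
    · intro t₀ v₁
      have h1 := hls2 R δ hR0 (by linarith) S g H P hcm hH hP0 hls t₀ v₁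
      have e1 : 1 / 2 + δ - 2 * κ / R = 1 / 2 - δ := by rw [hδ]; ring
      rw [e1] at h1
      refine h1.trans (ENNReal.ofReal_le_ofReal ?_)
      have : a₂ ≤ b := by rw [hb]; linarith
      gcongr
    · intro i hl t
      obtain ⟨G', hG'⟩ := grow_diff (α₂ := α₂) hφ hα₁ hR0 hT hA hZ (hF i hl)
      have hg : Differentiable ℂ fun z => Dp φ R ⌊Real.exp (α₂ * R)⌋₊ a (g i) z - F i z :=
        (Dp_diff _ _ _ _ _).sub (hF i hl).diff
      obtain ⟨i1, i2⟩ := cauchy_le (a := 1 / 2 - δ) (μ := α' * R) (lam := α₁ * R) (m := n) (B := B)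
        hg (by omega) (by nlinarith) (fun z hz => hG' z (by linarith))
        (s := pt (1 / 2 + δ) t) (by rw [pt_re]; linarith)
      have e0 : (pt (1 / 2 + δ) t).re - (1 / 2 - δ) = 2 * δ := by rw [pt_re]; ring
      rw [e0, pt_im] at i1 i2
      refine ⟨i1, ?_⟩
      rw [← hs₀] at i2
      have h3 := norm_sub_le_norm_add (Dp φ R ⌊Real.exp (α₂ * R)⌋₊ a (g i) (pt (1 / 2 + δ) t))
        (F i (pt (1 / 2 + δ) t))
      have h4 : ‖F i (pt (1 / 2 + δ) t)‖ ≤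
          ‖Dp φ R ⌊Real.exp (α₂ * R)⌋₊ a (g i) (pt (1 / 2 + δ) t)‖ +
          ‖Dp φ R ⌊Real.exp (α₂ * R)⌋₊ a (g i) (pt (1 / 2 + δ) t) -
            F i (pt (1 / 2 + δ) t)‖ := by
        have := norm_sub_norm_le (F i (pt (1 / 2 + δ) t))
          (Dp φ R ⌊Real.exp (α₂ * R)⌋₊ a (g i) (pt (1 / 2 + δ) t))
        rw [norm_sub_rev] at this
        linarith
      linarith
  have hJ := JJ_triv hθ hβ1 hR0 hT hA hHT hZ' hP hF hδ0
  rw [← hG] at hJ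
  have hBk : k + (n + E) + 2 ≤ 2 * B := by omega
  refine hSH.bound hBk (S₀ := G * Real.exp (4 * R)) (G := G) (X := Real.exp (ε * κ)) (E := E)
    (by positivity) hG0 hA (Real.one_le_exp (by positivity)) ?_ ?_ ?_
  · intro t₀ v₀
    refine (hJ t₀ v₀).trans (ENNReal.ofReal_le_ofReal ?_)
    have h1 : (1 + |t₀| / T) ^ (2 * n) ≤ wt T R k E t₀ v₀ := by
      unfold wt
      have h2 : 1 ≤ 1 + |t₀| / T := by
        have : 0 ≤ |t₀| / T := by positivity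
        linarith
      have h3 : (1 + |t₀| / T) ^ (2 * n) ≤ (1 + |t₀| / T) ^ E :=
        pow_le_pow_right₀ h2 (by omega)
      have h4 : 1 ≤ (1 + R * |v₀|) ^ k := by
        refine one_le_pow₀ ?_
        have : 0 ≤ R * |v₀| := by positivity
        linarith
      refine h3.trans (le_mul_of_one_le_left (by positivity) h4)
    calc P * G * Real.exp (4 * R) * (1 + |t₀| / T) ^ (2 * n) ≤
        P * G * Real.exp (4 * R) * wt T R k E t₀ v₀ := by gcongr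
      _ = _ := by ring
  · intro t₀ v₀ hX
    refine (hJ t₀ v₀).trans (ENNReal.ofReal_le_ofReal ?_)
    obtain ⟨Θ, hΘ⟩ : ∃ Θ : ℝ, Θ = 1 + |t₀| / T := ⟨_, rfl⟩
    have hΘ1 : 1 ≤ Θ := by
      rw [hΘ]
      have : 0 ≤ |t₀| / T := by positivity
      linarith
    rw [← hΘ] at hX ⊢
    have hn0 : (0 : ℝ) < n := by exact_mod_cast hn
    -- `Θ` is large
    have h1 : ε * κ < 2 * (n * δ) * Real.log Θ := by
      have h2 := Real.log_lt_log (Real.exp_pos _) hX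
      rw [Real.log_exp, Real.log_rpow (by linarith)] at h2
      exact h2
    have h3 : Real.exp (4 * R) ≤ Θ ^ E₁ := by
      rw [← Real.log_le_log_iff (Real.exp_pos _) (by positivity), Real.log_exp, Real.log_pow]
      have hl0 : 0 ≤ Real.log Θ := Real.log_nonneg hΘ1
      have h4 : ε * R ≤ 2 * n * Real.log Θ := by
        have h5 : ε * κ * R ≤ 2 * (n * δ) * Real.log Θ * R :=
          mul_le_mul_of_nonneg_right h1.le hR0.le
        have e1 : 2 * (n * δ) * Real.log Θ * R = 2 * n * Real.log Θ * (R * δ) := by ring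
        rw [e1, hRδ] at h5
        have hκ0 : 0 < κ := by linarith
        have h6 : (ε * R) * κ ≤ (2 * n * Real.log Θ) * κ := by linarith
        exact le_of_mul_le_mul_right h6 hκ0
      have h7 : 8 * (n : ℝ) / ε * Real.log Θ ≤ E₁ * Real.log Θ :=
        mul_le_mul_of_nonneg_right hE₁ hl0
      have h8 : 4 * R ≤ 8 * (n : ℝ) / ε * Real.log Θ := by
        rw [div_mul_eq_mul_div, le_div_iff₀ hε0]
        linarith
      linarith
    have h9 : 1 ≤ (1 + R * |v₀|) ^ k := by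
      refine one_le_pow₀ ?_
      have : 0 ≤ R * |v₀| := by positivity
      linarith
    unfold wt
    rw [← hΘ]
    calc P * G * Real.exp (4 * R) * Θ ^ (2 * n) ≤ P * G * Θ ^ E₁ * Θ ^ (2 * n) := by gcongr
      _ = P * G * (1 * Θ ^ E) := by rw [hE, pow_add]; ring
      _ ≤ P * G * ((1 + R * |v₀|) ^ k * Θ ^ E) := by gcongr
  · rw [hs2, hRδ]
    have e1 : 4 * Real.exp (-(4 * (α' * κ))) * cB B 0 * ((1 + 2 * κ) ^ k * cB B (k + (n + E))) *
        (A ^ 2 * Real.exp (2 * κ) * Real.exp (ε * κ)) =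
        4 * cB B 0 * cB B (k + (n + E)) * A ^ 2 * ((1 + 2 * κ) ^ k *
          (Real.exp (-(4 * (α' * κ))) * (Real.exp (2 * κ) * Real.exp (ε * κ)))) := by ring
    rw [e1, ← Real.exp_add, ← Real.exp_add]
    have e2 : -(4 * (α' * κ)) + (2 * κ + ε * κ) = -(ε * κ) := by rw [hε]; ring
    rw [e2]
    exact hκ

end Pool.Agent.V8H15.DN
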