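import Pool.Agent.V8H15.DN.Ser
import Pool.Agent.W388.TW.Parts

/-!
# The coefficients of a newform

Project DN (helper15).
-/

set_option autoImplicit false

open Finset Filter Topology MeasureTheory ArithmeticFunction

namespace Pool.Agent.V8H15.DN

open W388 (HeckeSeq RSLim cS SelE)

/-- the coefficients as an arithmetic function -/
noncomputable def af (lam : ℕ → ℝ) (h : lam 0 = 0) : ArithmeticFunction ℂ :=
  ⟨fun n => (lam n : ℂ), by simp [h]⟩

lemma af_apply (lam : ℕ → ℝ) (h : lam 0 = 0) (n : ℕ) : af lam h n = (lam n : ℂ) := rfl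

theorem ld_of {N : ℕ} {lam : ℕ → ℝ} (h : HeckeSeq N lam) :
    LD (af lam h.zero) (fun n => (cS N lam n : ℂ)) where
  one := by rw [af_apply, h.one]; simp
  ld := by
    intro n hn
    have h1 := Pool.Agent.W482.TW.t_id1 N lam h n hn
    simp only [af_apply]
    rw [← Complex.ofReal_mul, mul_comm, h1]
    push_cast
    rfl

theorem ac_of {N : ℕ} (hN : 0 < N) {lam : ℕ → ℝ} (h : HeckeSeq N lam) (hR : RSLim lam) :
    ∃ Z : ℝ, AC (af lam h.zero) Z := by
  obtain ⟨A, -, -, -, d3⟩ := W388.p_dir N hN lam h hR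
  have h1 := (d3 1 (1 : DirichletCharacter ℂ 1) (fun s => ∑' n : ℕ,
    (1 : DirichletCharacter ℂ 1) (n : ZMod 1) * (lam n : ℂ) * (n : ℂ) ^ (-s))
      (fun _ _ => rfl)).1 ((3 / 2 : ℝ) : ℂ) (by rw [Complex.ofReal_re]; norm_num)
  have hterm : ∀ n : ℕ, 1 ≤ n → ‖(1 : DirichletCharacter ℂ 1) (n : ZMod 1) * (lam n : ℂ) *
      (n : ℂ) ^ (-((3 / 2 : ℝ) : ℂ))‖ = ‖af lam h.zero n‖ * Real.exp (-(3 / 2 * Real.log n)) := by
    intro n hn
    have hu : IsUnit (n : ZMod 1) := by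
      rw [Subsingleton.elim (n : ZMod 1) 1]
      exact isUnit_one
    have e1 : (1 : DirichletCharacter ℂ 1) (n : ZMod 1) = 1 := by
      rw [MulChar.one_apply hu]
    have hn0 : (0 : ℝ) < n := by exact_mod_cast hn
    rw [e1, one_mul, norm_mul, af_apply]
    congr 1
    have e2 : (n : ℂ) = ((n : ℝ) : ℂ) := by push_cast; rfl
    rw [e2, Complex.norm_cpow_eq_rpow_re_of_pos hn0, Real.rpow_def_of_pos hn0, Complex.neg_re,
      Complex.ofReal_re]
    congr 1
    ring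
  refine ⟨∑' n : ℕ, ‖(1 : DirichletCharacter ℂ 1) (n : ZMod 1) * (lam n : ℂ) *
    (n : ℂ) ^ (-((3 / 2 : ℝ) : ℂ))‖, tsum_nonneg fun n => norm_nonneg _, fun X => ?_⟩
  rw [← sum_congr rfl fun n hn => hterm n (mem_Icc.mp hn).1]
  exact h1.sum_le_tsum _ fun n _ => norm_nonneg _

theorem ac_inv_of {N : ℕ} (hN : 0 < N) {lam : ℕ → ℝ} (h : HeckeSeq N lam) (hR : RSLim lam) :
    ∃ Z : ℝ, AC (inv (af lam h.zero)) Z := by
  obtain ⟨A, hA, d1, d2, -⟩ := W388.p_dir N hN lam h hR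
  have hl2 : 0 < Real.log 2 := Real.log_pos (by norm_num)
  refine ⟨Real.exp ((Real.log 2)⁻¹ * A), (Real.exp_pos _).le, fun X => ?_⟩
  refine (inv_abs (ld_of h) X (3 / 2)).trans (Real.exp_le_exp.mpr ?_)
  unfold dpR
  have h1 : ∀ n ∈ Icc 1 X, vonMangoldt n * ‖((cS N lam n : ℝ) : ℂ)‖ / Real.log n *
      Real.exp (-(3 / 2 * Real.log n)) ≤
      (Real.log 2)⁻¹ * (vonMangoldt n * |cS N lam n| * (n : ℝ) ^ (-(3 / 2) : ℝ)) := by
    intro n hn
    have hn1 := (mem_Icc.mp hn).1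
    have hn0 : (0 : ℝ) < n := by exact_mod_cast hn1
    have e1 : Real.exp (-(3 / 2 * Real.log n)) = (n : ℝ) ^ (-(3 / 2) : ℝ) := by
      rw [Real.rpow_def_of_pos hn0]
      congr 1
      ring
    rw [e1, Complex.norm_real, Real.norm_eq_abs]
    have h3 : (0 : ℝ) ≤ vonMangoldt n * |cS N lam n| :=
      mul_nonneg vonMangoldt_nonneg (abs_nonneg _)
    have h4 : 0 ≤ (n : ℝ) ^ (-(3 / 2) : ℝ) := by positivity
    rcases Nat.eq_or_lt_of_le hn1 with h5 | h5
    · rw [← h5]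
      simp
    · have h6 : Real.log 2 ≤ Real.log n :=
        Real.log_le_log (by norm_num) (by exact_mod_cast h5)
      have h7 : vonMangoldt n * |cS N lam n| / Real.log n ≤
          (Real.log 2)⁻¹ * (vonMangoldt n * |cS N lam n|) := by
        rw [div_eq_mul_inv, mul_comm]
        exact mul_le_mul_of_nonneg_right (inv_anti₀ hl2 h6) h3
      calc _ ≤ ((Real.log 2)⁻¹ * (vonMangoldt n * |cS N lam n|)) * (n : ℝ) ^ (-(3 / 2) : ℝ) :=
            mul_le_mul_of_nonneg_right h7 h4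
        _ = _ := by ring
  refine (sum_le_sum h1).trans ?_
  rw [← mul_sum]
  refine mul_le_mul_of_nonneg_left ?_ (by positivity)
  refine le_trans ?_ d2
  refine d1.sum_le_tsum _ fun n _ => ?_
  have h3 : (0 : ℝ) ≤ vonMangoldt n * |cS N lam n| :=
    mul_nonneg vonMangoldt_nonneg (abs_nonneg _)
  positivity

end Pool.Agent.V8H15.DN
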