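import Mathlib

/-!
# Mean squares of coefficients of quotients of Dirichlet series

Project DN (helper15).  If `log n * f n` is at most the convolution of `g` and `f`, then the
Dirichlet polynomials of `f` are at most the exponential of the one of `g n / log n`.
-/

set_option autoImplicit false

open Finset Filter Topology MeasureTheory

namespace Pool.Agent.V8H15.DN

/-- the real Dirichlet polynomial -/
noncomputable def dpR (X : ℕ) (f : ℕ → ℝ) (σ : ℝ) : ℝ :=
  ∑ n ∈ Icc 1 X, f n * Real.exp (-(σ * Real.log n))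

lemma hasDerivAt_dpR (X : ℕ) (f : ℕ → ℝ) (σ : ℝ) :
    HasDerivAt (dpR X f) (-(dpR X (fun n => f n * Real.log n) σ)) σ := by
  have h : HasDerivAt (fun σ => ∑ n ∈ Icc 1 X, f n * Real.exp (-(σ * Real.log n)))
      (∑ n ∈ Icc 1 X, f n * (Real.exp (-(σ * Real.log n)) * (-(1 * Real.log n)))) σ := by
    refine HasDerivAt.fun_sum fun n _ => ?_
    exact (((hasDerivAt_id σ).mul_const _).neg.exp).const_mul _
  refine h.congr_deriv ?_
  unfold dpR
  rw [← sum_neg_distrib]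
  refine sum_congr rfl fun n _ => ?_
  ring

/-- the convolution of Dirichlet polynomials with non-negative coefficients -/
lemma conv_le (X : ℕ) (f g : ℕ → ℝ) (hf : ∀ n, 0 ≤ f n) (hg : ∀ n, 0 ≤ g n) (σ : ℝ) :
    dpR X (fun n => ∑ d ∈ n.divisors, g d * f (n / d)) σ ≤ dpR X g σ * dpR X f σ := by
  unfold dpR
  rw [sum_mul_sum, ← sum_product']
  have h1 : ∑ n ∈ Icc 1 X, (∑ d ∈ n.divisors, g d * f (n / d)) * Real.exp (-(σ * Real.log n)) =
      ∑ n ∈ Icc 1 X, ∑ p ∈ n.divisorsAntidiagonal,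
        (g p.1 * Real.exp (-(σ * Real.log p.1))) * (f p.2 * Real.exp (-(σ * Real.log p.2))) := by
    refine sum_congr rfl fun n hn => ?_
    rw [sum_mul, ← Nat.sum_divisorsAntidiagonal
      (f := fun i j => g i * f j * Real.exp (-(σ * Real.log n)))]
    refine sum_congr rfl fun p hp => ?_
    obtain ⟨h2, h3⟩ := Nat.mem_divisorsAntidiagonal.mp hp
    have hp1 : p.1 ≠ 0 := left_ne_zero_of_mul (h2 ▸ h3)
    have hp2 : p.2 ≠ 0 := right_ne_zero_of_mul (h2 ▸ h3)
    have h4 : Real.log n = Real.log p.1 + Real.log p.2 := by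
      rw [← h2, Nat.cast_mul, Real.log_mul (by exact_mod_cast hp1) (by exact_mod_cast hp2)]
    rw [h4]
    have h5 : Real.exp (-(σ * (Real.log p.1 + Real.log p.2))) =
        Real.exp (-(σ * Real.log p.1)) * Real.exp (-(σ * Real.log p.2)) := by
      rw [← Real.exp_add]; congr 1; ring
    rw [h5]
    ring
  rw [h1, sum_sigma']
  have h2 : ∑ x ∈ (Icc 1 X).sigma fun n => n.divisorsAntidiagonal,
      (g x.2.1 * Real.exp (-(σ * Real.log x.2.1))) * (f x.2.2 * Real.exp (-(σ * Real.log x.2.2))) =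
      ∑ p ∈ ((Icc 1 X).sigma fun n => n.divisorsAntidiagonal).image (fun x => x.2),
        (g p.1 * Real.exp (-(σ * Real.log p.1))) * (f p.2 * Real.exp (-(σ * Real.log p.2))) := by
    rw [sum_image]
    rintro ⟨n, p⟩ hx ⟨m, r⟩ hy hxy
    simp only [coe_sigma, Set.mem_sigma_iff, mem_coe] at hx hy
    simp only at hxy
    subst hxy
    have h3 := (Nat.mem_divisorsAntidiagonal.mp hx.2).1
    have h4 := (Nat.mem_divisorsAntidiagonal.mp hy.2).1
    have : n = m := h3.symm.trans h4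
    subst this
    rfl
  rw [h2]
  refine sum_le_sum_of_subset_of_nonneg ?_ fun p _ _ => ?_
  · intro p hp
    obtain ⟨⟨n, r⟩, hx, rfl⟩ := mem_image.mp hp
    obtain ⟨hn, hr⟩ := mem_sigma.mp hx
    obtain ⟨h3, h4⟩ := Nat.mem_divisorsAntidiagonal.mp hr
    simp only at h3 h4 hn hr
    have hp1 : r.1 ≠ 0 := left_ne_zero_of_mul (h3 ▸ h4)
    have hp2 : r.2 ≠ 0 := right_ne_zero_of_mul (h3 ▸ h4)
    rw [mem_Icc] at hn
    rw [mem_product, mem_Icc, mem_Icc]
    refine ⟨⟨Nat.one_le_iff_ne_zero.mpr hp1, ?_⟩, ⟨Nat.one_le_iff_ne_zero.mpr hp2, ?_⟩⟩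
    · refine le_trans ?_ hn.2
      rw [← h3]
      exact Nat.le_mul_of_pos_right _ (Nat.pos_of_ne_zero hp2)
    · refine le_trans ?_ hn.2
      rw [← h3]
      exact Nat.le_mul_of_pos_left _ (Nat.pos_of_ne_zero hp1)
  · have := hf p.2
    have := hg p.1
    positivity

lemma dpR_nonneg (X : ℕ) (f : ℕ → ℝ) (hf : ∀ n, 0 ≤ f n) (σ : ℝ) : 0 ≤ dpR X f σ :=
  sum_nonneg fun n _ => mul_nonneg (hf n) (Real.exp_pos _).le

lemma dpR_tendsto (X : ℕ) (hX : 1 ≤ X) (f : ℕ → ℝ) :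
    Tendsto (dpR X f) atTop (𝓝 (f 1)) := by
  have h1 : ∀ n ∈ Icc 1 X, Tendsto (fun σ : ℝ => f n * Real.exp (-(σ * Real.log n))) atTop
      (𝓝 (if n = 1 then f 1 else 0)) := by
    intro n hn
    by_cases h : n = 1
    · subst h
      simp
    · rw [if_neg h]
      have hn1 : 1 < n := by
        have := (mem_Icc.mp hn).1
        omega
      have hlog : 0 < Real.log n := Real.log_pos (by exact_mod_cast hn1)
      have h2 : Tendsto (fun σ : ℝ => σ * Real.log n) atTop atTop :=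
        tendsto_id.atTop_mul_const hlog
      have h3 := (Real.tendsto_exp_neg_atTop_nhds_zero.comp h2).const_mul (f n)
      rw [mul_zero] at h3
      exact h3
  have h2 := tendsto_finsetSum (Icc 1 X) h1
  rw [sum_ite_eq' (Icc 1 X) 1 (fun _ => f 1), if_pos (mem_Icc.mpr ⟨le_rfl, hX⟩)] at h2
  exact h2

/-- **the exponential bound** -/
theorem exp_bound (X : ℕ) (f g : ℕ → ℝ) (hf : ∀ n, 0 ≤ f n) (hg : ∀ n, 0 ≤ g n) (hg1 : g 1 = 0)
    (h : ∀ n : ℕ, 1 ≤ n → f n * Real.log n ≤ ∑ d ∈ n.divisors, g d * f (n / d)) (σ : ℝ) :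
    dpR X f σ ≤ f 1 * Real.exp (dpR X (fun n => g n / Real.log n) σ) := by
  rcases Nat.eq_zero_or_pos X with hX | hX
  · subst hX
    unfold dpR
    simp [hf 1]
  set T : ℝ → ℝ := dpR X (fun n => g n / Real.log n) with hT
  set S : ℝ → ℝ := dpR X f with hS
  have hTd : ∀ σ, HasDerivAt T (-(dpR X g σ)) σ := by
    intro σ
    refine (hasDerivAt_dpR X _ σ).congr_deriv ?_
    congr 1
    unfold dpR
    refine sum_congr rfl fun n hn => ?_
    by_cases hn1 : n = 1
    · subst hn1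
      rw [hg1]; simp
    · have h1 : 1 < n := by
        have := (mem_Icc.mp hn).1
        omega
      have hlog : 0 < Real.log n := Real.log_pos (by exact_mod_cast h1)
      show g n / Real.log n * Real.log n * _ = _
      rw [div_mul_cancel₀ _ hlog.ne']
  have hSd : ∀ σ, HasDerivAt S (-(dpR X (fun n => f n * Real.log n) σ)) σ := hasDerivAt_dpR X f
  have hW : ∀ σ, HasDerivAt (fun σ => Real.exp (-(T σ)) * S σ)
      (Real.exp (-(T σ)) * (-(-(dpR X g σ))) * S σ +
        Real.exp (-(T σ)) * (-(dpR X (fun n => f n * Real.log n) σ))) σ := fun σ =>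
    ((hTd σ).neg.exp).mul (hSd σ)
  have hmono : Monotone fun σ => Real.exp (-(T σ)) * S σ := by
    refine monotone_of_deriv_nonneg (fun σ => (hW σ).differentiableAt) fun σ => ?_
    rw [(hW σ).deriv]
    have h1 : dpR X (fun n => f n * Real.log n) σ ≤ dpR X g σ * S σ := by
      refine le_trans ?_ (conv_le X f g hf hg σ)
      unfold dpR
      refine sum_le_sum fun n hn => ?_
      exact mul_le_mul_of_nonneg_right (h n (mem_Icc.mp hn).1) (Real.exp_pos _).le
    have h2 := mul_le_mul_of_nonneg_left h1 (Real.exp_pos (-(T σ))).le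
    linarith
  have hlim : Tendsto (fun σ => Real.exp (-(T σ)) * S σ) atTop (𝓝 (f 1)) := by
    have h1 := dpR_tendsto X hX (fun n => g n / Real.log n)
    rw [hg1, zero_div] at h1
    have h2 := dpR_tendsto X hX f
    have h3 := ((Real.continuous_exp.tendsto _).comp h1.neg).mul h2
    rw [neg_zero, Real.exp_zero, one_mul] at h3
    exact h3
  have h1 := hmono.ge_of_tendsto hlim σ
  have h2 : 0 < Real.exp (T σ) := Real.exp_pos _
  calc S σ = Real.exp (T σ) * (Real.exp (-(T σ)) * S σ) := by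
        rw [← mul_assoc, ← Real.exp_add, add_neg_cancel, Real.exp_zero, one_mul]
    _ ≤ Real.exp (T σ) * f 1 := mul_le_mul_of_nonneg_left h1 h2.le
    _ = _ := mul_comm _ _

open ArithmeticFunction in
/-- **the square of a function given by its logarithmic derivative** -/
theorem sq_log_le (h : ℕ → ℂ) (β : ℕ → ℂ)
    (hh : ∀ n : ℕ, 1 ≤ n → ((Real.log n : ℝ) : ℂ) * h n =
      ∑ d ∈ n.divisors, ((vonMangoldt d : ℝ) : ℂ) * β d * h (n / d)) (n : ℕ) (hn : 1 ≤ n) :
    ‖h n‖ ^ 2 * Real.log n ≤ ∑ d ∈ n.divisors, (vonMangoldt d * ‖β d‖ ^ 2) * ‖h (n / d)‖ ^ 2 := by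
  have hR : 0 ≤ ∑ d ∈ n.divisors, (vonMangoldt d * ‖β d‖ ^ 2) * ‖h (n / d)‖ ^ 2 :=
    sum_nonneg fun d _ => by
      have := vonMangoldt_nonneg (n := d)
      positivity
  rcases eq_or_lt_of_le hn with h1 | h1
  · rw [← h1, Nat.cast_one, Real.log_one, mul_zero, h1]
    exact hR
  have hlog : 0 < Real.log n := Real.log_pos (by exact_mod_cast h1)
  have h2 : Real.log n * ‖h n‖ ≤ ∑ d ∈ n.divisors, vonMangoldt d * (‖β d‖ * ‖h (n / d)‖) := by
    have h3 := congrArg norm (hh n hn)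
    rw [norm_mul, Complex.norm_real, Real.norm_of_nonneg hlog.le] at h3
    rw [h3]
    refine (norm_sum_le _ _).trans (sum_le_sum fun d _ => ?_)
    rw [norm_mul, norm_mul, Complex.norm_real, Real.norm_of_nonneg vonMangoldt_nonneg]
    exact (mul_assoc _ _ _).le
  have h3 : (∑ d ∈ n.divisors, vonMangoldt d * (‖β d‖ * ‖h (n / d)‖)) ^ 2 ≤
      (∑ d ∈ n.divisors, vonMangoldt d) *
        ∑ d ∈ n.divisors, (vonMangoldt d * ‖β d‖ ^ 2) * ‖h (n / d)‖ ^ 2 := by
    have h4 := sum_mul_sq_le_sq_mul_sq n.divisors (fun d => Real.sqrt (vonMangoldt d))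
      (fun d => Real.sqrt (vonMangoldt d) * (‖β d‖ * ‖h (n / d)‖))
    have e1 : ∀ d, Real.sqrt (vonMangoldt d) * (Real.sqrt (vonMangoldt d) *
        (‖β d‖ * ‖h (n / d)‖)) = vonMangoldt d * (‖β d‖ * ‖h (n / d)‖) := fun d => by
      rw [← mul_assoc, Real.mul_self_sqrt vonMangoldt_nonneg]
    have e2 : ∀ d, Real.sqrt (vonMangoldt d) ^ 2 = vonMangoldt d := fun d =>
      Real.sq_sqrt vonMangoldt_nonneg
    have e3 : ∀ d, (Real.sqrt (vonMangoldt d) * (‖β d‖ * ‖h (n / d)‖)) ^ 2 =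
        (vonMangoldt d * ‖β d‖ ^ 2) * ‖h (n / d)‖ ^ 2 := fun d => by
      rw [mul_pow, e2]; ring
    simp_rw [e1, e2, e3] at h4
    exact h4
  rw [vonMangoldt_sum] at h3
  have h5 : (Real.log n * ‖h n‖) ^ 2 ≤ Real.log n *
      ∑ d ∈ n.divisors, (vonMangoldt d * ‖β d‖ ^ 2) * ‖h (n / d)‖ ^ 2 :=
    (pow_le_pow_left₀ (by positivity) h2 2).trans h3
  have h6 : Real.log n * (‖h n‖ ^ 2 * Real.log n) ≤ Real.log n *
      ∑ d ∈ n.divisors, (vonMangoldt d * ‖β d‖ ^ 2) * ‖h (n / d)‖ ^ 2 := by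
    refine le_trans (le_of_eq ?_) h5
    ring
  exact le_of_mul_le_mul_left h6 hlog

end Pool.Agent.V8H15.DN
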