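import Pool.Agent.V8H15.DN.Coef

/-!
# Quotients of twists of a Dirichlet series: mean squares of the coefficients

Project DN (helper15).
-/

set_option autoImplicit false

open Finset Filter Topology MeasureTheory ArithmeticFunction

namespace Pool.Agent.V8H15.DN

/-- `c` gives the logarithmic derivative of the series with coefficients `a` -/
structure LD (a : ArithmeticFunction ℂ) (c : ℕ → ℂ) : Prop where
  one : a 1 = 1
  ld : ∀ n : ℕ, n ≠ 0 → ((Real.log n : ℝ) : ℂ) * a n =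
    ∑ d ∈ n.divisors, ((vonMangoldt d : ℝ) : ℂ) * c d * a (n / d)

/-- the logarithm -/
noncomputable def lg : ArithmeticFunction ℂ := ⟨fun n => ((Real.log n : ℝ) : ℂ), by simp⟩

@[simp] lemma lg_apply (n : ℕ) : lg n = ((Real.log n : ℝ) : ℂ) := rfl

lemma lg_mul (f g : ArithmeticFunction ℂ) :
    lg.pmul (f * g) = lg.pmul f * g + f * lg.pmul g := by
  ext n
  rw [ArithmeticFunction.add_apply, pmul_apply, mul_apply, mul_apply, mul_apply, mul_sum,
    ← sum_add_distrib]
  refine sum_congr rfl fun p hp => ?_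
  obtain ⟨h2, h3⟩ := Nat.mem_divisorsAntidiagonal.mp hp
  have hp1 : p.1 ≠ 0 := left_ne_zero_of_mul (h2 ▸ h3)
  have hp2 : p.2 ≠ 0 := right_ne_zero_of_mul (h2 ▸ h3)
  have h4 : Real.log n = Real.log p.1 + Real.log p.2 := by
    rw [← h2, Nat.cast_mul, Real.log_mul (by exact_mod_cast hp1) (by exact_mod_cast hp2)]
  rw [pmul_apply, pmul_apply, lg_apply, lg_apply, lg_apply, h4]
  push_cast
  ring

/-- the coefficients of the logarithmic derivative -/
noncomputable def LC (c : ℕ → ℂ) : ArithmeticFunction ℂ :=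
  ⟨fun n => ((vonMangoldt n : ℝ) : ℂ) * c n, by simp⟩

@[simp] lemma LC_apply (c : ℕ → ℂ) (n : ℕ) : LC c n = ((vonMangoldt n : ℝ) : ℂ) * c n := rfl

lemma mul_apply' (f g : ArithmeticFunction ℂ) (n : ℕ) :
    (f * g) n = ∑ d ∈ n.divisors, f d * g (n / d) := by
  rw [mul_apply]
  exact Nat.sum_divisorsAntidiagonal (f := fun i j => f i * g j)

lemma LD.lg_eq {a : ArithmeticFunction ℂ} {c : ℕ → ℂ} (h : LD a c) : lg.pmul a = LC c * a := by
  ext n
  rcases Nat.eq_zero_or_pos n with h0 | h0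
  · subst h0; simp
  · rw [pmul_apply, lg_apply, h.ld n h0.ne', mul_apply']
    rfl

/-- the Dirichlet inverse -/
noncomputable def inv (a : ArithmeticFunction ℂ) : ArithmeticFunction ℂ :=
  if h : a 1 = 1 then dirichletInverse a (h ▸ invertibleOne) else 0

lemma mul_inv {a : ArithmeticFunction ℂ} (h : a 1 = 1) : a * inv a = 1 := by
  unfold inv
  rw [dif_pos h]
  exact self_mul_dirichletInverse _ _

lemma inv_one {a : ArithmeticFunction ℂ} (h : a 1 = 1) : inv a 1 = 1 := by
  have h1 := congrArg (fun f : ArithmeticFunction ℂ => f 1) (mul_inv h)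
  simp only [mul_apply', Nat.divisors_one, sum_singleton, Nat.div_self one_pos, h, one_mul,
    one_one] at h1
  exact h1

lemma LD.lg_inv {a : ArithmeticFunction ℂ} {c : ℕ → ℂ} (h : LD a c) :
    lg.pmul (inv a) = -(LC c * inv a) := by
  have h1 := mul_inv h.one
  have h2 : lg.pmul a * inv a + a * lg.pmul (inv a) = 0 := by
    rw [← lg_mul, h1]
    ext n
    rw [pmul_apply, lg_apply, one_apply]
    split_ifs with hn
    · subst hn; simp
    · simp
  rw [h.lg_eq] at h2
  have h3 : inv a * (LC c * a * inv a + a * lg.pmul (inv a)) = 0 := by rw [h2, mul_zero]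
  have h4 : inv a * (LC c * a * inv a + a * lg.pmul (inv a)) =
      (a * inv a) * (LC c * inv a) + (a * inv a) * lg.pmul (inv a) := by ring
  rw [h4, h1, one_mul, one_mul] at h3
  linear_combination h3

/-- the twist by `n ^ (i y)` -/
noncomputable def tw (y : ℝ) (f : ArithmeticFunction ℂ) : ArithmeticFunction ℂ :=
  ⟨fun n => f n * Complex.exp ((y * Real.log n : ℝ) * Complex.I), by simp⟩

lemma tw_apply (y : ℝ) (f : ArithmeticFunction ℂ) (n : ℕ) :
    tw y f n = f n * Complex.exp ((y * Real.log n : ℝ) * Complex.I) := rfl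

lemma tw_mul (y : ℝ) (f g : ArithmeticFunction ℂ) : tw y (f * g) = tw y f * tw y g := by
  ext n
  rw [tw_apply, mul_apply, mul_apply, sum_mul]
  refine sum_congr rfl fun p hp => ?_
  obtain ⟨h2, h3⟩ := Nat.mem_divisorsAntidiagonal.mp hp
  have hp1 : p.1 ≠ 0 := left_ne_zero_of_mul (h2 ▸ h3)
  have hp2 : p.2 ≠ 0 := right_ne_zero_of_mul (h2 ▸ h3)
  have h4 : Real.log n = Real.log p.1 + Real.log p.2 := by
    rw [← h2, Nat.cast_mul, Real.log_mul (by exact_mod_cast hp1) (by exact_mod_cast hp2)]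
  rw [tw_apply, tw_apply, h4]
  have h5 : Complex.exp ((y * (Real.log p.1 + Real.log p.2) : ℝ) * Complex.I) =
      Complex.exp ((y * Real.log p.1 : ℝ) * Complex.I) *
      Complex.exp ((y * Real.log p.2 : ℝ) * Complex.I) := by
    rw [← Complex.exp_add]; congr 1; push_cast; ring
  rw [h5]
  ring

lemma lg_tw (y : ℝ) (f : ArithmeticFunction ℂ) : lg.pmul (tw y f) = tw y (lg.pmul f) := by
  ext n
  rw [pmul_apply, tw_apply, tw_apply, pmul_apply]
  ring

lemma tw_neg (y : ℝ) (f : ArithmeticFunction ℂ) : tw y (-f) = -tw y f := by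
  ext n
  rw [tw_apply, ArithmeticFunction.neg_apply, ArithmeticFunction.neg_apply, tw_apply]
  ring

/-- the coefficients of the quotient of the twists -/
noncomputable def qt (a : ArithmeticFunction ℂ) (y₁ y₂ : ℝ) : ArithmeticFunction ℂ :=
  tw y₁ a * tw y₂ (inv a)

lemma LD.lg_qt {a : ArithmeticFunction ℂ} {c : ℕ → ℂ} (h : LD a c) (y₁ y₂ : ℝ) :
    lg.pmul (qt a y₁ y₂) = (tw y₁ (LC c) - tw y₂ (LC c)) * qt a y₁ y₂ := by
  unfold qt
  rw [lg_mul, lg_tw, lg_tw, h.lg_eq, h.lg_inv, tw_mul, tw_neg, tw_mul]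
  ring

lemma qt_one {a : ArithmeticFunction ℂ} (h : a 1 = 1) (y₁ y₂ : ℝ) : qt a y₁ y₂ 1 = 1 := by
  unfold qt
  rw [mul_apply', Nat.divisors_one, sum_singleton, Nat.div_self one_pos, tw_apply, tw_apply, h,
    inv_one h]
  simp

/-- `c(n) (n^(i y₁) - n^(i y₂))` -/
noncomputable def bet (c : ℕ → ℂ) (y₁ y₂ : ℝ) (n : ℕ) : ℂ :=
  c n * (Complex.exp ((y₁ * Real.log n : ℝ) * Complex.I) -
    Complex.exp ((y₂ * Real.log n : ℝ) * Complex.I))

lemma norm_bet (c : ℕ → ℂ) (y₁ y₂ : ℝ) (n : ℕ) :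
    ‖bet c y₁ y₂ n‖ ^ 2 = ‖c n‖ ^ 2 * (2 - 2 * Real.cos ((y₁ - y₂) * Real.log n)) := by
  unfold bet
  rw [norm_mul, mul_pow]
  congr 1
  rw [← Complex.normSq_eq_norm_sq, Complex.normSq_apply, Complex.sub_re, Complex.sub_im,
    Complex.exp_ofReal_mul_I_re, Complex.exp_ofReal_mul_I_re, Complex.exp_ofReal_mul_I_im,
    Complex.exp_ofReal_mul_I_im, sub_mul y₁ y₂, Real.cos_sub]
  nlinarith [Real.sin_sq_add_cos_sq (y₁ * Real.log n), Real.sin_sq_add_cos_sq (y₂ * Real.log n)]

lemma LD.qt_ld {a : ArithmeticFunction ℂ} {c : ℕ → ℂ} (h : LD a c) (y₁ y₂ : ℝ) (n : ℕ) :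
    ((Real.log n : ℝ) : ℂ) * qt a y₁ y₂ n =
      ∑ d ∈ n.divisors, ((vonMangoldt d : ℝ) : ℂ) * bet c y₁ y₂ d * qt a y₁ y₂ (n / d) := by
  have h1 := congrArg (fun f : ArithmeticFunction ℂ => f n) (h.lg_qt y₁ y₂)
  simp only [pmul_apply, lg_apply, mul_apply'] at h1
  rw [h1]
  refine sum_congr rfl fun d _ => ?_
  congr 1
  rw [sub_eq_add_neg, ArithmeticFunction.add_apply, ArithmeticFunction.neg_apply, tw_apply,
    tw_apply, LC_apply]
  unfold bet
  ring

/-- `∑ Λ(n) |c(n)|² n^(-1-s) ≤ C / s` -/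
def HB (c : ℕ → ℂ) (C : ℝ) : Prop := 0 ≤ C ∧ ∀ (X : ℕ) (s : ℝ), 0 < s →
  dpR X (fun n => vonMangoldt n * ‖c n‖ ^ 2) (1 + s) ≤ C / s

lemma cos_bound {y : ℝ} (hy : 0 ≤ y) : 2 - 2 * Real.cos y ≤ 8 * (1 - Real.exp (-y)) := by
  rcases le_total y 1 with h | h
  · have h1 : 1 - y ^ 2 / 2 ≤ Real.cos y := Real.one_sub_sq_div_two_le_cos
    have h2 : Real.exp (-y) ≤ 1 - y / 2 := by
      have h3 := convexOn_exp.2 (Set.mem_univ (0 : ℝ)) (Set.mem_univ (-1 : ℝ))
        (show 0 ≤ 1 - y by linarith) hy (by ring)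
      have h4 : (1 - y) • (0 : ℝ) + y • (-1 : ℝ) = -y := by simp
      rw [h4] at h3
      have h5 : Real.exp (-1) ≤ 1 / 2 := by
        have := Real.exp_neg_one_lt_d9
        linarith
      simp only [Real.exp_zero, smul_eq_mul, mul_one] at h3
      nlinarith
    nlinarith
  · have h1 := Real.neg_one_le_cos y
    have h2 : Real.exp (-y) ≤ 1 / 2 := by
      have h3 : Real.exp (-y) ≤ Real.exp (-1) := Real.exp_le_exp.mpr (by linarith)
      have := Real.exp_neg_one_lt_d9
      linarith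
    linarith

/-- the exponent -/
lemma expo_le {c : ℕ → ℂ} {C : ℝ} (hC : HB c C) (X : ℕ) (y₁ y₂ δ : ℝ) (hδ : 0 < δ) :
    dpR X (fun n => (vonMangoldt n * ‖bet c y₁ y₂ n‖ ^ 2) / Real.log n) (1 + 2 * δ) ≤
      8 * C * Real.log (1 + |y₁ - y₂| / (2 * δ)) := by
  obtain ⟨y, hy⟩ : ∃ y : ℝ, y = |y₁ - y₂| := ⟨_, rfl⟩
  have hy0 : 0 ≤ y := hy ▸ abs_nonneg _
  rw [← hy]
  have hint : ∀ u : ℝ, 0 < u → ∫ s in (2 * δ)..(2 * δ + y), Real.exp (-(s * u)) =
      Real.exp (-(2 * δ * u)) * (1 - Real.exp (-(y * u))) / u := by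
    intro u hu
    have h1 : ∀ s : ℝ, HasDerivAt (fun s => -(Real.exp (-(s * u)) / u)) (Real.exp (-(s * u))) s := by
      intro s
      have h2 := ((((hasDerivAt_id s).mul_const u).neg.exp).div_const u).neg
      refine h2.congr_deriv ?_
      show -(Real.exp (-(s * u)) * -(1 * u) / u) = Real.exp (-(s * u))
      field_simp
    rw [intervalIntegral.integral_eq_sub_of_hasDerivAt (fun s _ => h1 s)
      ((by fun_prop : Continuous fun s : ℝ => Real.exp (-(s * u))).intervalIntegrable _ _)]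
    have h3 : Real.exp (-((2 * δ + y) * u)) = Real.exp (-(2 * δ * u)) * Real.exp (-(y * u)) := by
      rw [← Real.exp_add]; congr 1; ring
    rw [h3]
    field_simp
    ring
  have hterm : ∀ n ∈ Icc 1 X, (vonMangoldt n * ‖bet c y₁ y₂ n‖ ^ 2) / Real.log n *
      Real.exp (-((1 + 2 * δ) * Real.log n)) ≤
      ∫ s in (2 * δ)..(2 * δ + y), 8 * (vonMangoldt n * ‖c n‖ ^ 2 *
        Real.exp (-((1 + s) * Real.log n))) := by
    intro n hn
    by_cases hn1 : n = 1
    · subst hn1
      simp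
    have h1 : 1 < n := by
      have := (mem_Icc.mp hn).1
      omega
    have hlog : 0 < Real.log n := Real.log_pos (by exact_mod_cast h1)
    obtain ⟨u, hu⟩ : ∃ u : ℝ, u = Real.log n := ⟨_, rfl⟩
    rw [norm_bet, ← hu]
    rw [← hu] at hlog
    have e1 : ∀ s : ℝ, 8 * (vonMangoldt n * ‖c n‖ ^ 2 * Real.exp (-((1 + s) * u))) =
        (8 * (vonMangoldt n * ‖c n‖ ^ 2) * Real.exp (-u)) * Real.exp (-(s * u)) := by
      intro s
      have : Real.exp (-((1 + s) * u)) = Real.exp (-u) * Real.exp (-(s * u)) := by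
        rw [← Real.exp_add]; congr 1; ring
      rw [this]; ring
    simp_rw [e1]
    rw [intervalIntegral.integral_const_mul, hint u hlog]
    have h2 : 2 - 2 * Real.cos ((y₁ - y₂) * u) ≤ 8 * (1 - Real.exp (-(y * u))) := by
      have h3 : Real.cos ((y₁ - y₂) * u) = Real.cos (y * u) := by
        rw [hy, ← Real.cos_abs, abs_mul, abs_of_pos hlog]
      rw [h3]
      exact cos_bound (by positivity)
    have h4 : Real.exp (-((1 + 2 * δ) * u)) = Real.exp (-u) * Real.exp (-(2 * δ * u)) := by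
      rw [← Real.exp_add]; congr 1; ring
    rw [h4]
    have hL := vonMangoldt_nonneg (n := n)
    have hW : 0 ≤ vonMangoldt n * ‖c n‖ ^ 2 := by positivity
    calc vonMangoldt n * (‖c n‖ ^ 2 * (2 - 2 * Real.cos ((y₁ - y₂) * u))) / u *
        (Real.exp (-u) * Real.exp (-(2 * δ * u))) =
        (vonMangoldt n * ‖c n‖ ^ 2) * (2 - 2 * Real.cos ((y₁ - y₂) * u)) *
          (Real.exp (-u) * Real.exp (-(2 * δ * u)) / u) := by ring
      _ ≤ (vonMangoldt n * ‖c n‖ ^ 2) * (8 * (1 - Real.exp (-(y * u)))) *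
          (Real.exp (-u) * Real.exp (-(2 * δ * u)) / u) := by
          gcongr
      _ = _ := by ring
  have hcont : ∀ n : ℕ, Continuous fun s : ℝ => 8 * (vonMangoldt n * ‖c n‖ ^ 2 *
      Real.exp (-((1 + s) * Real.log n))) := fun n => by fun_prop
  calc dpR X (fun n => (vonMangoldt n * ‖bet c y₁ y₂ n‖ ^ 2) / Real.log n) (1 + 2 * δ) ≤
      ∑ n ∈ Icc 1 X, ∫ s in (2 * δ)..(2 * δ + y), 8 * (vonMangoldt n * ‖c n‖ ^ 2 *
        Real.exp (-((1 + s) * Real.log n))) := sum_le_sum hterm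
    _ = ∫ s in (2 * δ)..(2 * δ + y), ∑ n ∈ Icc 1 X, 8 * (vonMangoldt n * ‖c n‖ ^ 2 *
        Real.exp (-((1 + s) * Real.log n))) := by
        rw [intervalIntegral.integral_finsetSum]
        exact fun n _ => (hcont n).intervalIntegrable _ _
    _ ≤ ∫ s in (2 * δ)..(2 * δ + y), 8 * C * s⁻¹ := by
        refine intervalIntegral.integral_mono_on (by linarith) ?_ ?_ ?_
        · exact (continuous_finsetSum _ fun n _ => hcont n).intervalIntegrable _ _
        · refine ContinuousOn.intervalIntegrable ?_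
          rw [Set.uIcc_of_le (by linarith)]
          intro s hs
          have : s ≠ 0 := by
            have := hs.1
            linarith
          exact (continuousAt_const.mul (continuousAt_inv₀ this)).continuousWithinAt
        · intro s hs
          have hs0 : 0 < s := by
            have := hs.1
            linarith
          rw [← mul_sum]
          have := hC.2 X s hs0
          unfold dpR at this
          rw [div_eq_mul_inv] at this
          linarith
    _ = 8 * C * Real.log ((2 * δ + y) / (2 * δ)) := by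
        rw [intervalIntegral.integral_const_mul, integral_inv]
        rw [Set.uIcc_of_le (by linarith)]
        intro h
        have := h.1
        linarith
    _ = _ := by
        congr 2
        field_simp

/-- **the mean square of the coefficients of the quotient** -/
theorem qt_sq {a : ArithmeticFunction ℂ} {c : ℕ → ℂ} (h : LD a c) {C : ℝ} (hC : HB c C) {k : ℕ}
    (hk : 8 * C ≤ k) (X : ℕ) (y₁ y₂ δ : ℝ) (hδ : 0 < δ) :
    ∑ n ∈ Icc 1 X, ‖qt a y₁ y₂ n‖ ^ 2 * Real.exp (-((1 + 2 * δ) * Real.log n)) ≤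
      (1 + |y₁ - y₂| / (2 * δ)) ^ k := by
  have h1 := exp_bound X (fun n => ‖qt a y₁ y₂ n‖ ^ 2)
    (fun n => vonMangoldt n * ‖bet c y₁ y₂ n‖ ^ 2) (fun n => by positivity)
    (fun n => by have := vonMangoldt_nonneg (n := n); positivity) (by simp)
    (fun n hn => sq_log_le (fun n => qt a y₁ y₂ n) (bet c y₁ y₂)
      (fun n _ => h.qt_ld y₁ y₂ n) n hn) (1 + 2 * δ)
  simp only [qt_one h.one, norm_one, one_pow, one_mul] at h1
  refine h1.trans ?_
  have h2 : 1 ≤ 1 + |y₁ - y₂| / (2 * δ) := by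
    have : 0 ≤ |y₁ - y₂| / (2 * δ) := by positivity
    linarith
  have h3 := expo_le hC X y₁ y₂ δ hδ
  have h4 : 8 * C * Real.log (1 + |y₁ - y₂| / (2 * δ)) ≤
      k * Real.log (1 + |y₁ - y₂| / (2 * δ)) :=
    mul_le_mul_of_nonneg_right hk (Real.log_nonneg h2)
  refine (Real.exp_le_exp.mpr (h3.trans h4)).trans (le_of_eq ?_)
  rw [← Real.log_pow, Real.exp_log (by positivity)]

/-- the coefficients of the inverse -/
theorem inv_abs {a : ArithmeticFunction ℂ} {c : ℕ → ℂ} (h : LD a c) (X : ℕ) (σ : ℝ) :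
    ∑ n ∈ Icc 1 X, ‖inv a n‖ * Real.exp (-(σ * Real.log n)) ≤
      Real.exp (dpR X (fun n => (vonMangoldt n * ‖c n‖) / Real.log n) σ) := by
  have h1 := exp_bound X (fun n => ‖inv a n‖) (fun n => vonMangoldt n * ‖c n‖)
    (fun n => by positivity) (fun n => by have := vonMangoldt_nonneg (n := n); positivity) (by simp)
    (fun n hn => by
      have h2 := congrArg (fun f : ArithmeticFunction ℂ => ‖f n‖) h.lg_inv
      simp only [pmul_apply, lg_apply, ArithmeticFunction.neg_apply, mul_apply', norm_neg] at h2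
      rw [norm_mul, Complex.norm_real, Real.norm_of_nonneg (Real.log_nonneg (by exact_mod_cast hn))]
        at h2
      rw [mul_comm, h2]
      refine (norm_sum_le _ _).trans (sum_le_sum fun d _ => ?_)
      rw [norm_mul, LC_apply, norm_mul, Complex.norm_real,
        Real.norm_of_nonneg vonMangoldt_nonneg]) σ
  simp only [inv_one h.one, norm_one, one_mul] at h1
  exact h1

end Pool.Agent.V8H15.DN
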