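import Pool.Agent.V8H15.DN.Loc

/-!
# Counting zeros locally: averaging

Project DN (helper15); follows N786.D.Jen2 with the conformal variable of `Loc`.
-/

set_option autoImplicit false

namespace Pool.Agent.V8H15.DN

open MeasureTheory Set Filter Topology Complex Metric
open Pool.Agent.R399.TW (pt pt_re pt_im pt_cont)
open Pool.Agent.N786.D (QQ lint_shift)

/-- the point on the circle -/
lemma circ_pt {ρ : ℝ} (φ : ℝ) :
    circleMap ((1 + ρ : ℝ) : ℂ) ρ φ = (((1 + ρ) + ρ * Real.cos φ : ℝ) : ℂ) +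
      ((ρ * Real.sin φ : ℝ) : ℂ) * I := by
  apply Complex.ext
  · rw [circleMap, Complex.add_re, Complex.ofReal_re, Complex.re_ofReal_mul,
      Complex.exp_ofReal_mul_I_re, Complex.add_re, Complex.ofReal_re, Complex.re_ofReal_mul,
      Complex.I_re, mul_zero, add_zero]
  · rw [circleMap, Complex.add_im, Complex.ofReal_im, Complex.im_ofReal_mul,
      Complex.exp_ofReal_mul_I_im, Complex.add_im, Complex.ofReal_im, Complex.im_ofReal_mul,
      Complex.I_im, mul_one, zero_add]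

lemma circ_re {ρ : ℝ} (hρ : 0 < ρ) (φ : ℝ) : 1 ≤ (circleMap ((1 + ρ : ℝ) : ℂ) ρ φ).re := by
  rw [circ_pt, Complex.add_re, Complex.ofReal_re, Complex.re_ofReal_mul, Complex.I_re]
  have := Real.neg_one_le_cos φ
  nlinarith

lemma circ_normsq {ρ : ℝ} (φ : ℝ) : ‖circleMap ((1 + ρ : ℝ) : ℂ) ρ φ‖ ^ 2 =
    1 + 2 * ρ * (1 + ρ) * (1 + Real.cos φ) := by
  rw [circ_pt, ← Complex.normSq_eq_norm_sq, Complex.normSq_add_mul_I]
  have := Real.sin_sq_add_cos_sq φ
  linear_combination ρ ^ 2 * this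

lemma circ_low {ρ : ℝ} (hρ : 0 < ρ) {φ : ℝ} (hφ : φ ∈ Icc 0 (2 * Real.pi)) :
    1 + (2 * ρ / Real.pi * (φ - Real.pi)) ^ 2 ≤ ‖circleMap ((1 + ρ : ℝ) : ℂ) ρ φ‖ ^ 2 := by
  rw [circ_normsq]
  have hpi := Real.pi_pos
  have h2 := Real.cos_le_one_sub_mul_cos_sq (x := φ - Real.pi)
    (by rw [abs_le]; constructor <;> linarith [hφ.1, hφ.2])
  rw [Real.cos_sub_pi] at h2
  have h3 : 2 / Real.pi ^ 2 * (φ - Real.pi) ^ 2 ≤ 1 + Real.cos φ := by linarith
  have h4 : (2 * ρ / Real.pi * (φ - Real.pi)) ^ 2 =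
      2 * ρ * ρ * (2 / Real.pi ^ 2 * (φ - Real.pi) ^ 2) := by
    field_simp
  rw [h4]
  have h5 : 0 ≤ 1 + Real.cos φ := by linarith [Real.neg_one_le_cos φ]
  have h6 : 2 * ρ * ρ * (2 / Real.pi ^ 2 * (φ - Real.pi) ^ 2) ≤ 2 * ρ * ρ * (1 + Real.cos φ) :=
    mul_le_mul_of_nonneg_left h3 (by positivity)
  have h7 : 2 * ρ * ρ * (1 + Real.cos φ) ≤ 2 * ρ * (1 + ρ) * (1 + Real.cos φ) := by
    refine mul_le_mul_of_nonneg_right ?_ h5
    nlinarith
  linarith

/-- the integral over the circle -/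
lemma circ_int' {ρ : ℝ} (hρ : 0 < ρ) :
    ∫ φ in (0 : ℝ)..2 * Real.pi, (‖circleMap ((1 + ρ : ℝ) : ℂ) ρ φ‖ ^ 2)⁻¹ ≤
      Real.pi ^ 2 / (2 * ρ) := by
  have hpi := Real.pi_pos
  obtain ⟨k, hk⟩ : ∃ k : ℝ, k = 2 * ρ / Real.pi := ⟨_, rfl⟩
  have hk0 : 0 < k := by rw [hk]; positivity
  have hgi : Integrable fun φ : ℝ => (1 + (k * (φ - Real.pi)) ^ 2)⁻¹ := by
    have h1 : Integrable fun φ : ℝ => (1 + (k * φ) ^ 2)⁻¹ :=
      integrable_inv_one_add_sq.comp_mul_left' hk0.ne'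
    exact h1.comp_sub_right Real.pi
  have hpos : ∀ φ : ℝ, 0 < ‖circleMap ((1 + ρ : ℝ) : ℂ) ρ φ‖ ^ 2 := by
    intro φ
    have h1 := circ_re hρ φ
    have h2 := Complex.re_le_norm (circleMap ((1 + ρ : ℝ) : ℂ) ρ φ)
    have h3 : 0 < ‖circleMap ((1 + ρ : ℝ) : ℂ) ρ φ‖ := by linarith
    positivity
  have hcont : Continuous fun φ : ℝ => (‖circleMap ((1 + ρ : ℝ) : ℂ) ρ φ‖ ^ 2)⁻¹ := by
    refine Continuous.inv₀ ?_ fun φ => (hpos φ).ne'
    exact ((continuous_circleMap _ _).norm).pow 2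
  have h1 : ∫ φ in (0 : ℝ)..2 * Real.pi, (‖circleMap ((1 + ρ : ℝ) : ℂ) ρ φ‖ ^ 2)⁻¹ ≤
      ∫ φ in (0 : ℝ)..2 * Real.pi, (1 + (k * (φ - Real.pi)) ^ 2)⁻¹ := by
    refine intervalIntegral.integral_mono_on (by positivity) ?_ ?_ ?_
    · exact hcont.intervalIntegrable _ _
    · exact hgi.intervalIntegrable
    · intro φ hφ
      refine inv_anti₀ (by positivity) ?_
      rw [hk]
      exact circ_low hρ hφ
  refine h1.trans ?_
  rw [intervalIntegral.integral_of_le (by positivity)]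
  refine (setIntegral_le_integral hgi (Eventually.of_forall fun φ => by positivity)).trans ?_
  have h6 : ∫ φ : ℝ, (1 + (k * (φ - Real.pi)) ^ 2)⁻¹ = ∫ φ : ℝ, (1 + (k * φ) ^ 2)⁻¹ :=
    integral_sub_right_eq_self (fun φ : ℝ => (1 + (k * φ) ^ 2)⁻¹) Real.pi
  have h7 : ∫ φ : ℝ, (1 + (k * φ) ^ 2)⁻¹ = |k⁻¹| • ∫ φ : ℝ, (1 + φ ^ 2)⁻¹ :=
    Measure.integral_comp_mul_left (fun φ : ℝ => (1 + φ ^ 2)⁻¹) k
  rw [h6, h7, integral_univ_inv_one_add_sq, hk, abs_of_pos (by positivity), smul_eq_mul]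
  refine le_of_eq ?_
  field_simp

/-- two windows -/
lemma two_win {ι : Type} (I : Finset ι) (f : ι → ℂ → ℂ) (x H t₁ v w : ℝ) (hH : 2 * w ≤ H) :
    ∑ i ∈ I, ∫⁻ t in Icc (t₁ - w) (t₁ + H + w), ENNReal.ofReal (‖f i (pt x (t + v))‖ ^ 2) ≤
      QQ I f x H (t₁ - w + v) + QQ I f x H (t₁ - w + H + v) := by
  unfold QQ
  rw [← Finset.sum_add_distrib]
  refine Finset.sum_le_sum fun i _ => ?_
  have hsub : Icc (t₁ - w) (t₁ + H + w) ⊆ Icc (t₁ - w) (t₁ - w + H) ∪
      Icc (t₁ - w + H) (t₁ - w + H + H) := by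
    intro t ht
    rcases le_total t (t₁ - w + H) with h1 | h1
    · left; exact ⟨ht.1, h1⟩
    · right; exact ⟨h1, by linarith [ht.2]⟩
  refine (lintegral_mono_set hsub).trans ?_
  refine (lintegral_union_le _ _ _).trans ?_
  rw [lint_shift (fun t => ENNReal.ofReal (‖f i (pt x t)‖ ^ 2)),
    lint_shift (fun t => ENNReal.ofReal (‖f i (pt x t)‖ ^ 2))]

/-- **the number of zeros to the right of a line, in short windows** -/
theorem count_loc {ι : Type} {I : Finset ι} {f : ι → ℂ → ℂ} (hf : ∀ i, Differentiable ℂ (f i))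
    {a R T H P σ t₁ b : ℝ} {E : ℕ} (hR : 1 ≤ R) (hb0 : 0 < b) (hb1 : b ≤ 1)
    (hRb : 5 ≤ Real.exp (b * R)) (hT : 1 ≤ T) (hH1 : 1 / R ≤ H)
    (hHT : H ≤ T) (hP : 0 ≤ P) (ht₁ : |t₁| ≤ T) (ha : 0 ≤ a) (haσ : a < σ) (hσ : σ ≤ 1)
    (hQ : ∀ r : ℝ, 0 < r → r ≤ 3 → ∀ t₀ : ℝ, QQ I f (a + r) H t₀ ≤
      ENNReal.ofReal (P * Real.exp (-(2 * (b * R * r))) * (1 + |t₀| / T) ^ E))
    (h2 : ∀ i ∈ I, ∀ z : ℂ, 2 ≤ z.re → ‖f i z‖ ^ 2 ≤ 1 / 2)
    (Z : ι → Finset ℂ)
    (hZ : ∀ i ∈ I, ∀ z ∈ Z i, σ + 1 / (b * R) ≤ z.re ∧ t₁ ≤ z.im ∧ z.im ≤ t₁ + H) :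
    ∑ i ∈ I, ∑ z ∈ Z i, (analyticOrderNatAt (fun s => 1 - f i s ^ 2) z : ℝ) ≤
      24 * 7 ^ E * (P * R * Real.exp (-(2 * (b * R * (σ - a))))) := by
  classical
  have hR0 : 0 < R := by linarith
  have hT0 : 0 < T := by linarith
  obtain ⟨lam, hlam⟩ : ∃ lam : ℝ, lam = b * R := ⟨_, rfl⟩
  have hl0 : 0 < lam := by rw [hlam]; positivity
  have hlR : lam ≤ R := by rw [hlam]; nlinarith
  rw [← hlam] at hRb hZ hQ ⊢
  have hl1 : 1 ≤ lam := by
    by_contra hcon
    push Not at hcon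
    have h3 : Real.exp lam ≤ Real.exp 1 := Real.exp_le_exp.mpr hcon.le
    have h4 := Real.exp_one_lt_d9
    linarith
  obtain ⟨ρ, hρ⟩ : ∃ ρ : ℝ, ρ = Real.exp (lam * (2 - σ)) - 1 := ⟨_, rfl⟩
  have hρe : 1 + ρ = Real.exp (lam * (2 - σ)) := by rw [hρ]; ring
  have hρ4 : 4 ≤ ρ := by
    have h3 : Real.exp lam ≤ Real.exp (lam * (2 - σ)) := by
      refine Real.exp_le_exp.mpr ?_
      nlinarith
    linarith
  have hρ0 : 0 < ρ := by linarith
  obtain ⟨w, hw⟩ : ∃ w : ℝ, w = 1 / (2 * R) := ⟨_, rfl⟩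
  have hw0 : 0 < w := by rw [hw]; positivity
  have hw1 : w ≤ 1 / 2 := by
    rw [hw, div_le_iff₀ (by positivity)]; linarith
  have hwH : 2 * w ≤ H := by
    refine le_trans (le_of_eq ?_) hH1
    rw [hw]; field_simp
  have hlw : lam * w ≤ 1 / 2 := by
    rw [hw, mul_one_div, div_le_iff₀ (by positivity)]
    linarith
  have hH0 : 0 ≤ H := by linarith
  obtain ⟨ω, hω⟩ : ∃ ω : ℝ, ω = 1 / (4 * ρ) := ⟨_, rfl⟩
  have hω0 : 0 < ω := by rw [hω]; positivity
  set J : Set ℝ := Icc (t₁ - w) (t₁ + H + w) with hJ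
  obtain ⟨Z', hZ'⟩ : ∃ Z' : ι → Finset ℂ, ∀ i z, z ∈ Z' i ↔ z ∈ Z i ∧ z.re ≤ 2 :=
    ⟨fun i => (Z i).filter fun z => z.re ≤ 2, fun i z => Finset.mem_filter⟩
  set od : ι → ℂ → ℕ := fun i z => analyticOrderNatAt (fun s => 1 - f i s ^ 2) z with hod
  have hfc : ∀ i, Continuous fun q : ℝ × ℝ => ‖f i (pt q.1 q.2)‖ := by
    intro i
    refine ((hf i).continuous.comp ?_).norm
    unfold pt
    fun_prop
  -- the circle
  set xx : ℝ → ℝ := fun φ => (Complex.log (circleMap ((1 + ρ : ℝ) : ℂ) ρ φ)).re with hxx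
  set yy : ℝ → ℝ := fun φ => (Complex.log (circleMap ((1 + ρ : ℝ) : ℂ) ρ φ)).im with hyy
  have hlogc : Continuous fun φ : ℝ => Complex.log (circleMap ((1 + ρ : ℝ) : ℂ) ρ φ) :=
    (continuous_circleMap _ _).clog fun φ => Or.inl (by linarith [circ_re hρ0 φ])
  have hxc : Continuous xx := Complex.continuous_re.comp hlogc
  have hyc : Continuous yy := Complex.continuous_im.comp hlogc
  have hsp : ∀ t φ : ℝ, sp σ t lam (circleMap ((1 + ρ : ℝ) : ℂ) ρ φ) =
      pt (σ + xx φ / lam) (t + yy φ / lam) := by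
    intro t φ
    unfold sp
    apply Complex.ext
    · rw [Complex.add_re, pt_re, pt_re, Complex.div_ofReal_re]
    · rw [Complex.add_im, pt_im, pt_im, Complex.div_ofReal_im]
  have hcpos : ∀ φ : ℝ, 1 ≤ ‖circleMap ((1 + ρ : ℝ) : ℂ) ρ φ‖ := fun φ =>
    (circ_re hρ0 φ).trans (Complex.re_le_norm _)
  have hxe : ∀ φ : ℝ, xx φ = Real.log ‖circleMap ((1 + ρ : ℝ) : ℂ) ρ φ‖ := fun φ => by
    rw [hxx]; simp only; rw [Complex.log_re]
  have hx0 : ∀ φ : ℝ, 0 ≤ xx φ := fun φ => by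
    rw [hxe]; exact Real.log_nonneg (hcpos φ)
  have hx1 : ∀ φ : ℝ, xx φ ≤ 1 + lam * (2 - σ) := fun φ => by
    rw [hxe, Real.log_le_iff_le_exp (by linarith [hcpos φ]), Real.exp_add, ← hρe]
    have h3 : ‖circleMap ((1 + ρ : ℝ) : ℂ) ρ φ‖ ≤ (1 + ρ) + ρ := by
      rw [circleMap]
      refine (norm_add_le _ _).trans ?_
      rw [norm_mul, Complex.norm_exp_ofReal_mul_I, mul_one, Complex.norm_real, Complex.norm_real,
        Real.norm_of_nonneg (by linarith), Real.norm_of_nonneg hρ0.le]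
    have h4 : 2 ≤ Real.exp 1 := by linarith [Real.add_one_le_exp (1 : ℝ)]
    nlinarith
  have hy1 : ∀ φ : ℝ, |yy φ| ≤ 2 := fun φ => by
    rw [hyy]
    simp only
    rw [Complex.log_im]
    have h3 := (Complex.abs_arg_le_pi_div_two_iff
      (z := circleMap ((1 + ρ : ℝ) : ℂ) ρ φ)).mpr (by linarith [circ_re hρ0 φ])
    linarith [Real.pi_le_four]
  have hexp2 : ∀ φ : ℝ, Real.exp (-(2 * xx φ)) = (‖circleMap ((1 + ρ : ℝ) : ℂ) ρ φ‖ ^ 2)⁻¹ :=
    fun φ => by
      have h3 : 0 < ‖circleMap ((1 + ρ : ℝ) : ℂ) ρ φ‖ := by linarith [hcpos φ]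
      rw [hxe, Real.exp_neg, mul_comm, Real.exp_mul, Real.exp_log h3]
      norm_num
  -- removing the points with large real part
  have hred : ∀ i ∈ I, ∑ z ∈ Z i, (od i z : ℝ) = ∑ z ∈ Z' i, (od i z : ℝ) := by
    intro i hi
    refine (Finset.sum_subset (fun z hz => ((hZ' i z).mp hz).1) fun z hz hz2 => ?_).symm
    have h3 : ¬ z.re ≤ 2 := fun h => hz2 ((hZ' i z).mpr ⟨hz, h⟩)
    have h4 := h2 i hi z (by linarith)
    have h5 : (fun s => 1 - f i s ^ 2) z ≠ 0 := by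
      intro h6
      simp only at h6
      have h7 : f i z ^ 2 = 1 := (sub_eq_zero.mp h6).symm
      rw [← norm_pow, h7, norm_one] at h4
      norm_num at h4
    have h8 : od i z = 0 := by
      simp only [hod]
      unfold analyticOrderNatAt
      have hda : Differentiable ℂ fun s => 1 - f i s ^ 2 :=
        (differentiable_const _).sub ((hf i).pow 2)
      rw [(hda.analyticAt z).analyticOrderAt_eq_zero.mpr h5]
      rfl
    rw [h8]; simp
  -- pointwise Jensen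
  have hpt : ∀ i ∈ I, ∀ t : ℝ, ∑ z ∈ Z' i, (od i z : ENNReal) * (ENNReal.ofReal ω *
      (Icc (z.im - w) (z.im + w)).indicator 1 t) ≤
      ENNReal.ofReal (2 * Real.pi)⁻¹ * (∫⁻ φ in Ioc 0 (2 * Real.pi),
        ENNReal.ofReal (‖f i (pt (σ + xx φ / lam) (t + yy φ / lam))‖ ^ 2)) +
      ENNReal.ofReal 2 * ENNReal.ofReal (‖f i (pt 2 t)‖ ^ 2) := by
    intro i hi t
    have h1 := jensen_loc (hf i) (σ := σ) (t := t) hl0 hρ4 hρe
      (h2 i hi _ (by rw [pt_re]))
      (Z := (Z' i).filter (fun z => t ∈ Icc (z.im - w) (z.im + w))) (by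
        intro z hz
        obtain ⟨hz1, hz2⟩ := Finset.mem_filter.mp hz
        obtain ⟨hz3, hz4⟩ := (hZ' i z).mp hz1
        refine ⟨(hZ i hi z hz3).1, hz4, ?_⟩
        rw [abs_mul, abs_of_pos hl0]
        refine le_trans ?_ hlw
        refine mul_le_mul_of_nonneg_left ?_ hl0.le
        rw [abs_le]
        constructor <;> linarith [hz2.1, hz2.2])
    rw [← hω] at h1
    have h3 : ∑ z ∈ Z' i, (od i z : ENNReal) * (ENNReal.ofReal ω *
        (Icc (z.im - w) (z.im + w)).indicator 1 t) =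
        ENNReal.ofReal (∑ z ∈ (Z' i).filter (fun z => t ∈ Icc (z.im - w) (z.im + w)),
          (od i z : ℝ) * ω) := by
      rw [ENNReal.ofReal_sum_of_nonneg (fun z _ => by positivity), Finset.sum_filter]
      refine Finset.sum_congr rfl fun z _ => ?_
      by_cases hz : t ∈ Icc (z.im - w) (z.im + w)
      · rw [if_pos hz, indicator_of_mem hz, Pi.one_apply, mul_one,
          ENNReal.ofReal_mul (Nat.cast_nonneg _), ENNReal.ofReal_natCast]
      · rw [if_neg hz, indicator_of_notMem hz, mul_zero, mul_zero]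
    rw [h3]
    refine (ENNReal.ofReal_le_ofReal h1).trans ?_
    have hcont : Continuous fun φ : ℝ =>
        ‖f i (pt (σ + xx φ / lam) (t + yy φ / lam))‖ ^ 2 :=
      ((hfc i).comp (by fun_prop : Continuous fun φ : ℝ =>
        ((σ + xx φ / lam, t + yy φ / lam) : ℝ × ℝ))).pow 2
    have h4 : Real.circleAverage (fun ζ => ‖f i (sp σ t lam ζ)‖ ^ 2) ((1 + ρ : ℝ) : ℂ) ρ =
        (2 * Real.pi)⁻¹ * ∫ φ in Ioc 0 (2 * Real.pi),
          ‖f i (pt (σ + xx φ / lam) (t + yy φ / lam))‖ ^ 2 := by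
      rw [Real.circleAverage_def, smul_eq_mul,
        intervalIntegral.integral_of_le (by positivity)]
      congr 1
      refine integral_congr_ae (Eventually.of_forall fun φ => ?_)
      simp only [hsp]
    rw [h4, ENNReal.ofReal_add (mul_nonneg (by positivity)
      (integral_nonneg fun φ => by positivity)) (by positivity),
      ENNReal.ofReal_mul (by positivity), ENNReal.ofReal_mul (by norm_num),
      ofReal_integral_eq_lintegral_ofReal ?_ (Eventually.of_forall fun φ => by positivity)]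
    exact (hcont.integrableOn_Icc (a := 0) (b := 2 * Real.pi)).mono_set Ioc_subset_Icc_self
  -- integrating the left side
  have hleft : ∀ i ∈ I, ∫⁻ t in J, ∑ z ∈ Z' i, (od i z : ENNReal) * (ENNReal.ofReal ω *
      (Icc (z.im - w) (z.im + w)).indicator 1 t) =
      ENNReal.ofReal ((∑ z ∈ Z' i, (od i z : ℝ)) * (ω * (2 * w))) := by
    intro i hi
    rw [lintegral_finsetSum _ fun z _ => by
      refine Measurable.const_mul (Measurable.const_mul ?_ _) _
      exact measurable_one.indicator measurableSet_Icc]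
    rw [Finset.sum_mul, ENNReal.ofReal_sum_of_nonneg (fun z _ => by positivity)]
    refine Finset.sum_congr rfl fun z hz => ?_
    obtain ⟨hz3, hz4⟩ := (hZ' i z).mp hz
    obtain ⟨_, hz5, hz6⟩ := hZ i hi z hz3
    rw [lintegral_const_mul _ ((measurable_one.indicator measurableSet_Icc).const_mul _),
      lintegral_const_mul _ (measurable_one.indicator measurableSet_Icc),
      lintegral_indicator_one measurableSet_Icc, Measure.restrict_apply measurableSet_Icc,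
      inter_eq_left.mpr, Real.volume_Icc, ENNReal.ofReal_mul (Nat.cast_nonneg _),
      ENNReal.ofReal_natCast, ENNReal.ofReal_mul hω0.le]
    · congr 3
      ring
    · intro t ht
      exact ⟨by linarith [ht.1], by linarith [ht.2]⟩
  -- windows
  obtain ⟨A, hA⟩ : ∃ A : ℝ, A = 2 * 7 ^ E * P * Real.exp (-(2 * (lam * (σ - a)))) := ⟨_, rfl⟩
  have hA0 : 0 ≤ A := by rw [hA]; positivity
  have hwin : ∀ r v : ℝ, 0 < r → r ≤ 3 → |v| ≤ 2 →
      ∑ i ∈ I, ∫⁻ t in J, ENNReal.ofReal (‖f i (pt (a + r) (t + v))‖ ^ 2) ≤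
      ENNReal.ofReal (2 * 7 ^ E * P * Real.exp (-(2 * (lam * r)))) := by
    intro r v hr hr3 hv
    refine (two_win I f (a + r) H t₁ v w hwH).trans ?_
    have h7 : ∀ j : ℝ, 0 ≤ j → j ≤ 1 → QQ I f (a + r) H (t₁ - w + j * H + v) ≤
        ENNReal.ofReal (7 ^ E * P * Real.exp (-(2 * (lam * r)))) := by
      intro j hj0 hj
      refine (hQ r hr hr3 _).trans (ENNReal.ofReal_le_ofReal ?_)
      have h8 : 1 + |t₁ - w + j * H + v| / T ≤ 7 := by
        have h9 : |t₁ - w + j * H + v| ≤ 6 * T := by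
          obtain ⟨v1, v2⟩ := abs_le.mp hv
          obtain ⟨t1, t2⟩ := abs_le.mp ht₁
          have h10 : j * H ≤ 1 * T := by nlinarith
          have h11 : 0 ≤ j * H := by positivity
          rw [abs_le]
          constructor <;> linarith
        have := (div_le_iff₀ hT0).mpr h9
        linarith
      have h12 : (1 + |t₁ - w + j * H + v| / T) ^ E ≤ 7 ^ E :=
        pow_le_pow_left₀ (by positivity) h8 E
      have h13 : 0 ≤ P * Real.exp (-(2 * (lam * r))) := by positivity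
      nlinarith [mul_le_mul_of_nonneg_left h12 h13]
    have e1 := h7 0 le_rfl (by norm_num)
    have e2 := h7 1 (by norm_num) le_rfl
    rw [zero_mul, add_zero] at e1
    rw [one_mul] at e2
    refine (add_le_add e1 e2).trans (le_of_eq ?_)
    rw [← ENNReal.ofReal_add (by positivity) (by positivity)]
    congr 1
    ring
  -- total
  have hmeas : ∀ i, Measurable (Function.uncurry fun t φ : ℝ => ENNReal.ofReal
      (‖f i (pt (σ + xx φ / lam) (t + yy φ / lam))‖ ^ 2)) := by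
    intro i
    refine Measurable.ennreal_ofReal (Continuous.measurable ?_)
    exact ((hfc i).comp (by fun_prop : Continuous fun q : ℝ × ℝ =>
      ((σ + xx q.2 / lam, q.1 + yy q.2 / lam) : ℝ × ℝ))).pow 2
  have htot : ENNReal.ofReal ((∑ i ∈ I, ∑ z ∈ Z i, (od i z : ℝ)) * (ω * (2 * w))) ≤
      ENNReal.ofReal (2 * Real.pi)⁻¹ * ENNReal.ofReal (A * (Real.pi ^ 2 / (2 * ρ))) +
        ENNReal.ofReal 2 * ENNReal.ofReal (A * Real.exp (-(2 * (lam * (2 - σ))))) := by
    rw [Finset.sum_congr rfl hred, Finset.sum_mul,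
      ENNReal.ofReal_sum_of_nonneg (fun i _ => by positivity),
      ← Finset.sum_congr rfl hleft]
    refine (Finset.sum_le_sum fun i hi => lintegral_mono (hpt i hi)).trans ?_
    have hsplit : ∀ i ∈ I, ∫⁻ t in J, (ENNReal.ofReal (2 * Real.pi)⁻¹ *
        (∫⁻ φ in Ioc 0 (2 * Real.pi),
        ENNReal.ofReal (‖f i (pt (σ + xx φ / lam) (t + yy φ / lam))‖ ^ 2)) +
        ENNReal.ofReal 2 * ENNReal.ofReal (‖f i (pt 2 t)‖ ^ 2)) =
        ENNReal.ofReal (2 * Real.pi)⁻¹ * (∫⁻ φ in Ioc 0 (2 * Real.pi), ∫⁻ t in J,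
        ENNReal.ofReal (‖f i (pt (σ + xx φ / lam) (t + yy φ / lam))‖ ^ 2)) +
        ENNReal.ofReal 2 * ∫⁻ t in J, ENNReal.ofReal (‖f i (pt 2 t)‖ ^ 2) := by
      intro i _
      have m1 : Measurable fun t : ℝ => ENNReal.ofReal (‖f i (pt 2 t)‖ ^ 2) :=
        Measurable.ennreal_ofReal (((hfc i).comp (by fun_prop : Continuous fun t : ℝ =>
          ((2, t) : ℝ × ℝ))).pow 2).measurable
      have m2 : Measurable fun t : ℝ => ∫⁻ φ in Ioc 0 (2 * Real.pi),
          ENNReal.ofReal (‖f i (pt (σ + xx φ / lam) (t + yy φ / lam))‖ ^ 2) :=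
        (hmeas i).lintegral_prod_right'
      rw [lintegral_add_right _ (m1.const_mul _), lintegral_const_mul _ m1,
        lintegral_const_mul _ m2, lintegral_lintegral_swap (hmeas i).aemeasurable]
    rw [Finset.sum_congr rfl hsplit, Finset.sum_add_distrib, ← Finset.mul_sum, ← Finset.mul_sum]
    refine add_le_add (mul_le_mul_right ?_ _) (mul_le_mul_right ?_ _)
    · rw [← lintegral_finsetSum _ fun i _ => by
        have := (hmeas i).comp (measurable_swap (α := ℝ) (β := ℝ))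
        exact this.lintegral_prod_right']
      have hφ : ∀ φ : ℝ, ∑ i ∈ I, ∫⁻ t in J,
          ENNReal.ofReal (‖f i (pt (σ + xx φ / lam) (t + yy φ / lam))‖ ^ 2) ≤
          ENNReal.ofReal (A * (‖circleMap ((1 + ρ : ℝ) : ℂ) ρ φ‖ ^ 2)⁻¹) := by
        intro φ
        have r1 : 0 < σ - a + xx φ / lam := by
          have : 0 ≤ xx φ / lam := div_nonneg (hx0 φ) hl0.le
          linarith
        have r2 : σ - a + xx φ / lam ≤ 3 := by
          have h3 : xx φ / lam ≤ 1 + (2 - σ) := by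
            rw [div_le_iff₀ hl0]
            have := hx1 φ
            nlinarith
          linarith
        have r3 : |yy φ / lam| ≤ 2 := by
          rw [abs_div, abs_of_pos hl0, div_le_iff₀ hl0]
          have := hy1 φ
          linarith
        have h14 := hwin _ _ r1 r2 r3
        have e4 : a + (σ - a + xx φ / lam) = σ + xx φ / lam := by ring
        rw [e4] at h14
        refine h14.trans (ENNReal.ofReal_le_ofReal (le_of_eq ?_))
        rw [hA, ← hexp2, mul_assoc (2 * 7 ^ E * P), ← Real.exp_add]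
        congr 2
        field_simp
        ring
      refine (lintegral_mono fun φ => hφ φ).trans ?_
      have hcc : Continuous fun φ : ℝ => A * (‖circleMap ((1 + ρ : ℝ) : ℂ) ρ φ‖ ^ 2)⁻¹ := by
        refine continuous_const.mul (Continuous.inv₀ ?_ fun φ => ?_)
        · exact ((continuous_circleMap _ _).norm).pow 2
        · have := hcpos φ
          positivity
      rw [← ofReal_integral_eq_lintegral_ofReal ?_ (Eventually.of_forall fun φ => by positivity)]
      · refine ENNReal.ofReal_le_ofReal ?_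
        rw [integral_const_mul]
        refine mul_le_mul_of_nonneg_left ?_ hA0
        rw [← intervalIntegral.integral_of_le (by positivity)]
        exact circ_int' hρ0
      · exact (hcc.integrableOn_Icc (a := 0) (b := 2 * Real.pi)).mono_set
            Ioc_subset_Icc_self
    · have h15 := hwin (2 - a) 0 (by linarith) (by linarith) (by norm_num)
      have e5 : a + (2 - a) = 2 := by ring
      rw [e5] at h15
      simp only [add_zero] at h15
      refine h15.trans (ENNReal.ofReal_le_ofReal (le_of_eq ?_))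
      rw [hA, mul_assoc (2 * 7 ^ E * P), ← Real.exp_add]
      congr 2
      ring
  obtain ⟨N, hN⟩ : ∃ N : ℝ, N = ∑ i ∈ I, ∑ z ∈ Z i, (od i z : ℝ) := ⟨_, rfl⟩
  have hN0 : 0 ≤ N := by rw [hN]; positivity
  rw [← hN] at htot
  rw [← ENNReal.ofReal_mul (by positivity), ← ENNReal.ofReal_mul (by norm_num),
    ← ENNReal.ofReal_add (by positivity) (by positivity),
    ENNReal.ofReal_le_ofReal_iff (by positivity)] at htot
  have t1 : (2 * Real.pi)⁻¹ * (A * (Real.pi ^ 2 / (2 * ρ))) ≤ A / ρ := by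
    have hpi0 := Real.pi_pos
    have : (2 * Real.pi)⁻¹ * (A * (Real.pi ^ 2 / (2 * ρ))) = A / ρ * (Real.pi / 4) := by
      field_simp
      ring
    rw [this]
    have h16 : 0 ≤ A / ρ := by positivity
    nlinarith [Real.pi_le_four]
  have t2 : 2 * (A * Real.exp (-(2 * (lam * (2 - σ))))) ≤ 2 * (A / ρ) := by
    have h3 : Real.exp (-(2 * (lam * (2 - σ)))) = ((1 + ρ) ^ 2)⁻¹ := by
      rw [hρe, ← Real.exp_nat_mul, ← Real.exp_neg]
      norm_num
    rw [h3, div_eq_mul_inv]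
    refine mul_le_mul_of_nonneg_left (mul_le_mul_of_nonneg_left ?_ hA0) (by norm_num)
    refine inv_anti₀ hρ0 ?_
    nlinarith
  have t3 : N * (ω * (2 * w)) = N / R / (4 * ρ) := by
    rw [hω, hw]
    field_simp
  rw [t3] at htot
  have t4 : N / R / (4 * ρ) ≤ 3 * (A / ρ) := by linarith
  have t5 : N ≤ 12 * A * R := by
    rw [div_le_iff₀ (by positivity), div_le_iff₀ hR0] at t4
    calc N ≤ 3 * (A / ρ) * (4 * ρ) * R := t4
      _ = 12 * A * R := by field_simp; ring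
  rw [← hN]
  refine t5.trans (le_of_eq ?_)
  rw [hA]
  ring

end Pool.Agent.V8H15.DN
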