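import Pool.Agent.V8H15.DN.Left
import Pool.Agent.V8H15.DN.Loc2

/-!
# The density of zeros near the critical line, in short windows

Project DN (helper15); follows N786.D.Asm3, with local counting.
-/

set_option autoImplicit false

open Finset Filter Topology MeasureTheory ArithmeticFunction Complex

namespace Pool.Agent.V8H15.DN

open Pool.Agent.N786.D (Fr Cutf JJ cB cB_nn wt QQ QQ_right)
open Pool.Agent.R399.TW (pt pt_re pt_im pt_cont)

/-- growth of the mollified function -/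
lemma grow_f {β₁ β₂ : ℝ} {θ : ℝ → ℝ} (hθ : Cutf β₁ β₂ θ) (hβ : 0 < β₁) {A T R : ℝ} {n : ℕ}
    (hR : 0 < R) (hT : 1 ≤ T) (hA : 1 ≤ A) {a : ArithmeticFunction ℂ} (h1 : a 1 = 1)
    {Z Z' : ℝ} (hZ : AC a Z) (hZ' : AC (inv a) Z')
    {g : ℕ → ℂ} {F : ℂ → ℂ} (h : GrL A T R n a g F) :
    ∃ G : ℝ, ∀ z : ℂ, 1 / 4 ≤ z.re → ‖F z * Dp θ R ⌊Real.exp (β₂ * R)⌋₊ (inv a) g z - 1‖ ≤
      G * (1 + |z.im|) ^ n * Real.exp (-(β₁ * R * z.re)) := by
  obtain ⟨G₀, hG₀, hG⟩ := Dp_bdd θ R ⌊Real.exp (β₂ * R)⌋₊ (inv a) g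
  obtain ⟨E, hE⟩ : ∃ E : ℝ, E = Real.exp (β₁ * R * (3 / 2)) := ⟨_, rfl⟩
  have hE0 : 0 < E := by rw [hE]; exact Real.exp_pos _
  have hZ0 := hZ.1
  have hZ0' := hZ'.1
  have hA0 : 0 < A := by linarith
  refine ⟨(Z * Z' + (A * Real.exp R * G₀ + 1)) * E, fun z hz => ?_⟩
  have hone : 1 ≤ (1 + |z.im|) ^ n := one_le_pow₀ (by linarith [abs_nonneg z.im])
  rcases le_total (3 / 2) z.re with h3 | h3
  · rw [h.ser z h3]
    refine (LM_sub_one h1 hZ hZ' h.cm hθ hR h3).trans ?_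
    have e1 : Real.exp (-(β₁ * R * (z.re - 3 / 2))) = E * Real.exp (-(β₁ * R * z.re)) := by
      rw [hE, ← Real.exp_add]; congr 1; ring
    rw [e1]
    calc E * Real.exp (-(β₁ * R * z.re)) * (Z * Z') =
        (Z * Z') * E * 1 * Real.exp (-(β₁ * R * z.re)) := by ring
      _ ≤ (Z * Z' + (A * Real.exp R * G₀ + 1)) * E * (1 + |z.im|) ^ n *
          Real.exp (-(β₁ * R * z.re)) := by
          gcongr
          have : 0 ≤ A * Real.exp R * G₀ + 1 := by positivity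
          linarith
  · have e2 : 1 ≤ E * Real.exp (-(β₁ * R * z.re)) := by
      rw [hE, ← Real.exp_add]
      refine Real.one_le_exp ?_
      have : 0 ≤ β₁ * R * (3 / 2 - z.re) := by
        have : 0 ≤ 3 / 2 - z.re := by linarith
        positivity
      linarith
    have e3 := h.gr z (by linarith)
    have e4 : (1 + |z.im| / T) ^ n ≤ (1 + |z.im|) ^ n := by
      refine pow_le_pow_left₀ (by positivity) ?_ n
      have : |z.im| / T ≤ |z.im| := div_le_self (abs_nonneg _) hT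
      linarith
    have e5 := hG z (by linarith)
    have e6 : ‖F z‖ ≤ A * Real.exp R * (1 + |z.im|) ^ n :=
      e3.trans (mul_le_mul_of_nonneg_left e4 (by positivity))
    calc ‖F z * Dp θ R ⌊Real.exp (β₂ * R)⌋₊ (inv a) g z - 1‖ ≤
          ‖F z‖ * ‖Dp θ R ⌊Real.exp (β₂ * R)⌋₊ (inv a) g z‖ + 1 := by
          have := norm_sub_le (F z * Dp θ R ⌊Real.exp (β₂ * R)⌋₊ (inv a) g z) 1
          rw [norm_mul, norm_one] at this
          exact this
      _ ≤ A * Real.exp R * (1 + |z.im|) ^ n * G₀ + 1 :=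
          add_le_add (mul_le_mul e6 e5 (norm_nonneg _) (by positivity)) le_rfl
      _ ≤ A * Real.exp R * (1 + |z.im|) ^ n * G₀ + 1 * (1 + |z.im|) ^ n := by linarith
      _ = (0 + (A * Real.exp R * G₀ + 1)) * (1 + |z.im|) ^ n * 1 := by ring
      _ ≤ (Z * Z' + (A * Real.exp R * G₀ + 1)) * (1 + |z.im|) ^ n *
          (E * Real.exp (-(β₁ * R * z.re))) := by gcongr; positivity
      _ = _ := by ring

/-- comparison of the orders -/
lemma order_le {F M : ℂ → ℂ} (hF : Differentiable ℂ F) (hM : Differentiable ℂ M)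
    (h2 : ‖F 2 * M 2 - 1‖ ^ 2 ≤ 1 / 2) (z : ℂ) :
    analyticOrderNatAt F z ≤ analyticOrderNatAt (fun s => 1 - (F s * M s - 1) ^ 2) z := by
  have e1 : (fun s => 1 - (F s * M s - 1) ^ 2) = F * fun s => M s * (2 - F s * M s) := by
    funext s
    simp only [Pi.mul_apply]
    ring
  have hu : Differentiable ℂ fun s => M s * (2 - F s * M s) :=
    hM.mul ((differentiable_const _).sub (hF.mul hM))
  have hh : Differentiable ℂ fun s => 1 - (F s * M s - 1) ^ 2 :=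
    (differentiable_const _).sub (((hF.mul hM).sub (differentiable_const _)).pow 2)
  have h3 : (fun s => 1 - (F s * M s - 1) ^ 2) 2 ≠ 0 := by
    intro h4
    simp only at h4
    have h5 : (F 2 * M 2 - 1) ^ 2 = 1 := (sub_eq_zero.mp h4).symm
    rw [← norm_pow, h5, norm_one] at h2
    norm_num at h2
  have h4 : analyticOrderAt (fun s => 1 - (F s * M s - 1) ^ 2) 2 ≠ ⊤ := by
    rw [(hh.analyticAt 2).analyticOrderAt_eq_zero.mpr h3]
    exact ENat.zero_ne_top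
  have hA : AnalyticOnNhd ℂ (fun s => 1 - (F s * M s - 1) ^ 2) Set.univ :=
    fun z _ => hh.analyticAt z
  have h5 : analyticOrderAt (fun s => 1 - (F s * M s - 1) ^ 2) z ≠ ⊤ :=
    hA.analyticOrderAt_ne_top_of_isPreconnected isPreconnected_univ (Set.mem_univ 2)
      (Set.mem_univ z) h4
  unfold analyticOrderNatAt
  refine ENat.toNat_le_toNat ?_ h5
  rw [e1, analyticOrderAt_mul (hF.analyticAt z) (hu.analyticAt z)]
  exact le_self_add

/-- the order at a point where the function does not vanish -/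
lemma ord_zero {F : ℂ → ℂ} (hF : Differentiable ℂ F) {z : ℂ} (h : F z ≠ 0) :
    analyticOrderNatAt F z = 0 := by
  unfold analyticOrderNatAt
  rw [(hF.analyticAt z).analyticOrderAt_eq_zero.mpr h]
  rfl

/-- **The density of zeros at all distances from the critical line, in windows of length at least
`1 / R`** -/
theorem dens_loc {a : ArithmeticFunction ℂ} {c : ℕ → ℂ} (hLD : LD a c) {C : ℝ} (hC : HB c C)
    {Z Z' : ℝ} (hZ : AC a Z) (hZ' : AC (inv a) Z')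
    {α' α₁ α₂ β' β₁ β₂ A : ℝ} {φ θ : ℝ → ℝ}
    (hφ : Cutf α₁ α₂ φ) (hθ : Cutf β₁ β₂ θ) (hα' : 1 / 2 < α') (hα : α' < α₁)
    (hβ' : 0 < β') (hβ'1 : β' < β₁) (hβ1' : β' ≤ 1)
    (hβ : 0 < β₂) (hβ1 : β₂ ≤ 1) (hA : 1 ≤ A) (n : ℕ) (hn : 1 ≤ n) :
    ∃ (Q R₀ : ℝ), 0 ≤ Q ∧ 1 ≤ R₀ ∧
    ∀ (R T H P : ℝ) {ι : Type} (S : Finset ι) (g : ι → ℕ → ℂ)
      (F : ι → ℂ → ℂ), R₀ ≤ R → 1 ≤ T → 1 / R ≤ H → H ≤ T → S.card * H ≤ P →
      LSP S g H P (⌊Real.exp (α₂ * R)⌋₊ * ⌊Real.exp (β₂ * R)⌋₊) →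
      (∀ i, Differentiable ℂ (F i)) → (∀ i ∈ S, GrL A T R n a (g i) (F i)) →
      (∀ i ∈ S, ∀ s : ℂ, 1 < s.re → F i s ≠ 0) →
      ∀ t₁ : ℝ, |t₁| ≤ T → ∀ δ : ℝ, 0 ≤ δ →
      ∀ Zs : ι → Finset ℂ,
      (∀ i ∈ S, ∀ z ∈ Zs i, 1 / 2 + δ ≤ z.re ∧ t₁ ≤ z.im ∧ z.im ≤ t₁ + H) →
      ∑ i ∈ S, ∑ z ∈ Zs i, (analyticOrderNatAt (F i) z : ℝ) ≤
        Q * (P * R * Real.exp (-(2 * β' * R * δ))) := by
  obtain ⟨κ, b, R₀, k, E, hκ, hκ0, hb, hR₀, hmain⟩ :=
    mean_near hLD hC hZ hZ' hφ hθ hα' hα hβ1 hA n hn (2 / β')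
  obtain ⟨c₂, hc₂, hleft⟩ := JJ_left hθ hβ κ A (by linarith) hA n k
  obtain ⟨b₂, hb₂⟩ : ∃ b₂ : ℝ, b₂ = b * c₂ := ⟨_, rfl⟩
  have hb₂0 : 0 ≤ b₂ := by rw [hb₂]; positivity
  obtain ⟨E', hE'⟩ : ∃ E' : ℕ, E' = E + n := ⟨_, rfl⟩
  obtain ⟨B, hB⟩ : ∃ B : ℕ, B = n + E' + 3 := ⟨_, rfl⟩
  have hZ0 := hZ.1
  have hZ0' := hZ'.1
  obtain ⟨C₀, hC₀⟩ : ∃ C₀ : ℝ, C₀ = cB B 0 * (3 ^ E' * cB B E') := ⟨_, rfl⟩
  have hC₀0 : 0 ≤ C₀ := by
    rw [hC₀]
    have := cB_nn B 0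
    have := cB_nn B E'
    positivity
  have hβ₁ : 0 < β₁ := by linarith
  -- the last threshold
  obtain ⟨R₁, hR₁⟩ : ∃ R₁ : ℝ, ∀ R : ℝ, R₁ ≤ R →
      Real.exp (-(β₁ * R * (1 / 2))) * (Z * Z') ≤ 1 / 2 := by
    have h1 : Tendsto (fun R : ℝ => Real.exp (-(β₁ * R * (1 / 2))) * (Z * Z')) atTop
        (𝓝 (0 * (Z * Z'))) := by
      refine Tendsto.mul_const _ (Real.tendsto_exp_neg_atTop_nhds_zero.comp ?_)
      have h2 : Tendsto (fun R : ℝ => β₁ * R * (1 / 2)) atTop atTop :=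
        (tendsto_id.const_mul_atTop hβ₁).atTop_mul_const (by norm_num)
      exact h2
    rw [zero_mul] at h1
    obtain ⟨R₁, h2⟩ :=
      (h1.eventually (Iio_mem_nhds (show (0 : ℝ) < 1 / 2 by norm_num))).exists_forall_of_atTop
    exact ⟨R₁, fun R hR => (Set.mem_Iio.mp (h2 R hR)).le⟩
  refine ⟨24 * 7 ^ E' * (C₀ * (2 * b₂ + 2)) * Real.exp 2,
    max (max R₀ R₁) (4 / β'), by positivity,
    le_max_of_le_left (le_max_of_le_left (by linarith)), ?_⟩
  intro R T H P ι S g F hR hT hH hHT hP hls hFd hF hnv t₁ ht₁ δ hδ Zs hZz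
  have hR1 : R₀ ≤ R := (le_max_left _ _).trans ((le_max_left _ _).trans hR)
  have hR2 : R₁ ≤ R := (le_max_right _ _).trans ((le_max_left _ _).trans hR)
  have hR3 : 4 / β' ≤ R := (le_max_right _ _).trans hR
  have hRone : 1 ≤ R := by linarith
  have hR0 : 0 < R := by linarith
  have hRb : 5 ≤ Real.exp (β' * R) := by
    rw [div_le_iff₀ hβ'] at hR3
    have := Real.add_one_le_exp (β' * R)
    nlinarith
  have hT0 : 0 < T := by linarith
  have hH0 : 0 ≤ H := le_trans (by positivity) hH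
  have hP0 : 0 ≤ P := le_trans (by positivity) hP
  rcases le_or_gt δ (1 / 2) with hδ2 | hδ2
  swap
  · have h1 : ∑ i ∈ S, ∑ z ∈ Zs i, (analyticOrderNatAt (F i) z : ℝ) = 0 := by
      refine sum_eq_zero fun i hl => sum_eq_zero fun z hz => ?_
      rw [ord_zero (hFd i) (hnv i hl z (by linarith [(hZz i hl z hz).1])), Nat.cast_zero]
    rw [h1]
    positivity
  obtain ⟨a₀, ha₀⟩ : ∃ a₀ : ℝ, a₀ = 1 / 2 - κ / R := ⟨_, rfl⟩
  have hκR : 0 < κ / R := by positivity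
  have hκR4 : κ / R ≤ 1 / 4 := by
    rw [div_le_iff₀ hR0]; linarith
  have ha₀4 : 1 / 4 ≤ a₀ := by rw [ha₀]; linarith
  have hb'R : 1 / (β' * R) < κ / R := by
    have h1 : 1 / (β' * R) = (1 / β') / R := by field_simp
    rw [h1, div_lt_div_iff_of_pos_right hR0]
    have h2 : 1 / β' < 2 / β' := by
      rw [div_lt_div_iff_of_pos_right hβ']; norm_num
    linarith
  obtain ⟨σ, hσe⟩ : ∃ σ : ℝ, σ = 1 / 2 + δ - 1 / (β' * R) := ⟨_, rfl⟩
  have hbR0 : 0 < 1 / (β' * R) := by positivity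
  have hσa : a₀ < σ := by rw [hσe, ha₀]; linarith
  have hσ1 : σ ≤ 1 := by rw [hσe]; linarith
  set M : ι → ℂ → ℂ := fun i => Dp θ R ⌊Real.exp (β₂ * R)⌋₊ (inv a) (g i) with hM
  have hMd : ∀ i, Differentiable ℂ (M i) := fun i => Dp_diff _ _ _ _ _
  have hMl : ∀ i, M i = Dp θ R ⌊Real.exp (β₂ * R)⌋₊ (inv a) (g i) := fun i => rfl
  set f : ι → ℂ → ℂ := fun i s => F i s * M i s - 1 with hf
  have hfd : ∀ i, Differentiable ℂ (f i) := fun i =>
    ((hFd i).mul (hMd i)).sub (differentiable_const _)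
  -- the mean square on the line `a₀`
  have hms : ∀ t₀ : ℝ, QQ S f a₀ H t₀ ≤
      ENNReal.ofReal (P * (2 * b₂ + 2) * (1 + |t₀| / T) ^ E') := by
    intro t₀
    have hJ := hleft R T H P b E S g (inv a) ⌊Real.exp (β₂ * R)⌋₊ F hR0 (by linarith) hT hHT hP0 hb
      (fun i => (hFd i).continuous) (fun i hi τ => (hF i hi).fe _ hκR hκR4 τ)
      (hmain R T H P S g F hR1 hT hH0 hHT hP hls (fun i => (hFd i).continuous) hF) t₀
    rw [← ha₀, mul_assoc P b c₂, ← hb₂, ← hE'] at hJ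
    have hΘ : 1 ≤ (1 + |t₀| / T) ^ E' := one_le_pow₀ (by
      have : 0 ≤ |t₀| / T := by positivity
      linarith)
    have hpt : ∀ i t, ENNReal.ofReal (‖f i (pt a₀ t)‖ ^ 2) ≤
        ENNReal.ofReal 2 * ENNReal.ofReal (‖F i (pt a₀ t)‖ ^ 2 * ‖M i (pt a₀ (t - 0))‖ ^ 2) +
        ENNReal.ofReal 2 := by
      intro i t
      rw [← ENNReal.ofReal_mul (by norm_num), ← ENNReal.ofReal_add (by positivity) (by norm_num),
        sub_zero]
      refine ENNReal.ofReal_le_ofReal ?_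
      simp only [hf]
      have h1 := norm_sub_le (F i (pt a₀ t) * M i (pt a₀ t)) 1
      rw [norm_mul, norm_one] at h1
      have h2 := pow_le_pow_left₀ (norm_nonneg _) h1 2
      have h3 : (‖F i (pt a₀ t)‖ * ‖M i (pt a₀ t)‖ + 1) ^ 2 ≤
          2 * (‖F i (pt a₀ t)‖ ^ 2 * ‖M i (pt a₀ t)‖ ^ 2) + 2 := by
        nlinarith [sq_nonneg (‖F i (pt a₀ t)‖ * ‖M i (pt a₀ t)‖ - 1)]
      linarith
    unfold QQ
    calc ∑ i ∈ S, ∫⁻ t in Set.Icc t₀ (t₀ + H), ENNReal.ofReal (‖f i (pt a₀ t)‖ ^ 2) ≤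
        ∑ i ∈ S, (ENNReal.ofReal 2 * (∫⁻ t in Set.Icc t₀ (t₀ + H),
          ENNReal.ofReal (‖F i (pt a₀ t)‖ ^ 2 * ‖M i (pt a₀ (t - 0))‖ ^ 2)) +
          ENNReal.ofReal (2 * H)) := by
          refine sum_le_sum fun i _ => (lintegral_mono (hpt i)).trans ?_
          have hmeas : Measurable fun t : ℝ =>
              ENNReal.ofReal (‖F i (pt a₀ t)‖ ^ 2 * ‖M i (pt a₀ (t - 0))‖ ^ 2) := by
            refine Measurable.ennreal_ofReal (Continuous.measurable ?_)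
            have c1 : Continuous fun t : ℝ => ‖F i (pt a₀ t)‖ :=
              ((hFd i).continuous.comp (pt_cont _)).norm
            have c2 : Continuous fun t : ℝ => ‖M i (pt a₀ (t - 0))‖ := by
              simp only [sub_zero]
              exact ((hMd i).continuous.comp (pt_cont _)).norm
            exact (c1.pow 2).mul (c2.pow 2)
          rw [lintegral_add_left (hmeas.const_mul _), lintegral_const_mul _ hmeas,
            setLIntegral_const, Real.volume_Icc, ← ENNReal.ofReal_mul (by norm_num)]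
          refine add_le_add le_rfl (ENNReal.ofReal_le_ofReal (le_of_eq ?_))
          ring
      _ = ENNReal.ofReal 2 * JJ S F M a₀ a₀ H t₀ 0 + ENNReal.ofReal (S.card * (2 * H)) := by
          rw [sum_add_distrib, ← mul_sum, sum_const, nsmul_eq_mul,
            ENNReal.ofReal_mul (Nat.cast_nonneg _), ENNReal.ofReal_natCast]
          rfl
      _ ≤ ENNReal.ofReal 2 * ENNReal.ofReal (P * b₂ * (1 + |t₀| / T) ^ E') +
          ENNReal.ofReal (2 * P * (1 + |t₀| / T) ^ E') := by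
          refine add_le_add (mul_le_mul_right hJ _) (ENNReal.ofReal_le_ofReal ?_)
          calc (S.card : ℝ) * (2 * H) = 2 * (S.card * H) * 1 := by ring
            _ ≤ 2 * P * (1 + |t₀| / T) ^ E' := by gcongr
      _ = _ := by
          rw [← ENNReal.ofReal_mul (by positivity), ← ENNReal.ofReal_add (by positivity)
            (by positivity)]
          congr 1
          ring
  -- to the right
  have hright : ∀ r : ℝ, 0 < r → r ≤ 3 → ∀ t₀ : ℝ, QQ S f (a₀ + r) H t₀ ≤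
      ENNReal.ofReal (C₀ * (P * (2 * b₂ + 2)) * Real.exp (-(2 * (β' * R * r))) *
        (1 + |t₀| / T) ^ E') := by
    intro r hr hr3 t₀
    have h1 := QQ_right (I := S) (f := f) hfd (a := a₀) (μ := β' * R) (lam := β₁ * R) (T := T)
      (H := H) (Q := P * (2 * b₂ + 2)) (m := n) (B := B) (E := E') hT (by positivity) (by omega)
      (by omega) (by nlinarith) (fun i hl => by
        obtain ⟨G, hG⟩ := grow_f (β₂ := β₂) hθ hβ₁ hR0 hT hA hLD.one hZ hZ' (hF i hl)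
        exact ⟨G, fun z hz => hG z (by linarith)⟩) hms hr hr3 t₀
    rw [← hC₀] at h1
    exact h1
  have hsmall : ∀ i ∈ S, ∀ z : ℂ, 2 ≤ z.re → ‖f i z‖ ^ 2 ≤ 1 / 2 := by
    intro i hl z hz
    simp only [hf, hMl]
    rw [(hF i hl).ser z (by linarith)]
    have h1 := LM_sub_one (β₂ := β₂) hLD.one hZ hZ' (hF i hl).cm hθ hR0 (s := z) (by linarith)
    have h2 : Real.exp (-(β₁ * R * (z.re - 3 / 2))) ≤ Real.exp (-(β₁ * R * (1 / 2))) := by
      refine Real.exp_le_exp.mpr (neg_le_neg ?_)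
      exact mul_le_mul_of_nonneg_left (by linarith) (by positivity)
    have h3 := h1.trans ((mul_le_mul_of_nonneg_right h2 (by positivity)).trans (hR₁ R hR2))
    have h4 := pow_le_pow_left₀ (norm_nonneg _) h3 2
    norm_num at h4
    linarith
  have hcount := count_loc (I := S) (f := f) hfd (a := a₀) (R := R) (T := T)
    (H := H) (P := C₀ * (P * (2 * b₂ + 2))) (σ := σ) (t₁ := t₁) (b := β') (E := E') hRone hβ' hβ1'
    hRb hT hH hHT (by positivity) ht₁ (by linarith) hσa hσ1 hright hsmall Zs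
    (fun i hl z hz => by
      obtain ⟨h1, h2, h3⟩ := hZz i hl z hz
      exact ⟨by rw [hσe]; linarith, h2, h3⟩)
  have hord : ∑ i ∈ S, ∑ z ∈ Zs i, (analyticOrderNatAt (F i) z : ℝ) ≤
      ∑ i ∈ S, ∑ z ∈ Zs i, (analyticOrderNatAt (fun s => 1 - f i s ^ 2) z : ℝ) := by
    refine sum_le_sum fun i hl => sum_le_sum fun z _ => ?_
    have := order_le (hFd i) (hMd i) (hsmall i hl 2 (by norm_num)) z
    exact_mod_cast this
  refine hord.trans (hcount.trans ?_)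
  have e1 : Real.exp (-(2 * (β' * R * (σ - a₀)))) ≤
      Real.exp 2 * Real.exp (-(2 * β' * R * δ)) := by
    rw [← Real.exp_add, ha₀, hσe]
    refine Real.exp_le_exp.mpr ?_
    have h1 : β' * R * (1 / (β' * R)) = 1 := by field_simp
    have h2 : 0 ≤ β' * R * (κ / R) := by positivity
    have h3 : β' * R * (1 / 2 + δ - 1 / (β' * R) - (1 / 2 - κ / R)) =
        β' * R * δ - β' * R * (1 / (β' * R)) + β' * R * (κ / R) := by ring
    rw [h3, h1]
    linarith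
  calc 24 * 7 ^ E' * (C₀ * (P * (2 * b₂ + 2)) * R * Real.exp (-(2 * (β' * R * (σ - a₀))))) ≤
      24 * 7 ^ E' * (C₀ * (P * (2 * b₂ + 2)) * R *
        (Real.exp 2 * Real.exp (-(2 * β' * R * δ)))) := by gcongr
    _ = _ := by ring

end Pool.Agent.V8H15.DN
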