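import Pool.Agent.V8H15.DN.Lsv

/-!
# The large sieve inequality with an integral over a long window

Project DN (helper15).
-/

set_option autoImplicit false

open Finset Filter Topology MeasureTheory ArithmeticFunction

namespace Pool.Agent.V8H15.DN

/-- coefficients supported near a point on the logarithmic scale -/
lemma near_ls (N Q M : ℕ) {ρ : ℝ} (hρ : 0 < ρ) (v : ℝ) (x : ℕ → ℂ)
    (hx : ∀ p : ℕ, ρ < |Real.log p - v| → x p = 0) :
    ∑ i ∈ idx N Q, (1 : ℝ) * ‖∑ p ∈ Icc 1 M, gv i p * x p‖ ^ 2 ≤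
      6 * (2 * ρ * M + 1 + (Q : ℝ) ^ 2) * ∑ p ∈ Icc 1 M, ‖x p‖ ^ 2 := by
  obtain ⟨lo, hlo⟩ : ∃ lo : ℝ, lo = Real.exp (v - ρ) := ⟨_, rfl⟩
  obtain ⟨up, hup⟩ : ∃ up : ℝ, up = Real.exp (v + ρ) := ⟨_, rfl⟩
  have hlo0 : 0 < lo := by rw [hlo]; exact Real.exp_pos _
  have hup0 : 0 < up := by rw [hup]; exact Real.exp_pos _
  obtain ⟨hi, hhi⟩ : ∃ hi : ℕ, hi = min M ⌊up⌋₊ := ⟨_, rfl⟩
  obtain ⟨M₀, hM₀⟩ : ∃ M₀ : ℕ, M₀ = ⌈lo⌉₊ - 1 := ⟨_, rfl⟩
  have hc1 : 1 ≤ ⌈lo⌉₊ := Nat.one_le_iff_ne_zero.mpr (Nat.ceil_pos.mpr hlo0).ne'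
  have hM₀r : lo - 1 ≤ M₀ := by
    rw [hM₀, Nat.cast_sub hc1]
    have := Nat.le_ceil lo
    push_cast
    linarith
  have hlow : ∀ n : ℕ, 1 ≤ n → n ≤ M₀ → x n = 0 := by
    intro n h1 h2
    refine hx n ?_
    have h3 : n < ⌈lo⌉₊ := by omega
    have h4 : (n : ℝ) < lo := Nat.lt_ceil.mp h3
    have h5 : Real.log n < v - ρ := by
      rw [Real.log_lt_iff_lt_exp (by exact_mod_cast h1), ← hlo]
      exact h4
    rw [lt_abs]
    right
    linarith
  have hbig : ∀ n : ℕ, n ≤ M → hi < n → x n = 0 := by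
    intro n h1 h2
    refine hx n ?_
    have h3 : ⌊up⌋₊ < n := by
      rw [hhi] at h2
      rcases min_lt_iff.mp h2 with h | h
      · omega
      · exact h
    have h4 : up < n := (Nat.floor_lt hup0.le).mp h3
    have h5 : v + ρ < Real.log n := by
      rw [Real.lt_log_iff_exp_lt (lt_trans hup0 h4), ← hup]
      exact h4
    rw [lt_abs]
    left
    linarith
  have hiM : hi ≤ M := by rw [hhi]; exact min_le_left _ _
  have hX0 : 0 ≤ ∑ p ∈ Icc 1 M, ‖x p‖ ^ 2 := sum_nonneg fun _ _ => by positivity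
  rcases le_or_gt hi M₀ with h | h
  · -- all coefficients vanish
    have hz : ∀ p ∈ Icc 1 M, x p = 0 := by
      intro p hp
      rw [mem_Icc] at hp
      rcases le_or_gt p hi with h1 | h1
      · exact hlow p hp.1 (by omega)
      · exact hbig p hp.2 h1
    have h0 : ∑ i ∈ idx N Q, (1 : ℝ) * ‖∑ p ∈ Icc 1 M, gv i p * x p‖ ^ 2 = 0 := by
      refine sum_eq_zero fun i _ => ?_
      rw [sum_eq_zero fun p hp => by rw [hz p hp, mul_zero]]
      simp
    rw [h0]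
    positivity
  · obtain ⟨K, hK⟩ : ∃ K : ℕ, K = hi - M₀ := ⟨_, rfl⟩
    have hKe : M₀ + K = hi := by omega
    obtain ⟨α, hα⟩ : ∃ α : ℕ → ℂ, ∀ n, α n = if n = 0 then 0 else x n := ⟨_, fun n => rfl⟩
    have h1 := idx_block N Q M₀ K α (fun n hn => by
      rw [hα]
      split_ifs with h0
      · rfl
      · exact hlow n (by omega) hn)
    rw [hKe] at h1
    have hsub : Icc 1 hi ⊆ Icc 1 M := Icc_subset_Icc le_rfl hiM
    have e1 : ∀ i : Σ q : ℕ, DirichletCharacter ℂ q,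
        ∑ n ∈ Icc 1 hi, α n * gv i n = ∑ p ∈ Icc 1 M, gv i p * x p := by
      intro i
      rw [← sum_subset hsub (f := fun p => gv i p * x p)]
      · refine sum_congr rfl fun n hn => ?_
        rw [mem_Icc] at hn
        rw [hα, if_neg (by omega)]
        ring
      · intro n hn hn2
        rw [mem_Icc] at hn hn2
        rw [hbig n hn.2 (by omega), mul_zero]
    have e2 : ∑ n ∈ Icc 1 hi, ‖α n‖ ^ 2 ≤ ∑ p ∈ Icc 1 M, ‖x p‖ ^ 2 := by
      refine le_trans (le_of_eq (sum_congr rfl fun n hn => ?_))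
        (sum_le_sum_of_subset_of_nonneg hsub fun _ _ _ => by positivity)
      rw [mem_Icc] at hn
      rw [hα, if_neg (by omega)]
    have hKr : (K : ℝ) ≤ 2 * ρ * M + 1 := by
      have h2 : (K : ℝ) = hi - M₀ := by
        rw [hK, Nat.cast_sub h.le]
      have h3 : (hi : ℝ) ≤ up := by
        refine le_trans ?_ (Nat.floor_le hup0.le)
        rw [hhi]
        exact_mod_cast min_le_right _ _
      have h4 : lo = Real.exp (-(2 * ρ)) * up := by
        rw [hlo, hup, ← Real.exp_add]; congr 1; ring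
      have h5 : Real.exp (-(2 * ρ)) * hi ≤ lo := by
        rw [h4]
        exact mul_le_mul_of_nonneg_left h3 (Real.exp_pos _).le
      have h6 : 1 - 2 * ρ ≤ Real.exp (-(2 * ρ)) := by
        have := Real.add_one_le_exp (-(2 * ρ))
        linarith
      have h7 : (1 - 2 * ρ) * hi ≤ Real.exp (-(2 * ρ)) * hi :=
        mul_le_mul_of_nonneg_right h6 (Nat.cast_nonneg _)
      have h8 : 2 * ρ * (hi : ℝ) ≤ 2 * ρ * M :=
        mul_le_mul_of_nonneg_left (by exact_mod_cast hiM) (by positivity)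
      rw [h2]
      linarith
    simp only [e1] at h1
    simp only [one_mul]
    refine h1.trans ?_
    exact mul_le_mul (by linarith) e2 (sum_nonneg fun _ _ => by positivity) (by positivity)

/-- **long windows** -/
theorem lsp_long : ∃ C : ℝ, 0 < C ∧ ∀ (N Q M : ℕ) (H ρ : ℝ), 0 < H → 0 < ρ →
    LSP (idx N Q) gv H (H * (C * ((Q : ℝ) ^ 2 + 1 + ρ * M +
      (Q : ℝ) ^ 2 * M * Real.exp (-(H * ρ) ^ 2 / 2)))) M := by
  obtain ⟨C₁, hC₁, hg⟩ := Pool.Agent.N880.HD.gauss_main 1 one_pos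
  refine ⟨Real.exp (1 / 4) * √Real.pi * (24 + C₁), by positivity, ?_⟩
  intro N Q M H ρ hH hρ u t₁
  obtain ⟨tc, htc⟩ : ∃ tc : ℝ, tc = t₁ + H / 2 := ⟨_, rfl⟩
  obtain ⟨x, hx⟩ : ∃ x : ℕ → ℂ, ∀ n, x n = u n *
    Complex.exp (-(((tc * Real.log n : ℝ) : ℂ) * Complex.I)) := ⟨_, fun n => rfl⟩
  have hxn : ∀ n, ‖x n‖ = ‖u n‖ := fun n => by rw [hx, tw_norm]
  have h1 := hg (Σ q : ℕ, DirichletCharacter ℂ q) ℕ (idx N Q) (fun _ => 1) gv (Icc 1 M)
    (fun p => Real.log p) (6 * (2 * ρ * M + 1 + (Q : ℝ) ^ 2)) H ρ (fun _ _ => zero_le_one) gv_le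
    hH hρ (by positivity) (fun v y hy => near_ls N Q M hρ v y hy) x
  simp only [one_mul, sum_const, nsmul_eq_mul, mul_one, hxn, Nat.card_Icc] at h1
  rw [show M + 1 - 1 = M by omega] at h1
  -- one character
  have hone : ∀ i ∈ idx N Q, ∫ t in t₁..(t₁ + H), ‖∑ n ∈ Icc 1 M, u n * (gv i n *
      Complex.exp (-(((t * Real.log n : ℝ) : ℂ) * Complex.I)))‖ ^ 2 ≤
      Real.exp (1 / 4) * (H * √Real.pi * (∑ p ∈ Icc 1 M, ∑ q ∈ Icc 1 M,
        gv i p * x p * (starRingEnd ℂ) (gv i q * x q) *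
        ((Real.exp (-(H ^ 2 * (Real.log p - Real.log q) ^ 2 / 4)) : ℝ) : ℂ)).re) := by
    intro i _
    obtain ⟨i1, i2⟩ := gauss_ms (P := Icc 1 M) (fun p => gv i p * x p)
      (fun p => Real.log p) hH
    rw [← i2]
    have e1 : ∀ s : ℝ, ∑ p ∈ Icc 1 M, gv i p * x p *
        Complex.exp (-(((s * Real.log p : ℝ) : ℂ) * Complex.I)) =
        ∑ n ∈ Icc 1 M, u n * (gv i n *
          Complex.exp (-((((s + tc) * Real.log n : ℝ) : ℂ) * Complex.I))) := by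
      intro s
      refine sum_congr rfl fun n _ => ?_
      have e2 : Complex.exp (-((((s + tc) * Real.log n : ℝ) : ℂ) * Complex.I)) =
          Complex.exp (-(((s * Real.log n : ℝ) : ℂ) * Complex.I)) *
          Complex.exp (-(((tc * Real.log n : ℝ) : ℂ) * Complex.I)) := by
        rw [← Complex.exp_add]
        congr 1
        push_cast
        ring
      rw [hx, e2]
      ring
    simp only [e1] at i1 ⊢
    rw [← integral_const_mul]
    have hcont : Continuous fun t : ℝ => ‖∑ n ∈ Icc 1 M, u n * (gv i n *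
        Complex.exp (-(((t * Real.log n : ℝ) : ℂ) * Complex.I)))‖ ^ 2 := by fun_prop
    have h2 : ∫ t in t₁..(t₁ + H), ‖∑ n ∈ Icc 1 M, u n * (gv i n *
        Complex.exp (-(((t * Real.log n : ℝ) : ℂ) * Complex.I)))‖ ^ 2 =
        ∫ s in (-(H / 2))..(H / 2), ‖∑ n ∈ Icc 1 M, u n * (gv i n *
        Complex.exp (-((((s + tc) * Real.log n : ℝ) : ℂ) * Complex.I)))‖ ^ 2 := by
      rw [intervalIntegral.integral_comp_add_right (fun t : ℝ => ‖∑ n ∈ Icc 1 M, u n * (gv i n *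
        Complex.exp (-(((t * Real.log n : ℝ) : ℂ) * Complex.I)))‖ ^ 2) tc, htc]
      congr 1 <;> ring
    rw [h2, intervalIntegral.integral_of_le (by linarith)]
    refine le_trans ?_ (setIntegral_le_integral (s := Set.Ioc (-(H / 2)) (H / 2))
      (i1.const_mul _) (Eventually.of_forall fun s => by positivity))
    refine setIntegral_mono_on ?_ (i1.const_mul _).integrableOn measurableSet_Ioc fun s hs => ?_
    · exact ((hcont.comp (continuous_add_const tc)).integrableOn_Icc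
        (a := -(H / 2)) (b := H / 2)).mono_set Set.Ioc_subset_Icc_self
    · rw [← mul_assoc, ← Real.exp_add]
      refine le_mul_of_one_le_left (by positivity) (Real.one_le_exp ?_)
      have h3 : s ^ 2 ≤ (H / 2) ^ 2 := sq_le_sq' hs.1.le hs.2
      have h4 : s ^ 2 / H ^ 2 ≤ 1 / 4 := by
        rw [div_le_iff₀ (by positivity)]
        nlinarith
      linarith
  refine (sum_le_sum hone).trans ?_
  rw [← mul_sum, ← mul_sum]
  have hU : 0 ≤ ∑ n ∈ Icc 1 M, ‖u n‖ ^ 2 := sum_nonneg fun _ _ => by positivity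
  have hcard := idx_card N Q
  have h3 : (1 + 1) * (6 * (2 * ρ * (M : ℝ) + 1 + (Q : ℝ) ^ 2)) +
      C₁ * ((idx N Q).card : ℝ) * M * Real.exp (-(H * ρ) ^ 2 / 2) ≤
      (24 + C₁) * ((Q : ℝ) ^ 2 + 1 + ρ * M +
        (Q : ℝ) ^ 2 * M * Real.exp (-(H * ρ) ^ 2 / 2)) := by
    have a1 : C₁ * ((idx N Q).card : ℝ) * M * Real.exp (-(H * ρ) ^ 2 / 2) ≤
        C₁ * (Q : ℝ) ^ 2 * M * Real.exp (-(H * ρ) ^ 2 / 2) := by gcongr
    have a2 : 0 ≤ (Q : ℝ) ^ 2 * M * Real.exp (-(H * ρ) ^ 2 / 2) := by positivity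
    have a3 : 0 ≤ ρ * (M : ℝ) := by positivity
    have a4 : 0 ≤ (Q : ℝ) ^ 2 := by positivity
    nlinarith [mul_nonneg hC₁.le a3, mul_nonneg hC₁.le a4]
  calc Real.exp (1 / 4) * (H * √Real.pi * ∑ i ∈ idx N Q, (∑ p ∈ Icc 1 M, ∑ q ∈ Icc 1 M,
        gv i p * x p * (starRingEnd ℂ) (gv i q * x q) *
        ((Real.exp (-(H ^ 2 * (Real.log p - Real.log q) ^ 2 / 4)) : ℝ) : ℂ)).re) ≤
      Real.exp (1 / 4) * (H * √Real.pi * (((1 + 1) * (6 * (2 * ρ * (M : ℝ) + 1 + (Q : ℝ) ^ 2)) +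
      C₁ * ((idx N Q).card : ℝ) * M * Real.exp (-(H * ρ) ^ 2 / 2)) *
        ∑ n ∈ Icc 1 M, ‖u n‖ ^ 2)) := by gcongr
    _ ≤ Real.exp (1 / 4) * (H * √Real.pi * (((24 + C₁) * ((Q : ℝ) ^ 2 + 1 + ρ * M +
        (Q : ℝ) ^ 2 * M * Real.exp (-(H * ρ) ^ 2 / 2))) *
        ∑ n ∈ Icc 1 M, ‖u n‖ ^ 2)) := by gcongr
    _ = _ := by ring

end Pool.Agent.V8H15.DN
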