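import Pool.Agent.V8H15.DN.Gam

/-!
# The twists of a newform

Project DN (helper15).
-/

set_option autoImplicit false

open Complex Filter Topology MeasureTheory Set UpperHalfPlane MatrixGroups CongruenceSubgroup

namespace Pool.Agent.V8H15.DN

open Pool.Agent.R399.TW (pt pt_re pt_im pt_cont)
open W388 (GG FE2 IsNewf lamf heckeSeq_lamf exists_twist HeckeSeq cS)
open H370.DL (refl analyticAt_refl order_refl)

lemma GG_analytic {k : ℤ} (hk : 1 ≤ k) {N q : ℝ} (hN : 1 ≤ N) (hq : 1 ≤ q) {s : ℂ}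
    (hs : 0 < s.re) : AnalyticAt ℂ (GG k N q) s := by
  have hk1 : (1 : ℝ) ≤ k := by exact_mod_cast hk
  have hpi := Real.pi_pos
  have hsN : 0 < Real.sqrt N := Real.sqrt_pos.mpr (by linarith)
  have hκ : 0 < Real.sqrt N * q / (2 * Real.pi) := by positivity
  rw [analyticAt_iff_eventually_differentiableAt]
  have hev : ∀ᶠ z : ℂ in 𝓝 s, 0 < z.re :=
    (Complex.continuous_re.isOpen_preimage _ isOpen_Ioi).mem_nhds hs
  filter_upwards [hev] with z hz
  unfold GG
  refine DifferentiableAt.mul ?_ ?_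
  · exact DifferentiableAt.const_cpow (by fun_prop) (Or.inl (by exact_mod_cast hκ.ne'))
  · have h1 : 0 < (z + ((k : ℂ) - 1) / 2).re := by
      have : (((k : ℂ) - 1) / 2) = ((((k : ℝ) - 1) / 2 : ℝ) : ℂ) := by push_cast; ring
      rw [this, Complex.add_re, Complex.ofReal_re]
      have : 0 ≤ ((k : ℝ) - 1) / 2 := by linarith
      linarith
    exact (Gamma_diffAt h1).comp z (by fun_prop)

lemma GG_ne_zero {k : ℤ} (hk : 1 ≤ k) {N q : ℝ} (hN : 1 ≤ N) (hq : 1 ≤ q) {s : ℂ}
    (hs : 0 < s.re) : GG k N q s ≠ 0 := by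
  have hk1 : (1 : ℝ) ≤ k := by exact_mod_cast hk
  have hpi := Real.pi_pos
  have hsN : 0 < Real.sqrt N := Real.sqrt_pos.mpr (by linarith)
  have hκ : 0 < Real.sqrt N * q / (2 * Real.pi) := by positivity
  have h1 : 0 < (s + ((k : ℂ) - 1) / 2).re := by
    have : (((k : ℂ) - 1) / 2) = ((((k : ℝ) - 1) / 2 : ℝ) : ℂ) := by push_cast; ring
    rw [this, Complex.add_re, Complex.ofReal_re]
    have : 0 ≤ ((k : ℝ) - 1) / 2 := by linarith
    linarith
  unfold GG
  refine mul_ne_zero ?_ (Complex.Gamma_ne_zero_of_re_pos h1)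
  rw [Ne, cpow_eq_zero_iff]
  intro h
  have h2 : ((Real.sqrt N * q / (2 * Real.pi) : ℝ) : ℂ) = 0 := h.1
  exact hκ.ne' (by exact_mod_cast h2)

/-- symmetry of the zeros in the critical strip, the real axis included -/
theorem order_symm {k : ℤ} (hk : 1 ≤ k) {N q : ℝ} (hN : 1 ≤ N) (hq : 1 ≤ q) {F : ℂ → ℂ}
    (hF : FE2 k N q F) {s : ℂ} (h0 : 0 < s.re) (h1 : s.re < 1) :
    analyticOrderAt F (1 - (starRingEnd ℂ) s) = analyticOrderAt F s := by
  obtain ⟨w, hw, hfe⟩ := hF.fe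
  have hw0 : w ≠ 0 := by
    rintro rfl
    simp at hw
  set G : ℂ → ℂ := fun z => GG k N q z * F z with hG
  have hGa : ∀ z : ℂ, 0 < z.re → AnalyticAt ℂ G z := fun z hz =>
    (GG_analytic hk hN hq hz).mul (hF.diff.analyticAt z)
  have hrr : ∀ z : ℂ, (1 - (starRingEnd ℂ) z).re = 1 - z.re := fun z => by simp
  have hid : ∀ z : ℂ, 0 < z.re → z.re < 1 → G z = w * refl G z := by
    intro z hz0 hz1
    have hc1 : Continuous fun t : ℝ => G (pt z.re t) := by
      rw [continuous_iff_continuousAt]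
      intro t
      exact ContinuousAt.comp (f := fun t : ℝ => pt z.re t) (g := G)
        (hGa _ (by rw [pt_re]; exact hz0)).continuousAt (pt_cont _).continuousAt
    have hc2 : Continuous fun t : ℝ => w * refl G (pt z.re t) := by
      rw [continuous_iff_continuousAt]
      intro t
      refine continuousAt_const.mul ?_
      exact ContinuousAt.comp (f := fun t : ℝ => pt z.re t) (g := refl G)
        (analyticAt_refl (hGa _ (by rw [hrr, pt_re]; linarith))).continuousAt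
        (pt_cont _).continuousAt
    have heq : (fun t : ℝ => G (pt z.re t)) = fun t : ℝ => w * refl G (pt z.re t) := by
      refine Continuous.ext_on (dense_compl_singleton (0 : ℝ)) hc1 hc2 fun t ht => ?_
      have h2 := hfe (pt z.re t) (by rw [pt_im]; exact ht)
      simp only [hG]
      unfold H370.DL.refl
      exact h2
    have h3 := congrFun heq z.im
    have h4 : pt z.re z.im = z := by
      apply Complex.ext
      · rw [pt_re]
      · rw [pt_im]
    simp only [h4] at h3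
    exact h3
  have hev : G =ᶠ[𝓝 s] fun z => w * refl G z := by
    have e1 : ∀ᶠ z : ℂ in 𝓝 s, 0 < z.re :=
      (Complex.continuous_re.isOpen_preimage _ isOpen_Ioi).mem_nhds h0
    have e2 : ∀ᶠ z : ℂ in 𝓝 s, z.re < 1 :=
      (Complex.continuous_re.isOpen_preimage _ isOpen_Iio).mem_nhds h1
    filter_upwards [e1, e2] with z hz0 hz1
    exact hid z hz0 hz1
  have hord : ∀ z : ℂ, 0 < z.re → analyticOrderAt G z = analyticOrderAt F z := by
    intro z hz
    have h2 := analyticOrderAt_mul (GG_analytic hk hN hq hz) (hF.diff.analyticAt z)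
    rw [(GG_analytic hk hN hq hz).analyticOrderAt_eq_zero.mpr (GG_ne_zero hk hN hq hz),
      zero_add] at h2
    exact h2
  have hr : AnalyticAt ℂ (refl G) s := analyticAt_refl (hGa _ (by rw [hrr]; linarith))
  have h5 : analyticOrderAt (fun z => w * refl G z) s = analyticOrderAt (refl G) s := by
    have h6 := analyticOrderAt_mul (f := fun _ : ℂ => w) (g := refl G) (z₀ := s)
      analyticAt_const hr
    rw [analyticAt_const.analyticOrderAt_eq_zero.mpr hw0, zero_add] at h6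
    exact h6
  rw [← hord _ (by rw [hrr]; linarith), ← hord s h0, analyticOrderAt_congr hev, h5,
    order_refl (hGa _ (by rw [hrr]; linarith))]

/-- the values of a character -/
lemma cm_char {q : ℕ} (χ : DirichletCharacter ℂ q) : CM (fun n => χ (n : ZMod q)) where
  one := by simp
  mul := fun m n => by simp
  le := fun n => χ.norm_le_one _

/-- **Everything about the twists of a newform** -/
theorem twists {N : ℕ} [NeZero N] {k : ℤ} (hk : 1 ≤ k)
    {f : CuspForm (Gamma0 N : Subgroup (GL (Fin 2) ℝ)) k} {ε : ℝ} (hf : IsNewf N k f ε) :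
    ∃ (A : ℝ) (F : (q : ℕ) → DirichletCharacter ℂ q → ℂ → ℂ), 1 ≤ A ∧
      (∀ (q : ℕ) (χ : DirichletCharacter ℂ q), Differentiable ℂ (F q χ)) ∧
      ∀ (q : ℕ) (χ : DirichletCharacter ℂ q), 1 ≤ q → Nat.Coprime q N → χ.IsPrimitive →
        (∀ s : ℂ, 1 < s.re → F q χ s ≠ 0) ∧
        (∀ s : ℂ, 1 < s.re →
          HasProd (fun p : Nat.Primes =>
            (1 - χ ((p : ℕ) : ZMod q) * (lamf f p : ℂ) * ((p : ℕ) : ℂ) ^ (-s) +
              (if (p : ℕ) ∣ N then 0 else
                χ ((p : ℕ) : ZMod q) ^ 2 * ((p : ℕ) : ℂ) ^ (-2 * s)))⁻¹) (F q χ s)) ∧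
        (∀ s : ℂ, 0 < s.re → s.re < 1 →
          analyticOrderAt (F q χ) (1 - (starRingEnd ℂ) s) = analyticOrderAt (F q χ) s) ∧
        ∀ Q T : ℝ, q ≤ Q → 1 ≤ T →
          GrL A T (2 * Real.log (Q * T)) 2 (af (lamf f) (heckeSeq_lamf hf).zero)
            (fun n => χ (n : ZMod q)) (F q χ) := by
  have hN : 0 < N := Nat.pos_of_ne_zero (NeZero.ne N)
  have hN1 : (1 : ℝ) ≤ N := by exact_mod_cast hN
  have hH := heckeSeq_lamf hf
  have hRS := W388.p_rs N k hk f ε hf
  obtain ⟨A1, hA1, d1, d2, d3⟩ := W388.p_dir N hN (lamf f) hH hRS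
  obtain ⟨A2, hA2, hfe⟩ := fe_bound hk hN1
  obtain ⟨A3, hA3, hgr⟩ := gr_bound hk hN1 hA1
  have hsum : ∀ (q : ℕ) [NeZero q] (χ : DirichletCharacter ℂ q) (s : ℂ), 1 < s.re →
      Summable (fun n : ℕ => ‖χ (n : ZMod q) * (lamf f n : ℂ) * (n : ℂ) ^ (-s)‖) := by
    intro q _ χ s hs
    exact (d3 q χ (fun s => ∑' n : ℕ, χ (n : ZMod q) * (lamf f n : ℂ) * (n : ℂ) ^ (-s))
      (fun _ _ => rfl)).1 s hs
  classical
  have hex : ∀ (q : ℕ) (χ : DirichletCharacter ℂ q), ∃ F : ℂ → ℂ, Differentiable ℂ F ∧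
      (1 ≤ q → Nat.Coprime q N → χ.IsPrimitive → FE2 k N q F ∧ ∀ s : ℂ, 1 < s.re →
      F s = ∑' n : ℕ, χ (n : ZMod q) * (lamf f n : ℂ) * (n : ℂ) ^ (-s)) := by
    intro q χ
    by_cases h : 1 ≤ q ∧ Nat.Coprime q N ∧ χ.IsPrimitive
    · obtain ⟨h1, h2, h3⟩ := h
      have : NeZero q := ⟨by omega⟩
      obtain ⟨F, hF⟩ := exists_twist Pool.Agent.W440.TW.t_twist Pool.Agent.W108.TW.t_mellin
        hk hf hsum q χ h3 h2
      exact ⟨F, hF.1.diff, fun _ _ _ => hF⟩
    · exact ⟨fun _ => 0, differentiable_const _, fun h1 h2 h3 => absurd ⟨h1, h2, h3⟩ h⟩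
  choose F hFd hF using hex
  refine ⟨max A1 (max A2 A3), F, le_max_of_le_left hA1, hFd, ?_⟩
  intro q χ hq hqN hχ
  have : NeZero q := ⟨by omega⟩
  have hq1 : (1 : ℝ) ≤ q := by exact_mod_cast hq
  obtain ⟨hfe2, hser⟩ := hF q χ hq hqN hχ
  obtain ⟨e1, e2, e3, e4, e5, e6⟩ := d3 q χ (F q χ) hser
  refine ⟨e2, e6, fun s h0 h1 => order_symm hk hN1 hq1 hfe2 h0 h1, ?_⟩
  intro Q T hQ hT
  have hQ0 : 0 < Q := by linarith
  have hT0 : 0 < T := by linarith
  have hQT : 0 < Q * T := by positivity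
  have hexp : Real.exp (2 * Real.log (Q * T)) = (Q * T) ^ 2 := by
    rw [mul_comm, Real.exp_mul, Real.exp_log hQT]
    norm_num
  have hyT : ∀ y : ℝ, 1 + |y| ≤ T * (1 + |y| / T) := by
    intro y
    rw [mul_add, mul_one, mul_div_cancel₀ _ hT0.ne']
    linarith
  have hqT : ∀ y : ℝ, q * (1 + |y|) ≤ (Q * T) * (1 + |y| / T) := by
    intro y
    calc q * (1 + |y|) ≤ Q * (T * (1 + |y| / T)) :=
          mul_le_mul hQ (hyT y) (by positivity) hQ0.le
      _ = _ := by ring
  have hA0 : 0 < max A1 (max A2 A3) := lt_max_of_lt_left (by linarith)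
  refine ⟨hfe2.diff, ?_, cm_char χ, ?_, ?_, ?_⟩
  · intro s hs
    rw [hser s (by linarith)]
    refine tsum_congr fun n => ?_
    rw [af_apply]
    rcases Nat.eq_zero_or_pos n with h0 | h0
    · subst h0
      rw [hH.zero]
      simp
    · rw [ex_cpow s h0.ne']
      ring
  · intro s hs
    refine (hgr q (F q χ) hq1 hfe2 e4 s hs).trans ?_
    rw [hexp, mul_assoc, ← mul_pow]
    have h3 : (q * (1 + |s.im|)) ^ 2 ≤ (Q * T * (1 + |s.im| / T)) ^ 2 :=
      pow_le_pow_left₀ (by positivity) (hqT _) 2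
    exact mul_le_mul ((le_max_right _ _).trans (le_max_right _ _)) h3 (by positivity) hA0.le
  · intro s hs
    exact (inv_anti₀ (by linarith) (le_max_left _ _)).trans (e5 s hs)
  · intro δ hδ0 hδ1 τ
    refine (hfe q (F q χ) hq1 hfe2 δ hδ0 hδ1 τ).trans ?_
    refine mul_le_mul_of_nonneg_right ?_ (norm_nonneg _)
    have h3 : Real.exp (2 * Real.log (Q * T) * δ) = (Q * T) ^ (2 * δ) := by
      rw [Real.rpow_def_of_pos hQT]
      congr 1
      ring
    have h4 : (q : ℝ) ^ (2 * δ) * (1 + |τ|) ^ (2 * δ) ≤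
        (Q * T) ^ (2 * δ) * (1 + |τ| / T) ^ (2 * δ) := by
      rw [← Real.mul_rpow (by linarith) (by positivity),
        ← Real.mul_rpow hQT.le (by positivity)]
      exact Real.rpow_le_rpow (by positivity) (hqT τ) (by linarith)
    rw [h3, mul_assoc, mul_assoc]
    push_cast
    exact mul_le_mul ((le_max_left _ _).trans (le_max_right _ _)) h4 (by positivity) hA0.le

end Pool.Agent.V8H15.DN
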