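import Pool.Agent.V8H15.DN.Den
import Pool.Agent.V8H15.DN.Twi
import Pool.Agent.V8H15.DN.Lsv2

/-!
# The density theorem for the family of twists of a newform

Project DN (helper15).
-/

set_option autoImplicit false

open Finset Filter Topology MeasureTheory ArithmeticFunction Complex UpperHalfPlane MatrixGroups
  CongruenceSubgroup

namespace Pool.Agent.V8H15.DN

open Pool.Agent.N786.D (Cutf cut_exists)
open W388 (IsNewf lamf heckeSeq_lamf cS)

/-- the zeros in the critical strip `0 < Re s < 1` at distance at least `δ` from the critical line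
with ordinate in `(t, t + V]` -/
def offz (F : ℂ → ℂ) (δ t V : ℝ) : Set ℂ :=
  {s : ℂ | 0 < s.re ∧ s.re < 1 ∧ δ ≤ |s.re - 1 / 2| ∧ t < s.im ∧ s.im ≤ t + V ∧ F s = 0}

/-- their number, with multiplicity -/
noncomputable def Noff (F : ℂ → ℂ) (δ t V : ℝ) : ℕ := ∑ᶠ s ∈ offz F δ t V, analyticOrderNatAt F s

/-- zeros in a box -/
lemma box_finite {F : ℂ → ℂ} (hF : Differentiable ℂ F) (h2 : F 2 ≠ 0) (t V : ℝ) :
    {s : ℂ | 0 ≤ s.re ∧ s.re ≤ 1 ∧ t ≤ s.im ∧ s.im ≤ t + V ∧ F s = 0}.Finite := by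
  by_contra hinf
  have hK : IsCompact (Set.Icc (0 : ℝ) 1 ×ℂ Set.Icc t (t + V)) := isCompact_Icc.reProdIm isCompact_Icc
  obtain ⟨z, hz, hacc⟩ := Set.Infinite.exists_accPt_of_subset_isCompact hinf hK (by
    intro s hs
    obtain ⟨h1, h2, h3, h4, _⟩ := hs
    rw [Complex.mem_reProdIm]
    exact ⟨⟨h1, h2⟩, ⟨h3, h4⟩⟩)
  have hfr : ∃ᶠ w in 𝓝[≠] z, F w = 0 := by
    rw [accPt_iff_frequently_nhdsNE] at hacc
    exact hacc.mono fun w hw => hw.2.2.2.2
  have hA : AnalyticOnNhd ℂ F Set.univ := fun w _ => hF.analyticAt w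
  have := hA.eqOn_zero_of_preconnected_of_frequently_eq_zero isPreconnected_univ (Set.mem_univ z)
    hfr (Set.mem_univ 2)
  exact h2 this

lemma offz_finite {F : ℂ → ℂ} (hF : Differentiable ℂ F) (h2 : F 2 ≠ 0) (δ t V : ℝ) :
    (offz F δ t V).Finite := by
  refine (box_finite hF h2 t V).subset ?_
  rintro s ⟨h1, h2, _, h4, h5, h6⟩
  exact ⟨h1.le, h2.le, h4.le, h5, h6⟩

open Classical in
/-- the number of zeros at distance `≥ δ` is at most twice the number of those to the right -/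
lemma Noff_le {F : ℂ → ℂ} (hF : Differentiable ℂ F) (h2 : F 2 ≠ 0)
    (hsym : ∀ s : ℂ, 0 < s.re → s.re < 1 →
      analyticOrderAt F (1 - (starRingEnd ℂ) s) = analyticOrderAt F s) (δ t V : ℝ) :
    (Noff F δ t V : ℝ) ≤ 2 * ∑ z ∈ (box_finite hF h2 t V).toFinset.filter
      (fun z => 1 / 2 + δ ≤ z.re), (analyticOrderNatAt F z : ℝ) := by
  obtain ⟨B, hB⟩ : ∃ B : Finset ℂ, B = (box_finite hF h2 t V).toFinset := ⟨_, rfl⟩
  have hmB : ∀ z, z ∈ B ↔ 0 ≤ z.re ∧ z.re ≤ 1 ∧ t ≤ z.im ∧ z.im ≤ t + V ∧ F z = 0 := by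
    intro z
    rw [hB, Set.Finite.mem_toFinset]
    rfl
  rw [← hB]
  unfold Noff
  rw [finsum_mem_eq_finite_toFinset_sum _ (offz_finite hF h2 δ t V)]
  push_cast
  obtain ⟨O, hO⟩ : ∃ O : Finset ℂ, O = (offz_finite hF h2 δ t V).toFinset := ⟨_, rfl⟩
  have hmO : ∀ z, z ∈ O ↔ 0 < z.re ∧ z.re < 1 ∧ δ ≤ |z.re - 1 / 2| ∧ t < z.im ∧ z.im ≤ t + V ∧
      F z = 0 := by
    intro z
    rw [hO, Set.Finite.mem_toFinset]
    rfl
  rw [← hO]
  have hsplit : ∑ z ∈ O, (analyticOrderNatAt F z : ℝ) ≤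
      ∑ z ∈ O.filter (fun z => 1 / 2 + δ ≤ z.re), (analyticOrderNatAt F z : ℝ) +
      ∑ z ∈ O.filter (fun z => z.re ≤ 1 / 2 - δ), (analyticOrderNatAt F z : ℝ) := by
    rw [← sum_filter_add_sum_filter_not O (fun z => 1 / 2 + δ ≤ z.re)]
    refine add_le_add le_rfl (sum_le_sum_of_subset_of_nonneg ?_ fun _ _ _ => Nat.cast_nonneg _)
    intro z hz
    rw [mem_filter] at hz ⊢
    refine ⟨hz.1, ?_⟩
    obtain ⟨_, _, h3, _⟩ := (hmO z).mp hz.1
    rcases le_abs.mp h3 with h | h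
    · exact absurd (by linarith) hz.2
    · linarith
  have h1 : ∑ z ∈ O.filter (fun z => 1 / 2 + δ ≤ z.re), (analyticOrderNatAt F z : ℝ) ≤
      ∑ z ∈ B.filter (fun z => 1 / 2 + δ ≤ z.re), (analyticOrderNatAt F z : ℝ) := by
    refine sum_le_sum_of_subset_of_nonneg ?_ fun _ _ _ => Nat.cast_nonneg _
    intro z hz
    rw [mem_filter] at hz ⊢
    obtain ⟨a1, a2, _, a4, a5, a6⟩ := (hmO z).mp hz.1
    exact ⟨(hmB z).mpr ⟨a1.le, a2.le, a4.le, a5, a6⟩, hz.2⟩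
  have h3 : ∑ z ∈ O.filter (fun z => z.re ≤ 1 / 2 - δ), (analyticOrderNatAt F z : ℝ) ≤
      ∑ z ∈ B.filter (fun z => 1 / 2 + δ ≤ z.re), (analyticOrderNatAt F z : ℝ) := by
    obtain ⟨rf, hrf⟩ : ∃ rf : ℂ → ℂ, ∀ z, rf z = 1 - (starRingEnd ℂ) z := ⟨_, fun z => rfl⟩
    have hre : ∀ z, (rf z).re = 1 - z.re := fun z => by rw [hrf]; simp
    have him : ∀ z, (rf z).im = z.im := fun z => by rw [hrf]; simp
    have hinj : Set.InjOn rf (O.filter (fun z => z.re ≤ 1 / 2 - δ) : Set ℂ) := by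
      intro z _ w _ hzw
      have e1 := hre z
      have e2 := him z
      rw [hzw, hre] at e1
      rw [hzw, him] at e2
      exact Complex.ext (by linarith) e2.symm
    have hord : ∀ z ∈ O.filter (fun z => z.re ≤ 1 / 2 - δ),
        (analyticOrderNatAt F z : ℝ) = (analyticOrderNatAt F (rf z) : ℝ) := by
      intro z hz
      rw [mem_filter] at hz
      obtain ⟨a1, a2, _⟩ := (hmO z).mp hz.1
      have h5 := hsym z a1 a2
      unfold analyticOrderNatAt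
      rw [hrf, h5]
    rw [sum_congr rfl hord, ← sum_image (f := fun z => (analyticOrderNatAt F z : ℝ)) hinj]
    refine sum_le_sum_of_subset_of_nonneg ?_ fun _ _ _ => Nat.cast_nonneg _
    intro w hw
    obtain ⟨z, hz, rfl⟩ := mem_image.mp hw
    rw [mem_filter] at hz ⊢
    obtain ⟨a1, a2, _, a4, a5, a6⟩ := (hmO z).mp hz.1
    have hzero : F (rf z) = 0 := by
      have h5 := hsym z a1 a2
      have h6 : analyticOrderAt F z ≠ 0 :=
        (hF.analyticAt z).analyticOrderAt_ne_zero.mpr a6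
      rw [← h5, ← hrf] at h6
      exact apply_eq_zero_of_analyticOrderAt_ne_zero h6
    refine ⟨(hmB _).mpr ⟨?_, ?_, ?_, ?_, hzero⟩, ?_⟩
    · rw [hre]; linarith
    · rw [hre]; linarith
    · rw [him]; exact a4.le
    · rw [him]; exact a5
    · rw [hre]; linarith [hz.2]
  linarith

open Classical in
/-- the sum over the family -/
noncomputable def fam (N Q : ℕ) (g : (q : ℕ) → DirichletCharacter ℂ q → ℕ) : ℝ :=
  ∑ q ∈ (Icc 1 Q).filter (fun q => Nat.Coprime q N),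
    ∑ χ ∈ (univ : Finset (DirichletCharacter ℂ q)).filter (fun χ => χ.IsPrimitive), (g q χ : ℝ)

lemma LSP.mono {ι : Type} {S : Finset ι} {g : ι → ℕ → ℂ} {H P P' : ℝ} {M : ℕ}
    (h : LSP S g H P M) (hP : P ≤ P') : LSP S g H P' M := by
  intro u t₁
  exact (h u t₁).trans (mul_le_mul_of_nonneg_right hP (sum_nonneg fun _ _ => by positivity))

/-- **The density theorem for the family of twists of a newform** -/
theorem family {N : ℕ} [NeZero N] {k : ℤ} (hk : 1 ≤ k)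
    {f : CuspForm (Gamma0 N : Subgroup (GL (Fin 2) ℝ)) k} {ε : ℝ} (hf : IsNewf N k f ε) :
    ∃ F : (q : ℕ) → DirichletCharacter ℂ q → ℂ → ℂ,
      (∀ (q : ℕ) (χ : DirichletCharacter ℂ q), 1 ≤ q → Nat.Coprime q N → χ.IsPrimitive →
        Differentiable ℂ (F q χ) ∧ ∀ s : ℂ, 1 < s.re →
          HasProd (fun p : Nat.Primes =>
            (1 - χ ((p : ℕ) : ZMod q) * (lamf f p : ℂ) * ((p : ℕ) : ℂ) ^ (-s) +
              (if (p : ℕ) ∣ N then 0 else
                χ ((p : ℕ) : ZMod q) ^ 2 * ((p : ℕ) : ℂ) ^ (-2 * s)))⁻¹) (F q χ s)) ∧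
      ∀ h c : ℝ, 1 / 2 < h → h ≤ 1 → 0 ≤ c → c < 2 * h - 1 →
        ∃ A X₀ : ℝ, 0 ≤ A ∧ 2 ≤ X₀ ∧ ∀ (Q : ℕ) (T V : ℝ), 1 ≤ Q → 1 ≤ T → X₀ ≤ Q * T →
          1 ≤ V * Real.log (Q * T) → V ≤ T → ((Q * T) ^ 2) ^ h ≤ (Q : ℝ) ^ 2 * max 1 V →
          ∀ t : ℝ, |t| ≤ T → ∀ δ : ℝ, 0 ≤ δ →
            fam N Q (fun q χ => Noff (F q χ) δ t V) ≤
              A * ((Q : ℝ) ^ 2 * V * Real.log (Q * T) * (Q * T) ^ (-(2 * c * δ))) := by
  classical
  have hN : 0 < N := Nat.pos_of_ne_zero (NeZero.ne N)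
  have hH := heckeSeq_lamf hf
  have hRS := W388.p_rs N k hk f ε hf
  obtain ⟨A, F, hA, hFd, htw⟩ := twists hk hf
  obtain ⟨C, hC⟩ := hb_of_sel (W388.p_sel N hN (lamf f) hH hRS).1
  obtain ⟨Z, hZ⟩ := ac_of hN hH hRS
  obtain ⟨Z', hZ'⟩ := ac_inv_of hN hH hRS
  obtain ⟨CL, hCL, hlong⟩ := lsp_long
  refine ⟨F, fun q χ h1 h2 h3 => ⟨hFd q χ, (htw q χ h1 h2 h3).2.1⟩, ?_⟩
  intro h c hh1 hh2 hc0 hc
  obtain ⟨e, he⟩ : ∃ e : ℝ, e = (h - 1 / 2 - c / 2) / 10 := ⟨_, rfl⟩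
  have he0 : 0 < e := by rw [he]; linarith
  obtain ⟨φ, hφ⟩ := cut_exists (a := 1 / 2 + 2 * e) (b := 1 / 2 + 3 * e) (by linarith) (by linarith)
  obtain ⟨θ, hθ⟩ := cut_exists (a := c / 2 + 2 * e) (b := c / 2 + 3 * e) (by linarith) (by linarith)
  obtain ⟨D, R₀, hD, hR₀, hdens⟩ := dens_loc (α' := 1 / 2 + e) (β' := c / 2 + e) (ld_of hH) hC hZ hZ'
    hφ hθ (by linarith) (by linarith) (by linarith) (by linarith) (by linarith) (by linarith)
    (by linarith) hA 2 (by norm_num)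
  obtain ⟨K, hK⟩ : ∃ K : ℝ, K = 12 + CL * (3 + 1 / (2 * e)) := ⟨_, rfl⟩
  have hK12 : 12 ≤ K := by
    rw [hK]
    have : 0 ≤ CL * (3 + 1 / (2 * e)) := by positivity
    linarith
  refine ⟨4 * D * K, max 2 (Real.exp R₀), by positivity, le_max_left _ _, ?_⟩
  intro Q T V hQ hT hX hVl hVT hlen t ht δ hδ
  have hQ1 : (1 : ℝ) ≤ Q := by exact_mod_cast hQ
  have hQT2 : 2 ≤ Q * T := (le_max_left _ _).trans hX
  have hQT0 : 0 < Q * T := by linarith
  have hlog0 : 0 < Real.log (Q * T) := Real.log_pos (by linarith)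
  have hlogR : R₀ ≤ Real.log (Q * T) := by
    rw [Real.le_log_iff_exp_le hQT0]
    exact (le_max_right _ _).trans hX
  obtain ⟨R, hR⟩ : ∃ R : ℝ, R = 2 * Real.log (Q * T) := ⟨_, rfl⟩
  have hRR : R₀ ≤ R := by rw [hR]; linarith
  have hR1 : 1 ≤ R := hR₀.trans hRR
  have hR0 : 0 < R := by linarith
  have hV0 : 0 < V := by
    by_contra hcon
    push Not at hcon
    nlinarith
  have hexpR : Real.exp R = (Q * T) ^ 2 := by
    rw [hR, mul_comm, Real.exp_mul, Real.exp_log hQT0]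
    norm_num
  have hQ20 : 0 < (Q : ℝ) ^ 2 := by positivity
  have hQ21 : 1 ≤ (Q : ℝ) ^ 2 := one_le_pow₀ hQ1
  -- the length
  obtain ⟨M, hM⟩ : ∃ M : ℕ, M = ⌊Real.exp ((1 / 2 + 3 * e) * R)⌋₊ *
    ⌊Real.exp ((c / 2 + 3 * e) * R)⌋₊ := ⟨_, rfl⟩
  have hM1 : (M : ℝ) ≤ Real.exp (-(4 * e * R)) * ((Q : ℝ) ^ 2 * max 1 V) := by
    rw [hM]
    push_cast
    have h1 := Nat.floor_le (Real.exp_pos ((1 / 2 + 3 * e) * R)).le
    have h2 := Nat.floor_le (Real.exp_pos ((c / 2 + 3 * e) * R)).le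
    refine (mul_le_mul h1 h2 (Nat.cast_nonneg _) (Real.exp_pos _).le).trans ?_
    rw [← Real.exp_add]
    have h3 : (1 / 2 + 3 * e) * R + (c / 2 + 3 * e) * R = -(4 * e * R) + R * h := by
      rw [he]; ring
    rw [h3, Real.exp_add, Real.exp_mul, hexpR]
    exact mul_le_mul_of_nonneg_left hlen (Real.exp_pos _).le
  have hM2 : (M : ℝ) ≤ Real.exp R := by
    rw [hM]
    push_cast
    have h1 := Nat.floor_le (Real.exp_pos ((1 / 2 + 3 * e) * R)).le
    have h2 := Nat.floor_le (Real.exp_pos ((c / 2 + 3 * e) * R)).le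
    refine (mul_le_mul h1 h2 (Nat.cast_nonneg _) (Real.exp_pos _).le).trans ?_
    rw [← Real.exp_add]
    refine Real.exp_le_exp.mpr ?_
    have h3 : (1 / 2 + 3 * e) + (c / 2 + 3 * e) ≤ 1 := by rw [he]; linarith
    nlinarith
  have hexple : Real.exp (-(4 * e * R)) ≤ 1 := by
    rw [Real.exp_le_one_iff]
    have : 0 ≤ 4 * e * R := by positivity
    linarith
  have hls : LSP (idx N Q) gv V (K * ((Q : ℝ) ^ 2 * V)) M := by
    rcases le_or_gt V 1 with hV1 | hV1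
    · refine (lsp_short N Q M hV0.le).mono ?_
      rw [max_eq_left hV1, mul_one] at hM1
      have h1 : (M : ℝ) ≤ (Q : ℝ) ^ 2 := by
        refine hM1.trans ?_
        exact mul_le_of_le_one_left hQ20.le hexple
      have h2 : 6 * ((M : ℝ) + (Q : ℝ) ^ 2) ≤ 12 * (Q : ℝ) ^ 2 := by linarith
      calc 6 * ((M : ℝ) + (Q : ℝ) ^ 2) * V ≤ 12 * (Q : ℝ) ^ 2 * V :=
            mul_le_mul_of_nonneg_right h2 hV0.le
        _ = 12 * ((Q : ℝ) ^ 2 * V) := by ring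
        _ ≤ K * ((Q : ℝ) ^ 2 * V) := mul_le_mul_of_nonneg_right hK12 (by positivity)
    · obtain ⟨ρ, hρ⟩ : ∃ ρ : ℝ, ρ = 2 * √R / V := ⟨_, rfl⟩
      have hsR : 0 < √R := Real.sqrt_pos.mpr hR0
      have hρ0 : 0 < ρ := by rw [hρ]; positivity
      refine (hlong N Q M V ρ hV0 hρ0).mono ?_
      rw [max_eq_right hV1.le] at hM1
      have e1 : -(V * ρ) ^ 2 / 2 = -(2 * R) := by
        rw [hρ, mul_div_cancel₀ _ hV0.ne', mul_pow, Real.sq_sqrt hR0.le]
        ring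
      rw [e1]
      have h1 : (M : ℝ) * Real.exp (-(2 * R)) ≤ 1 := by
        calc (M : ℝ) * Real.exp (-(2 * R)) ≤ Real.exp R * Real.exp (-(2 * R)) :=
              mul_le_mul_of_nonneg_right hM2 (Real.exp_pos _).le
          _ = Real.exp (-R) := by rw [← Real.exp_add]; congr 1; ring
          _ ≤ 1 := by rw [Real.exp_le_one_iff]; linarith
      have h2 : √R * Real.exp (-(4 * e * R)) ≤ 1 / (4 * e) := by
        have h3 : √R ≤ R := by
          rw [Real.sqrt_le_left (by linarith)]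
          nlinarith
        have h4 : 4 * e * R ≤ Real.exp (4 * e * R) := by
          have := Real.add_one_le_exp (4 * e * R)
          linarith
        have h5 : R ≤ Real.exp (4 * e * R) / (4 * e) := by
          rw [le_div_iff₀ (by positivity)]
          linarith
        calc √R * Real.exp (-(4 * e * R)) ≤
            (Real.exp (4 * e * R) / (4 * e)) * Real.exp (-(4 * e * R)) :=
              mul_le_mul_of_nonneg_right (h3.trans h5) (Real.exp_pos _).le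
          _ = 1 / (4 * e) := by
              rw [div_mul_eq_mul_div, ← Real.exp_add, add_neg_cancel, Real.exp_zero]
      have h3 : ρ * M ≤ 1 / (2 * e) * (Q : ℝ) ^ 2 := by
        calc ρ * M ≤ ρ * (Real.exp (-(4 * e * R)) * ((Q : ℝ) ^ 2 * V)) :=
              mul_le_mul_of_nonneg_left hM1 hρ0.le
          _ = 2 * (√R * Real.exp (-(4 * e * R))) * (Q : ℝ) ^ 2 := by
              rw [hρ]; field_simp
          _ ≤ 2 * (1 / (4 * e)) * (Q : ℝ) ^ 2 := by gcongr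
          _ = _ := by field_simp; ring
      have h4 : (Q : ℝ) ^ 2 * M * Real.exp (-(2 * R)) ≤ (Q : ℝ) ^ 2 := by
        rw [mul_assoc]
        exact mul_le_of_le_one_right hQ20.le h1
      calc V * (CL * ((Q : ℝ) ^ 2 + 1 + ρ * M + (Q : ℝ) ^ 2 * M * Real.exp (-(2 * R)))) ≤
          V * (CL * ((Q : ℝ) ^ 2 + (Q : ℝ) ^ 2 + 1 / (2 * e) * (Q : ℝ) ^ 2 + (Q : ℝ) ^ 2)) := by
            gcongr
        _ = (CL * (3 + 1 / (2 * e))) * ((Q : ℝ) ^ 2 * V) := by ring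
        _ ≤ K * ((Q : ℝ) ^ 2 * V) := by
            refine mul_le_mul_of_nonneg_right ?_ (by positivity)
            rw [hK]
            linarith
  -- the density theorem
  have h2ne : ∀ i ∈ idx N Q, F i.1 i.2 2 ≠ 0 := by
    intro i hi
    obtain ⟨a1, a2, a3⟩ := mem_idx.mp hi
    exact (htw i.1 i.2 a1.1 a2 a3).1 2 (by norm_num)
  obtain ⟨Zs, hZs⟩ : ∃ Zs : (Σ q : ℕ, DirichletCharacter ℂ q) → Finset ℂ,
      ∀ (i : Σ q : ℕ, DirichletCharacter ℂ q) (h2 : F i.1 i.2 2 ≠ 0), Zs i = (box_finite (hFd i.1 i.2) h2 t V).toFinset.filter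
        (fun z => 1 / 2 + δ ≤ z.re) := by
    refine ⟨fun i => if h2 : F i.1 i.2 2 ≠ 0 then
      (box_finite (hFd i.1 i.2) h2 t V).toFinset.filter (fun z => 1 / 2 + δ ≤ z.re) else ∅, ?_⟩
    intro i h2
    simp only
    rw [dif_pos h2]
  have hmain := hdens R T V (K * ((Q : ℝ) ^ 2 * V)) (idx N Q) gv (fun i => F i.1 i.2) hRR hT (by
      rw [div_le_iff₀ hR0, hR]
      nlinarith) hVT (by
      have h1 := idx_card N Q
      have h2 : ((idx N Q).card : ℝ) * V ≤ (Q : ℝ) ^ 2 * V := mul_le_mul_of_nonneg_right h1 hV0.le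
      have h3 : 0 ≤ (Q : ℝ) ^ 2 * V := by positivity
      nlinarith) (by rw [← hM]; exact hls) (fun i => hFd i.1 i.2) (by
      intro i hi
      obtain ⟨a1, a2, a3⟩ := mem_idx.mp hi
      rw [hR]
      exact (htw i.1 i.2 a1.1 a2 a3).2.2.2 Q T (by exact_mod_cast a1.2) hT) (by
      intro i hi
      obtain ⟨a1, a2, a3⟩ := mem_idx.mp hi
      exact (htw i.1 i.2 a1.1 a2 a3).1) t ht δ hδ Zs (by
      intro i hi z hz
      rw [hZs i (h2ne i hi), mem_filter, Set.Finite.mem_toFinset] at hz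
      obtain ⟨⟨b1, b2, b3, b4, b5⟩, b6⟩ := hz
      exact ⟨b6, b3, b4⟩)
  have hfam : fam N Q (fun q χ => Noff (F q χ) δ t V) ≤
      2 * ∑ i ∈ idx N Q, ∑ z ∈ Zs i, (analyticOrderNatAt (F i.1 i.2) z : ℝ) := by
    have h1 : fam N Q (fun q χ => Noff (F q χ) δ t V) =
        ∑ i ∈ idx N Q, (Noff (F i.1 i.2) δ t V : ℝ) := by
      unfold fam idx
      rw [sum_sigma]
    rw [h1, mul_sum]
    refine sum_le_sum fun i hi => ?_
    obtain ⟨a1, a2, a3⟩ := mem_idx.mp hi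
    rw [hZs i (h2ne i hi)]
    exact Noff_le (hFd i.1 i.2) (h2ne i hi) (htw i.1 i.2 a1.1 a2 a3).2.2.1 δ t V
  refine hfam.trans ?_
  have hexp2 : Real.exp (-(2 * (c / 2 + e) * R * δ)) ≤ (Q * T) ^ (-(2 * c * δ)) := by
    rw [Real.rpow_def_of_pos hQT0]
    refine Real.exp_le_exp.mpr ?_
    rw [hR]
    have : 0 ≤ e * Real.log (Q * T) * δ := by positivity
    nlinarith
  have hQTp : 0 ≤ (Q * T : ℝ) ^ (-(2 * c * δ)) := by positivity
  calc 2 * ∑ i ∈ idx N Q, ∑ z ∈ Zs i, (analyticOrderNatAt (F i.1 i.2) z : ℝ) ≤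
      2 * (D * ((K * ((Q : ℝ) ^ 2 * V)) * R * Real.exp (-(2 * (c / 2 + e) * R * δ)))) :=
        mul_le_mul_of_nonneg_left hmain (by norm_num)
    _ ≤ 2 * (D * ((K * ((Q : ℝ) ^ 2 * V)) * R * (Q * T) ^ (-(2 * c * δ)))) := by gcongr
    _ = _ := by rw [hR]; ring

end Pool.Agent.V8H15.DN
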