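import Pool.Agent.V8H15.DN.Asm
import Pool.Agent.V8H15.DN.Coe

/-!
# The functional equation of the twists across the critical line

Project DN (helper15); follows N786.D.Gra.
-/

set_option autoImplicit false

open Complex Filter Topology MeasureTheory Set

namespace Pool.Agent.V8H15.DN

open Pool.Agent.R399.TW (pt pt_re pt_im pt_cont)
open W388 (GG FE2)
open Pool.Agent.W820.TW (digamma_strip HH HH_bound)

/-- growth from the logarithmic derivative -/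
lemma ratio_of_logDeriv {f : ℂ → ℂ} {y a b B : ℝ} (hab : a ≤ b)
    (hf : ∀ x ∈ Icc a b, DifferentiableAt ℂ f (x + y * I) ∧ f (x + y * I) ≠ 0)
    (hB : ∀ x ∈ Icc a b, (logDeriv f (x + y * I)).re ≤ B) :
    ‖f (b + y * I)‖ ≤ Real.exp (B * (b - a)) * ‖f (a + y * I)‖ := by
  set g : ℝ → ℝ := fun x => Real.log (‖f (x + y * I)‖ ^ 2) - 2 * B * x with hg
  have hne : ∀ x ∈ Icc a b, ‖f (x + y * I)‖ ^ 2 ≠ 0 := fun x hx => by
    have := (hf x hx).2
    positivity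
  have hder : ∀ x ∈ Icc a b, HasDerivAt g (2 * (logDeriv f (x + y * I)).re - 2 * B) x := by
    intro x hx
    have h1 : HasDerivAt (fun x : ℝ => ((x : ℂ) + y * I)) 1 x :=
      (Complex.ofRealCLM.hasDerivAt (x := x)).add_const _
    have h2 : HasDerivAt (fun x : ℝ => f (x + y * I)) (deriv f (x + y * I) * 1) x :=
      (hf x hx).1.hasDerivAt.comp_of_eq x h1 rfl
    rw [mul_one] at h2
    have h3 := h2.norm_sq
    have h4 := (h3.log (hne x hx)).sub ((hasDerivAt_id x).const_mul (2 * B))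
    refine h4.congr_deriv ?_
    rw [mul_one]
    congr 1
    rw [logDeriv_apply, Complex.inner]
    obtain ⟨w, hw⟩ : ∃ w : ℂ, w = f (x + y * I) := ⟨_, rfl⟩
    obtain ⟨d, hd⟩ : ∃ d : ℂ, d = deriv f (x + y * I) := ⟨_, rfl⟩
    have hw0 : w ≠ 0 := by rw [hw]; exact (hf x hx).2
    rw [← hw, ← hd]
    rw [Complex.div_re, ← Complex.normSq_eq_norm_sq]
    have hn0 : Complex.normSq w ≠ 0 := by
      rw [Ne, Complex.normSq_eq_zero]; exact hw0
    simp only [Complex.mul_re, Complex.conj_re, Complex.conj_im]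
    field_simp
    ring
  have hanti : AntitoneOn g (Icc a b) := by
    refine antitoneOn_of_deriv_nonpos (convex_Icc a b) ?_ ?_ ?_
    · exact fun x hx => (hder x hx).continuousAt.continuousWithinAt
    · rw [interior_Icc]
      exact fun x hx => (hder x ⟨hx.1.le, hx.2.le⟩).differentiableAt.differentiableWithinAt
    · rw [interior_Icc]
      intro x hx
      rw [(hder x ⟨hx.1.le, hx.2.le⟩).deriv]
      linarith [hB x ⟨hx.1.le, hx.2.le⟩]
  have h5 := hanti (left_mem_Icc.mpr hab) (right_mem_Icc.mpr hab) hab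
  simp only [hg] at h5
  have ha0 : 0 < ‖f (a + y * I)‖ := norm_pos_iff.mpr (hf a (left_mem_Icc.mpr hab)).2
  have hb0 : 0 < ‖f (b + y * I)‖ := norm_pos_iff.mpr (hf b (right_mem_Icc.mpr hab)).2
  rw [Real.log_pow, Real.log_pow] at h5
  push_cast at h5
  rw [← Real.log_le_log_iff hb0 (by positivity), Real.log_mul (Real.exp_pos _).ne' ha0.ne',
    Real.log_exp]
  linarith

lemma Gamma_diffAt {s : ℂ} (hs : 0 < s.re) : DifferentiableAt ℂ Gamma s := by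
  refine Complex.differentiableAt_Gamma s fun m h => ?_
  rw [h] at hs
  simp at hs
  have : (0 : ℝ) ≤ m := Nat.cast_nonneg m
  linarith

/-- the ratio of values of `Γ` -/
lemma gam_ratio {x₀ : ℝ} (hx₀ : 1 / 2 ≤ x₀) : ∃ c : ℝ, 1 ≤ c ∧ ∀ δ : ℝ, 0 < δ → δ ≤ 1 / 4 →
    ∀ y : ℝ, ‖Gamma (((x₀ + δ : ℝ) : ℂ) + y * I)‖ ≤
      c * (1 + |y|) ^ (2 * δ) * ‖Gamma (((x₀ - δ : ℝ) : ℂ) + y * I)‖ := by
  obtain ⟨C, hC0, hC⟩ := digamma_strip (x₀ + 1 / 4)
  have hre : ∀ x y : ℝ, ((x : ℂ) + y * I).re = x := fun x y => by simp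
  have him : ∀ x y : ℝ, ((x : ℂ) + y * I).im = y := fun x y => by simp
  -- small ordinates
  have hcont : ContinuousOn (fun q : ℝ × ℝ => ‖Gamma ((q.1 : ℂ) + q.2 * I)‖)
      (Icc (1 / 4) (x₀ + 1 / 4) ×ˢ Icc (-1) 1) := by
    intro q hq
    have h1 : 0 < ((q.1 : ℂ) + q.2 * I).re := by
      rw [hre]
      linarith [hq.1.1]
    have h2 := Gamma_diffAt h1
    have h3 : ContinuousAt (fun q : ℝ × ℝ => Gamma ((q.1 : ℂ) + q.2 * I)) q :=
      ContinuousAt.comp (f := fun q : ℝ × ℝ => ((q.1 : ℂ) + q.2 * I)) (g := Gamma)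
        h2.continuousAt (by fun_prop)
    exact h3.norm.continuousWithinAt
  have hK : IsCompact (Icc (1 / 4 : ℝ) (x₀ + 1 / 4) ×ˢ Icc (-1 : ℝ) 1) :=
    isCompact_Icc.prod isCompact_Icc
  obtain ⟨M, hM⟩ := hK.exists_bound_of_continuousOn hcont
  obtain ⟨q₀, hq₀, hmin⟩ := hK.exists_isMinOn
    ⟨(1 / 2, 0), ⟨⟨by norm_num, by simp only; linarith⟩, ⟨by norm_num, by norm_num⟩⟩⟩ hcont
  obtain ⟨m, hm⟩ : ∃ m : ℝ, m = ‖Gamma ((q₀.1 : ℂ) + q₀.2 * I)‖ := ⟨_, rfl⟩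
  have hm0 : 0 < m := by
    rw [hm]
    refine norm_pos_iff.mpr (Complex.Gamma_ne_zero_of_re_pos ?_)
    rw [hre]
    linarith [hq₀.1.1]
  refine ⟨max (max 1 (M / m)) (Real.exp C), le_max_of_le_left (le_max_left _ _), ?_⟩
  intro δ hδ0 hδ1 y
  have h1y : 1 ≤ (1 + |y|) ^ (2 * δ) :=
    Real.one_le_rpow (by linarith [abs_nonneg y]) (by linarith)
  rcases le_total |y| 1 with hy | hy
  · have hy' := abs_le.mp hy
    have m1 : ((x₀ + δ, y) : ℝ × ℝ) ∈ Icc (1 / 4 : ℝ) (x₀ + 1 / 4) ×ˢ Icc (-1 : ℝ) 1 :=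
      ⟨⟨by simp only; linarith, by simp only; linarith⟩, ⟨hy'.1, hy'.2⟩⟩
    have m2 : ((x₀ - δ, y) : ℝ × ℝ) ∈ Icc (1 / 4 : ℝ) (x₀ + 1 / 4) ×ˢ Icc (-1 : ℝ) 1 :=
      ⟨⟨by simp only; linarith, by simp only; linarith⟩, ⟨hy'.1, hy'.2⟩⟩
    have b1 := hM _ m1
    have b2 := hmin m2
    simp only [norm_norm, mem_setOf_eq] at b1 b2
    rw [← hm] at b2
    have b3 : M ≤ M / m * ‖Gamma (((x₀ - δ : ℝ) : ℂ) + y * I)‖ := by
      have hM0 : 0 ≤ M := le_trans (norm_nonneg _) b1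
      calc M = M / m * m := by field_simp
        _ ≤ _ := mul_le_mul_of_nonneg_left b2 (by positivity)
    refine (b1.trans b3).trans ?_
    refine mul_le_mul_of_nonneg_right ?_ (norm_nonneg _)
    refine le_trans ?_ (le_mul_of_one_le_right (by positivity) h1y)
    exact le_max_of_le_left (le_max_right _ _)
  · have hB : ∀ x ∈ Icc (x₀ - δ) (x₀ + δ), (logDeriv Gamma ((x : ℂ) + y * I)).re ≤
        Real.log |y| + C := by
      intro x hx
      have h1 := hC ((x : ℂ) + y * I) (by rw [hre]; linarith [hx.1]) (by rw [hre]; linarith [hx.2])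
        (by rw [him]; exact hy)
      rw [him] at h1
      have h2 := (Complex.re_le_norm _).trans h1
      rw [Complex.sub_re, Complex.ofReal_re] at h2
      linarith
    have h3 := ratio_of_logDeriv (f := Gamma) (y := y) (a := x₀ - δ)
      (b := x₀ + δ) (by linarith) (fun x hx => by
        have h4 : 0 < ((x : ℂ) + y * I).re := by rw [hre]; linarith [hx.1]
        exact ⟨Gamma_diffAt h4, Complex.Gamma_ne_zero_of_re_pos h4⟩) hB
    refine h3.trans (mul_le_mul_of_nonneg_right ?_ (norm_nonneg _))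
    have e2 : (Real.log |y| + C) * (x₀ + δ - (x₀ - δ)) =
        Real.log |y| * (2 * δ) + C * (2 * δ) := by ring
    rw [e2, Real.exp_add, ← Real.rpow_def_of_pos (by linarith)]
    have e3 : |y| ^ (2 * δ) ≤ (1 + |y|) ^ (2 * δ) :=
      Real.rpow_le_rpow (abs_nonneg y) (by linarith) (by linarith)
    have e4 : Real.exp (C * (2 * δ)) ≤ max (max 1 (M / m)) (Real.exp C) := by
      refine le_max_of_le_right (Real.exp_le_exp.mpr ?_)
      nlinarith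
    rw [mul_comm]
    exact mul_le_mul e4 e3 (by positivity) (le_trans (Real.exp_pos _).le e4)

/-- **the functional equation, in absolute value** -/
theorem fe_bound {k : ℤ} (hk : 1 ≤ k) {N : ℝ} (hN : 1 ≤ N) : ∃ c : ℝ, 1 ≤ c ∧
    ∀ (q : ℝ) (F : ℂ → ℂ), 1 ≤ q → FE2 k N q F → ∀ δ : ℝ, 0 < δ → δ ≤ 1 / 4 → ∀ τ : ℝ,
      ‖F (pt (1 / 2 - δ) τ)‖ ≤
        c * q ^ (2 * δ) * (1 + |τ|) ^ (2 * δ) * ‖F (pt (1 / 2 + δ) τ)‖ := by
  obtain ⟨x₀, hx₀⟩ : ∃ x₀ : ℝ, x₀ = 1 / 2 + ((k : ℝ) - 1) / 2 := ⟨_, rfl⟩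
  have hk1 : (1 : ℝ) ≤ k := by exact_mod_cast hk
  have hx2 : 1 / 2 ≤ x₀ := by rw [hx₀]; linarith
  obtain ⟨c, hc1, hc⟩ := gam_ratio hx2
  refine ⟨c * N, one_le_mul_of_one_le_of_one_le hc1 hN, ?_⟩
  intro q F hq hF δ hδ0 hδ1
  have hpi := Real.pi_pos
  have hsN : 1 ≤ Real.sqrt N := Real.one_le_sqrt.mpr hN
  have hsN2 : Real.sqrt N ≤ N := by
    have := Real.sq_sqrt (by linarith : (0 : ℝ) ≤ N)
    nlinarith
  obtain ⟨κ, hκ⟩ : ∃ κ : ℝ, κ = Real.sqrt N * q / (2 * Real.pi) := ⟨_, rfl⟩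
  have hκ0 : 0 < κ := by rw [hκ]; positivity
  have hκq : κ ≤ N * q := by
    rw [hκ, div_le_iff₀ (by positivity)]
    have h1 : Real.sqrt N * q ≤ N * q := mul_le_mul_of_nonneg_right hsN2 (by linarith)
    have h2 : (1 : ℝ) ≤ 2 * Real.pi := by linarith [Real.pi_gt_three]
    have h3 : 0 ≤ N * q := by positivity
    nlinarith
  have hnG : ∀ (x τ : ℝ), ‖GG k N q (pt x τ)‖ = κ ^ x * ‖Gamma (((x + ((k : ℝ) - 1) / 2 : ℝ) : ℂ) +
      τ * I)‖ := by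
    intro x τ
    unfold GG
    rw [← hκ, norm_mul, Complex.norm_cpow_eq_rpow_re_of_pos hκ0, pt_re]
    congr 3
    unfold pt
    push_cast
    ring
  -- away from the real axis
  have hmain : ∀ τ : ℝ, τ ≠ 0 → ‖F (pt (1 / 2 - δ) τ)‖ ≤
        c * N * q ^ (2 * δ) * (1 + |τ|) ^ (2 * δ) * ‖F (pt (1 / 2 + δ) τ)‖ := by
    intro τ hτ
    obtain ⟨w, hw, hfe⟩ := hF.fe
    have h1 := hfe (pt (1 / 2 - δ) τ) (by rw [pt_im]; exact hτ)
    have h2 : 1 - (starRingEnd ℂ) (pt (1 / 2 - δ) τ) = pt (1 / 2 + δ) τ := by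
      apply Complex.ext
      · rw [Complex.sub_re, Complex.conj_re, pt_re, pt_re, Complex.one_re]; ring
      · rw [Complex.sub_im, Complex.conj_im, pt_im, pt_im, Complex.one_im]; ring
    rw [h2] at h1
    have h3 := congrArg norm h1
    rw [norm_mul, norm_mul, hw, one_mul, RCLike.norm_conj, norm_mul, hnG, hnG] at h3
    have e1 : 1 / 2 - δ + ((k : ℝ) - 1) / 2 = x₀ - δ := by rw [hx₀]; ring
    have e2 : 1 / 2 + δ + ((k : ℝ) - 1) / 2 = x₀ + δ := by rw [hx₀]; ring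
    rw [e1, e2] at h3
    have h4 := hc δ hδ0 hδ1 τ
    obtain ⟨g1, hg1⟩ : ∃ g1 : ℝ, g1 = ‖Gamma (((x₀ - δ : ℝ) : ℂ) + τ * I)‖ := ⟨_, rfl⟩
    obtain ⟨g2, hg2⟩ : ∃ g2 : ℝ, g2 = ‖Gamma (((x₀ + δ : ℝ) : ℂ) + τ * I)‖ := ⟨_, rfl⟩
    rw [← hg1, ← hg2] at h3 h4
    have hg10 : 0 < g1 := by
      rw [hg1]
      refine norm_pos_iff.mpr (Complex.Gamma_ne_zero_of_re_pos ?_)
      simp
      linarith
    have hκ1 : κ ^ (1 / 2 + δ) = κ ^ (1 / 2 - δ) * κ ^ (2 * δ) := by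
      rw [← Real.rpow_add hκ0]; congr 1; ring
    have hk0 : 0 < κ ^ (1 / 2 - δ) := Real.rpow_pos_of_pos hκ0 _
    rw [hκ1] at h3
    have h5 : g1 * ‖F (pt (1 / 2 - δ) τ)‖ = κ ^ (2 * δ) * g2 * ‖F (pt (1 / 2 + δ) τ)‖ := by
      refine mul_left_cancel₀ hk0.ne' ?_
      linarith
    have h6 : κ ^ (2 * δ) ≤ N * q ^ (2 * δ) := by
      refine (Real.rpow_le_rpow hκ0.le hκq (by linarith)).trans ?_
      rw [Real.mul_rpow (by linarith) (by linarith)]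
      refine mul_le_mul_of_nonneg_right ?_ (by positivity)
      calc N ^ (2 * δ) ≤ N ^ (1 : ℝ) :=
            Real.rpow_le_rpow_of_exponent_le hN (by linarith)
        _ = N := Real.rpow_one _
    have h7 : g1 * ‖F (pt (1 / 2 - δ) τ)‖ ≤
        g1 * (c * N * q ^ (2 * δ) * (1 + |τ|) ^ (2 * δ) * ‖F (pt (1 / 2 + δ) τ)‖) := by
      rw [h5]
      have hg20 : 0 ≤ g2 := by rw [hg2]; exact norm_nonneg _
      calc κ ^ (2 * δ) * g2 * ‖F (pt (1 / 2 + δ) τ)‖ ≤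
          (N * q ^ (2 * δ)) * (c * (1 + |τ|) ^ (2 * δ) * g1) * ‖F (pt (1 / 2 + δ) τ)‖ := by
            gcongr
        _ = _ := by ring
    exact le_of_mul_le_mul_left h7 hg10
  -- all ordinates
  intro τ
  have hcl : IsClosed {τ : ℝ | ‖F (pt (1 / 2 - δ) τ)‖ ≤
        c * N * q ^ (2 * δ) * (1 + |τ|) ^ (2 * δ) * ‖F (pt (1 / 2 + δ) τ)‖} := by
    refine isClosed_le ?_ ?_
    · exact (hF.diff.continuous.comp (pt_cont _)).norm
    · refine Continuous.mul (Continuous.mul continuous_const ?_)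
        (hF.diff.continuous.comp (pt_cont _)).norm
      exact Continuous.rpow_const (by fun_prop) fun x => Or.inr (by linarith)
  have hsub : closure ({0}ᶜ : Set ℝ) ⊆ {τ : ℝ | ‖F (pt (1 / 2 - δ) τ)‖ ≤
        c * N * q ^ (2 * δ) * (1 + |τ|) ^ (2 * δ) * ‖F (pt (1 / 2 + δ) τ)‖} :=
    hcl.closure_subset_iff.mpr fun x hx => hmain x hx
  rw [closure_compl_singleton] at hsub
  exact hsub (Set.mem_univ τ)

/-- growth in the half plane -/
theorem gr_bound {k : ℤ} (hk : 1 ≤ k) {N B : ℝ} (hN : 1 ≤ N) (hB1 : 1 ≤ B) : ∃ A : ℝ, 1 ≤ A ∧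
    ∀ (q : ℝ) (F : ℂ → ℂ), 1 ≤ q → FE2 k N q F → (∀ s : ℂ, 3 / 2 ≤ s.re → ‖F s‖ ≤ B) →
      ∀ s : ℂ, 1 / 16 ≤ s.re → ‖F s‖ ≤ A * (q * (1 + |s.im|)) ^ 2 := by
  have hk1 : (1 : ℝ) ≤ k := by exact_mod_cast hk
  obtain ⟨c, hc⟩ : ∃ c : ℝ, c = ((k : ℝ) - 1) / 2 := ⟨_, rfl⟩
  have hc0 : 0 ≤ c := by rw [hc]; linarith
  refine ⟨2 * (B * N) * (c + 5) ^ 2, ?_, ?_⟩
  · have h1 : 1 ≤ B * N := one_le_mul_of_one_le_of_one_le hB1 hN
    nlinarith
  intro q F hq hF hB s hs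
  have hq0 : 0 < q := by linarith
  have hB0 : 0 ≤ B := by linarith
  have hy := abs_nonneg s.im
  rcases le_total s.re (3 / 2) with h | h
  · have e1 := HH_bound hk hN hq hF hB s (by linarith) h
    unfold HH at e1
    rw [← hc, norm_mul, norm_mul, norm_inv, norm_pow,
      Complex.norm_cpow_eq_rpow_re_of_pos hq0] at e1
    have hre : (s - 3 / 2).re = s.re - 3 / 2 := by rw [Complex.sub_re]; norm_num
    rw [hre] at e1
    have hne : s + 3 + (c : ℂ) ≠ 0 := by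
      intro h0
      have := congrArg Complex.re h0
      simp at this
      linarith
    have e2 : 0 < ‖s + 3 + (c : ℂ)‖ ^ 2 := by positivity
    have e3 : ‖s + 3 + (c : ℂ)‖ ^ 2 ≤ ((c + 5) * (1 + |s.im|)) ^ 2 := by
      apply pow_le_pow_left₀ (norm_nonneg _)
      refine (norm_le_abs_re_add_abs_im _).trans ?_
      have hre' : (s + 3 + (c : ℂ)).re = s.re + 3 + c := by simp
      have him' : (s + 3 + (c : ℂ)).im = s.im := by simp
      rw [hre', him', abs_of_nonneg (by linarith)]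
      nlinarith
    have e4 : (q ^ 2)⁻¹ ≤ q ^ (s.re - 3 / 2) := by
      rw [← Real.rpow_natCast, ← Real.rpow_neg hq0.le]
      apply Real.rpow_le_rpow_of_exponent_le hq
      push_cast
      linarith
    have e5 : ‖F s‖ * (q ^ 2)⁻¹ * (‖s + 3 + (c : ℂ)‖ ^ 2)⁻¹ ≤ 2 * (B * N) := by
      refine le_trans ?_ e1
      gcongr
    have e6 : ‖F s‖ ≤ 2 * (B * N) * (‖s + 3 + (c : ℂ)‖ ^ 2) * q ^ 2 := by
      have : ‖F s‖ = (‖F s‖ * (q ^ 2)⁻¹ * (‖s + 3 + (c : ℂ)‖ ^ 2)⁻¹) *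
          (‖s + 3 + (c : ℂ)‖ ^ 2) * q ^ 2 := by
        have e2' := e2.ne'
        generalize ‖s + 3 + (c : ℂ)‖ ^ 2 = X at e2' ⊢
        field_simp
      rw [this]
      gcongr
    calc ‖F s‖ ≤ 2 * (B * N) * (‖s + 3 + (c : ℂ)‖ ^ 2) * q ^ 2 := e6
      _ ≤ 2 * (B * N) * (((c + 5) * (1 + |s.im|)) ^ 2) * q ^ 2 := by gcongr
      _ = _ := by ring
  · have e1 := hB s h
    have h2 : 1 ≤ (q * (1 + |s.im|)) ^ 2 := by
      refine one_le_pow₀ ?_
      nlinarith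
    have e3 : B ≤ 2 * (B * N) * (c + 5) ^ 2 := by
      have h4 : B ≤ B * N := by nlinarith
      have h5 : 1 ≤ (c + 5) ^ 2 := by nlinarith
      nlinarith
    have h6 : 0 ≤ 2 * (B * N) * (c + 5) ^ 2 := by positivity
    nlinarith

end Pool.Agent.V8H15.DN
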