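import Pool.Agent.V8H15.DN.Asm

/-!
# The mollified mean square to the left of the critical line

Project DN (helper15).
-/

set_option autoImplicit false

open Finset Filter Topology MeasureTheory ArithmeticFunction Complex

namespace Pool.Agent.V8H15.DN

open Pool.Agent.N786.D (Fr Cutf JJ wt cut_exists)
open Pool.Agent.R399.TW (pt pt_re pt_im pt_cont)

/-- Cauchy-Schwarz -/
lemma cs_int {g h : ℝ → ℂ} (hgi : Integrable fun u => ‖g u‖)
    (hh : Continuous h) {B : ℝ} (hB : ∀ u, ‖h u‖ ≤ B) :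
    ‖∫ u, g u * h u‖ ^ 2 ≤ (∫ u, ‖g u‖) * ∫ u, ‖g u‖ * ‖h u‖ ^ 2 := by
  have hB0 : 0 ≤ B := (norm_nonneg _).trans (hB 0)
  have i1 : Integrable fun u => ‖g u‖ * ‖h u‖ := hgi.mul_bdd hh.norm.aestronglyMeasurable
    (Filter.Eventually.of_forall fun u => by rw [norm_norm]; exact hB u)
  have i2 : Integrable fun u => ‖g u‖ * ‖h u‖ ^ 2 :=
    hgi.mul_bdd (c := B ^ 2) (hh.norm.pow 2).aestronglyMeasurable
      (Filter.Eventually.of_forall fun u => by
        rw [Real.norm_of_nonneg (by positivity)]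
        exact pow_le_pow_left₀ (norm_nonneg _) (hB u) 2)
  obtain ⟨I0, hI0⟩ : ∃ I0 : ℝ, I0 = ∫ u, ‖g u‖ := ⟨_, rfl⟩
  obtain ⟨I1, hI1⟩ : ∃ I1 : ℝ, I1 = ∫ u, ‖g u‖ * ‖h u‖ := ⟨_, rfl⟩
  obtain ⟨I2, hI2⟩ : ∃ I2 : ℝ, I2 = ∫ u, ‖g u‖ * ‖h u‖ ^ 2 := ⟨_, rfl⟩
  have h0 : ‖∫ u, g u * h u‖ ≤ I1 := by
    rw [hI1]
    refine (norm_integral_le_integral_norm _).trans (le_of_eq ?_)
    exact integral_congr_ae (Filter.Eventually.of_forall fun u => norm_mul _ _)
  have hI0n : 0 ≤ I0 := by rw [hI0]; exact integral_nonneg fun _ => norm_nonneg _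
  have hI1n : 0 ≤ I1 := by rw [hI1]; exact integral_nonneg fun _ => by positivity
  rw [← hI0, ← hI2]
  refine (pow_le_pow_left₀ (norm_nonneg _) h0 2).trans ?_
  rcases hI0n.eq_or_lt with h | hpos
  · have h1 : I1 ≤ B * I0 := by
      rw [hI1, hI0, ← integral_const_mul]
      refine integral_mono i1 (hgi.const_mul _) fun u => ?_
      simp only
      rw [mul_comm]
      exact mul_le_mul_of_nonneg_right (hB u) (norm_nonneg _)
    rw [← h, mul_zero] at h1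
    have h2 : I1 = 0 := le_antisymm h1 hI1n
    rw [h2, ← h]
    simp
  · have h1 : 0 ≤ ∫ u, ‖g u‖ * (I0 * ‖h u‖ - I1) ^ 2 := integral_nonneg fun u => by positivity
    have h2 : ∫ u, ‖g u‖ * (I0 * ‖h u‖ - I1) ^ 2 =
        I0 ^ 2 * I2 - 2 * I0 * I1 * I1 + I1 ^ 2 * I0 := by
      have e : ∀ u, ‖g u‖ * (I0 * ‖h u‖ - I1) ^ 2 = I0 ^ 2 * (‖g u‖ * ‖h u‖ ^ 2) -
          2 * I0 * I1 * (‖g u‖ * ‖h u‖) + I1 ^ 2 * ‖g u‖ := fun u => by ring
      simp_rw [e]
      have i3 : Integrable fun u => I0 ^ 2 * (‖g u‖ * ‖h u‖ ^ 2) -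
          2 * I0 * I1 * (‖g u‖ * ‖h u‖) := (i2.const_mul _).sub (i1.const_mul _)
      rw [integral_add i3 (hgi.const_mul _), integral_sub (i2.const_mul _) (i1.const_mul _),
        integral_const_mul, integral_const_mul, integral_const_mul, ← hI0, ← hI1, ← hI2]
    rw [h2] at h1
    have h3 : 0 ≤ I0 * (I0 * I2 - I1 ^ 2) := by nlinarith
    have h4 := nonneg_of_mul_nonneg_right h3 hpos
    linarith

/-- the mollifier to the left of the line as an average of its values to the right -/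
lemma Dp_left {β₁ β₂ β₃ κ : ℝ} {θ θ₂ : ℝ → ℝ} (hθ : Cutf β₁ β₂ θ) (hθ₂ : Cutf β₂ β₃ θ₂)
    {G : ℝ → ℂ} (hG : Fr (fun x => ((θ₂ x * Real.exp (2 * κ * x) : ℝ) : ℂ)) G)
    {R : ℝ} (hR : 0 < R) (M : ℕ) (b : ℕ → ℂ) (g : ℕ → ℂ) (τ : ℝ) :
    Dp θ R M b g (pt (1 / 2 - κ / R) τ) =
      ∫ u, G u * Dp θ R M b g (pt (1 / 2 + κ / R) (τ - 2 * Real.pi * u / R)) := by
  obtain ⟨hgc, hgi, hgf⟩ := hG
  have hgi0 : Integrable G := by
    have := hgi 0
    simp only [pow_zero, one_mul] at this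
    exact (integrable_norm_iff hgc.aestronglyMeasurable).mp this
  have hmul : ∀ y : ℝ, Integrable fun u : ℝ => G u *
      Complex.exp (((2 * Real.pi * u * y : ℝ) : ℂ) * Complex.I) := by
    intro y
    refine hgi0.mul_bdd (c := 1) ?_ (Eventually.of_forall fun u => ?_)
    · exact (by fun_prop : Continuous fun u : ℝ =>
        Complex.exp (((2 * Real.pi * u * y : ℝ) : ℂ) * Complex.I)).aestronglyMeasurable
    · rw [Complex.norm_exp_ofReal_mul_I]
  unfold Dp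
  have e1 : ∀ u : ℝ, G u * ∑ n ∈ Icc 1 M, ((θ (Real.log n / R) : ℝ) : ℂ) * b n * g n *
      ex (pt (1 / 2 + κ / R) (τ - 2 * Real.pi * u / R)) n =
      ∑ n ∈ Icc 1 M, (((θ (Real.log n / R) : ℝ) : ℂ) * b n * g n *
        ex (pt (1 / 2 + κ / R) τ) n) * (G u *
        Complex.exp (((2 * Real.pi * u * (Real.log n / R) : ℝ) : ℂ) * Complex.I)) := by
    intro u
    rw [mul_sum]
    refine sum_congr rfl fun n _ => ?_
    have e2 : ex (pt (1 / 2 + κ / R) (τ - 2 * Real.pi * u / R)) n =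
        ex (pt (1 / 2 + κ / R) τ) n *
        Complex.exp (((2 * Real.pi * u * (Real.log n / R) : ℝ) : ℂ) * Complex.I) := by
      have e3 : Complex.exp (-((((τ - 2 * Real.pi * u / R) * Real.log n : ℝ) : ℂ) * Complex.I)) =
          Complex.exp (-(((τ * Real.log n : ℝ) : ℂ) * Complex.I)) *
          Complex.exp (((2 * Real.pi * u * (Real.log n / R) : ℝ) : ℂ) * Complex.I) := by
        rw [← Complex.exp_add]
        congr 1
        push_cast
        ring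
      rw [ex_pt, ex_pt, e3]
      ring
    rw [e2]
    ring
  simp_rw [e1]
  rw [integral_finsetSum _ fun n _ => (hmul _).const_mul _]
  refine sum_congr rfl fun n _ => ?_
  have hgf' : ∀ x : ℝ, ((θ₂ x * Real.exp (2 * κ * x) : ℝ) : ℂ) =
    ∫ u, G u * Complex.exp (((2 * Real.pi * u * x : ℝ) : ℂ) * Complex.I) := hgf
  rw [integral_const_mul, ← hgf']
  by_cases h0 : |Real.log n / R| ≤ β₂
  · rw [hθ₂.one _ h0, one_mul, ex_pt, ex_pt]
    have e3 : Real.exp (-((1 / 2 - κ / R) * Real.log n)) =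
        Real.exp (-((1 / 2 + κ / R) * Real.log n)) *
        Real.exp (2 * κ * (Real.log n / R)) := by
      rw [← Real.exp_add]
      congr 1
      field_simp
      ring
    rw [e3]
    push_cast
    ring
  · push Not at h0
    rw [hθ.zero _ h0.le]
    simp

/-- **the mollified mean square to the left of the critical line** -/
theorem JJ_left {β₁ β₂ : ℝ} {θ : ℝ → ℝ} (hθ : Cutf β₁ β₂ θ) (hβ : 0 < β₂) (κ A : ℝ)
    (hκ : 0 ≤ κ) (hA : 1 ≤ A) (n k : ℕ) :
    ∃ c : ℝ, 0 ≤ c ∧ ∀ (R T H P b : ℝ) (E : ℕ) {ι : Type} (S : Finset ι) (g : ι → ℕ → ℂ)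
      (a' : ℕ → ℂ) (M : ℕ) (F : ι → ℂ → ℂ), 0 < R → 4 * κ ≤ R → 1 ≤ T → H ≤ T → 0 ≤ P → 0 ≤ b →
      (∀ i, Continuous (F i)) →
      (∀ i ∈ S, ∀ τ : ℝ, ‖F i (pt (1 / 2 - κ / R) τ)‖ ≤ A * Real.exp (R * (κ / R)) *
        (1 + |τ| / T) ^ ((n : ℝ) * (κ / R)) * ‖F i (pt (1 / 2 + κ / R) τ)‖) →
      (∀ t₀ v₀ : ℝ, JJ S F (fun i => Dp θ R M a' (g i)) (1 / 2 + κ / R)
        (1 / 2 + κ / R) H t₀ v₀ ≤ ENNReal.ofReal (P * b * wt T R k E t₀ v₀)) →
      ∀ t₀ : ℝ, JJ S F (fun i => Dp θ R M a' (g i)) (1 / 2 - κ / R)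
        (1 / 2 - κ / R) H t₀ 0 ≤ ENNReal.ofReal (P * b * c * (1 + |t₀| / T) ^ (E + n)) := by
  obtain ⟨θ₂, hθ₂⟩ := cut_exists hβ (lt_add_one β₂)
  obtain ⟨G, hG⟩ := hθ₂.fr (2 * κ)
  have hG' := hG
  obtain ⟨hgc, hgi, hgf⟩ := hG
  obtain ⟨I0, hI0⟩ : ∃ I0 : ℝ, I0 = ∫ u, ‖G u‖ := ⟨_, rfl⟩
  obtain ⟨Ik, hIk⟩ : ∃ Ik : ℝ, Ik = ∫ u, (1 + |u|) ^ k * ‖G u‖ := ⟨_, rfl⟩
  have hI00 : 0 ≤ I0 := by rw [hI0]; exact integral_nonneg fun _ => norm_nonneg _
  have hIk0 : 0 ≤ Ik := by rw [hIk]; exact integral_nonneg fun _ => by positivity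
  have hpi := Real.pi_pos
  have hgn : Integrable fun u => ‖G u‖ := by
    have := hgi 0
    simpa only [pow_zero, one_mul] using this
  refine ⟨A ^ 2 * Real.exp (2 * κ) * 2 ^ n * I0 * ((2 * Real.pi) ^ k * Ik), by positivity, ?_⟩
  intro R T H P b E ι S g a' M F hR hκR hT hHT hP hb hFc hfe hJ t₀
  have hT0 : 0 < T := by linarith
  obtain ⟨δ, hδ⟩ : ∃ δ : ℝ, δ = κ / R := ⟨_, rfl⟩
  have hRδ : R * δ = κ := by rw [hδ]; field_simp
  have hδ0 : 0 ≤ δ := by rw [hδ]; positivity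
  have hδ1 : δ ≤ 1 / 4 := by
    rw [hδ, div_le_iff₀ hR]; linarith
  obtain ⟨Θ, hΘ⟩ : ∃ Θ : ℝ, Θ = 1 + |t₀| / T := ⟨_, rfl⟩
  have hΘ1 : 1 ≤ Θ := by
    rw [hΘ]
    have : 0 ≤ |t₀| / T := by positivity
    linarith
  set Mo : ι → ℂ → ℂ := fun i => Dp θ R M a' (g i) with hMo
  have hMc : ∀ i, Continuous (Mo i) := fun i => (Dp_diff _ _ _ _ _).continuous
  obtain ⟨C₁, hC₁⟩ : ∃ C₁ : ℝ, C₁ = A ^ 2 * Real.exp (2 * κ) * (2 ^ n * Θ ^ n) := ⟨_, rfl⟩
  have hC₁0 : 0 ≤ C₁ := by rw [hC₁]; positivity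
  -- pointwise
  have hpt : ∀ i ∈ S, ∀ t ∈ Set.Icc t₀ (t₀ + H),
      ENNReal.ofReal (‖F i (pt (1 / 2 - κ / R) t)‖ ^ 2 * ‖Mo i (pt (1 / 2 - κ / R) (t - 0))‖ ^ 2) ≤
      ENNReal.ofReal (C₁ * I0) * ∫⁻ u : ℝ, ENNReal.ofReal ‖G u‖ *
        ENNReal.ofReal (‖F i (pt (1 / 2 + κ / R) t)‖ ^ 2 *
          ‖Mo i (pt (1 / 2 + κ / R) (t - 2 * Real.pi * u / R))‖ ^ 2) := by
    intro i hi t ht
    rw [sub_zero]
    have h1 := hfe i hi t
    rw [← hδ, hRδ] at h1
    have h3 : 1 + |t| / T ≤ 2 * Θ := by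
      have h4 : |t| ≤ |t₀| + T := by
        have : |t - t₀| ≤ T := by
          rw [abs_of_nonneg (by linarith [ht.1])]
          linarith [ht.2]
        have h5 := abs_add_le (t - t₀) t₀
        rw [sub_add_cancel] at h5
        linarith
      have h6 : |t| / T ≤ |t₀| / T + 1 := by
        rw [div_le_iff₀ hT0, add_mul, div_mul_cancel₀ _ hT0.ne']
        linarith
      rw [hΘ]
      have h7 : 0 ≤ |t₀| / T := by positivity
      linarith
    have h4 : ((1 + |t| / T) ^ ((n : ℝ) * δ)) ^ 2 ≤ 2 ^ n * Θ ^ n := by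
      have h5 : 1 ≤ 1 + |t| / T := by
        have : 0 ≤ |t| / T := by positivity
        linarith
      rw [← Real.rpow_natCast, ← Real.rpow_mul (by linarith), ← mul_pow]
      calc (1 + |t| / T) ^ ((n : ℝ) * δ * (2 : ℕ)) ≤ (1 + |t| / T) ^ (n : ℝ) := by
            refine Real.rpow_le_rpow_of_exponent_le h5 ?_
            push_cast
            have : (0 : ℝ) ≤ n := Nat.cast_nonneg n
            nlinarith
        _ = (1 + |t| / T) ^ n := Real.rpow_natCast _ _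
        _ ≤ (2 * Θ) ^ n := pow_le_pow_left₀ (by linarith) h3 n
    have h5 : ‖F i (pt (1 / 2 - δ) t)‖ ^ 2 ≤ C₁ * ‖F i (pt (1 / 2 + δ) t)‖ ^ 2 := by
      refine (pow_le_pow_left₀ (norm_nonneg _) h1 2).trans ?_
      rw [mul_pow, mul_pow, mul_pow, ← Real.exp_nat_mul, hC₁]
      push_cast
      gcongr
    obtain ⟨B, hB0, hB⟩ := Dp_bdd θ R M a' (g i)
    have h6 := Dp_left hθ hθ₂ hG' hR M a' (g i) t
    have hcont : Continuous fun u : ℝ => Mo i (pt (1 / 2 + κ / R) (t - 2 * Real.pi * u / R)) := by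
      refine (hMc i).comp ?_
      unfold pt
      fun_prop
    have h7 := cs_int hgn hcont (B := B) (fun u => hB _ (by
      rw [pt_re]
      have : 0 ≤ κ / R := by positivity
      linarith))
    have h8 : ‖Mo i (pt (1 / 2 - κ / R) t)‖ ^ 2 ≤ I0 * ∫ u, ‖G u‖ *
        ‖Mo i (pt (1 / 2 + κ / R) (t - 2 * Real.pi * u / R))‖ ^ 2 := by
      rw [hI0]
      refine le_trans (le_of_eq ?_) h7
      rw [hMo]
      simp only
      rw [h6]
    have hint : Integrable fun u : ℝ => ‖G u‖ *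
        ‖Mo i (pt (1 / 2 + κ / R) (t - 2 * Real.pi * u / R))‖ ^ 2 := by
      refine hgn.mul_bdd (c := B ^ 2) (hcont.norm.pow 2).aestronglyMeasurable
        (Filter.Eventually.of_forall fun u => ?_)
      rw [Real.norm_of_nonneg (by positivity)]
      refine pow_le_pow_left₀ (norm_nonneg _) (hB _ ?_) 2
      rw [pt_re]
      have : 0 ≤ κ / R := by positivity
      linarith
    have h9 : ∫⁻ u : ℝ, ENNReal.ofReal ‖G u‖ *
        ENNReal.ofReal (‖F i (pt (1 / 2 + κ / R) t)‖ ^ 2 *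
          ‖Mo i (pt (1 / 2 + κ / R) (t - 2 * Real.pi * u / R))‖ ^ 2) =
        ENNReal.ofReal (‖F i (pt (1 / 2 + κ / R) t)‖ ^ 2 * ∫ u, ‖G u‖ *
        ‖Mo i (pt (1 / 2 + κ / R) (t - 2 * Real.pi * u / R))‖ ^ 2) := by
      rw [ENNReal.ofReal_mul (by positivity), ofReal_integral_eq_lintegral_ofReal hint
        (Eventually.of_forall fun u => by positivity), ← lintegral_const_mul']
      · refine lintegral_congr fun u => ?_
        rw [← ENNReal.ofReal_mul (norm_nonneg _), ← ENNReal.ofReal_mul (by positivity)]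
        congr 1
        ring
      · exact ENNReal.ofReal_ne_top
    rw [h9, ← ENNReal.ofReal_mul (by positivity)]
    refine ENNReal.ofReal_le_ofReal ?_
    rw [← hδ] at h8 ⊢
    calc _ ≤ (C₁ * ‖F i (pt (1 / 2 + δ) t)‖ ^ 2) * (I0 * ∫ u, ‖G u‖ *
        ‖Mo i (pt (1 / 2 + δ) (t - 2 * Real.pi * u / R))‖ ^ 2) :=
          mul_le_mul h5 h8 (by positivity) (by positivity)
      _ = _ := by ring
  -- measurability
  have hmeas : ∀ i, Measurable (Function.uncurry fun t u : ℝ => ENNReal.ofReal ‖G u‖ *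
        ENNReal.ofReal (‖F i (pt (1 / 2 + κ / R) t)‖ ^ 2 *
          ‖Mo i (pt (1 / 2 + κ / R) (t - 2 * Real.pi * u / R))‖ ^ 2)) := by
    intro i
    have c1 : Continuous fun q : ℝ × ℝ => ‖G q.2‖ := (hgc.comp continuous_snd).norm
    have c2 : Continuous fun q : ℝ × ℝ => ‖F i (pt (1 / 2 + κ / R) q.1)‖ := by
      refine ((hFc i).comp ?_).norm
      unfold pt
      fun_prop
    have c3 : Continuous fun q : ℝ × ℝ =>
        ‖Mo i (pt (1 / 2 + κ / R) (q.1 - 2 * Real.pi * q.2 / R))‖ := by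
      refine ((hMc i).comp ?_).norm
      unfold pt
      fun_prop
    exact (c1.measurable.ennreal_ofReal).mul (((c2.pow 2).mul (c3.pow 2)).measurable.ennreal_ofReal)
  calc JJ S F Mo (1 / 2 - κ / R) (1 / 2 - κ / R) H t₀ 0 ≤
      ∑ i ∈ S, ∫⁻ t in Set.Icc t₀ (t₀ + H), ENNReal.ofReal (C₁ * I0) * ∫⁻ u : ℝ,
        ENNReal.ofReal ‖G u‖ * ENNReal.ofReal (‖F i (pt (1 / 2 + κ / R) t)‖ ^ 2 *
          ‖Mo i (pt (1 / 2 + κ / R) (t - 2 * Real.pi * u / R))‖ ^ 2) := by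
        unfold JJ
        exact sum_le_sum fun i hi => setLIntegral_mono' measurableSet_Icc fun t ht => hpt i hi t ht
    _ = ∑ i ∈ S, ENNReal.ofReal (C₁ * I0) * ∫⁻ u : ℝ, ENNReal.ofReal ‖G u‖ *
        ∫⁻ t in Set.Icc t₀ (t₀ + H), ENNReal.ofReal (‖F i (pt (1 / 2 + κ / R) t)‖ ^ 2 *
          ‖Mo i (pt (1 / 2 + κ / R) (t - 2 * Real.pi * u / R))‖ ^ 2) := by
        refine sum_congr rfl fun i hi => ?_
        rw [lintegral_const_mul' _ _ ENNReal.ofReal_ne_top,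
          lintegral_lintegral_swap (hmeas i).aemeasurable]
        congr 1
        refine lintegral_congr fun u => ?_
        rw [lintegral_const_mul' _ _ ENNReal.ofReal_ne_top]
    _ = ENNReal.ofReal (C₁ * I0) * ∫⁻ u : ℝ, ENNReal.ofReal ‖G u‖ *
        JJ S F Mo (1 / 2 + κ / R) (1 / 2 + κ / R) H t₀ (2 * Real.pi * u / R) := by
        rw [← mul_sum]
        congr 1
        unfold JJ
        rw [← lintegral_finsetSum']
        · refine lintegral_congr fun u => ?_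
          rw [mul_sum]
        · intro i hi
          have h1 : Measurable fun u : ℝ => ∫⁻ t in Set.Icc t₀ (t₀ + H),
              ENNReal.ofReal ‖G u‖ * ENNReal.ofReal (‖F i (pt (1 / 2 + κ / R) t)‖ ^ 2 *
              ‖Mo i (pt (1 / 2 + κ / R) (t - 2 * Real.pi * u / R))‖ ^ 2) :=
            ((hmeas i).comp (measurable_swap (α := ℝ) (β := ℝ))).lintegral_prod_right'
          have h2 : (fun u : ℝ => ENNReal.ofReal ‖G u‖ * ∫⁻ t in Set.Icc t₀ (t₀ + H),
              ENNReal.ofReal (‖F i (pt (1 / 2 + κ / R) t)‖ ^ 2 *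
              ‖Mo i (pt (1 / 2 + κ / R) (t - 2 * Real.pi * u / R))‖ ^ 2)) =
              fun u : ℝ => ∫⁻ t in Set.Icc t₀ (t₀ + H),
              ENNReal.ofReal ‖G u‖ * ENNReal.ofReal (‖F i (pt (1 / 2 + κ / R) t)‖ ^ 2 *
              ‖Mo i (pt (1 / 2 + κ / R) (t - 2 * Real.pi * u / R))‖ ^ 2) := by
            funext u
            rw [lintegral_const_mul' _ _ ENNReal.ofReal_ne_top]
          rw [h2]
          exact h1.aemeasurable
    _ ≤ ENNReal.ofReal (C₁ * I0) * ∫⁻ u : ℝ, ENNReal.ofReal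
        ((P * b * ((2 * Real.pi) ^ k * Θ ^ E)) * ((1 + |u|) ^ k * ‖G u‖)) := by
        refine mul_le_mul_right (lintegral_mono fun u => ?_) _
        simp only
        have h1 := hJ t₀ (2 * Real.pi * u / R)
        refine (mul_le_mul_right h1 _).trans ?_
        rw [← ENNReal.ofReal_mul (norm_nonneg _)]
        refine ENNReal.ofReal_le_ofReal ?_
        unfold wt
        rw [← hΘ]
        have e1 : R * |2 * Real.pi * u / R| = 2 * Real.pi * |u| := by
          rw [abs_div, abs_mul, abs_of_pos hR, abs_of_pos (by positivity : 0 < 2 * Real.pi)]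
          field_simp
        rw [e1]
        have h2 : (1 + 2 * Real.pi * |u|) ^ k ≤ (2 * Real.pi) ^ k * (1 + |u|) ^ k := by
          rw [← mul_pow]
          refine pow_le_pow_left₀ (by positivity) ?_ k
          have := Real.pi_gt_three
          nlinarith [abs_nonneg u]
        calc ‖G u‖ * (P * b * ((1 + 2 * Real.pi * |u|) ^ k * Θ ^ E)) ≤
            ‖G u‖ * (P * b * (((2 * Real.pi) ^ k * (1 + |u|) ^ k) * Θ ^ E)) := by gcongr
          _ = _ := by ring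
    _ = ENNReal.ofReal (C₁ * I0) * ENNReal.ofReal ((P * b * ((2 * Real.pi) ^ k * Θ ^ E)) * Ik) := by
        rw [hIk, ← integral_const_mul, ofReal_integral_eq_lintegral_ofReal
          ((hgi k).const_mul _) (Eventually.of_forall fun u => by positivity)]
    _ = _ := by
        rw [← ENNReal.ofReal_mul (by positivity), hC₁, ← hΘ]
        congr 1
        rw [pow_add]
        ring

end Pool.Agent.V8H15.DN
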