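import Pool.Agent.N786.D.Jen2

/-!
# Counting zeros locally, at the scale of the mean spacing

Jensen's formula in the variable `exp (lam (s - σ))`.  Project DN (helper15).
-/

set_option autoImplicit false

namespace Pool.Agent.V8H15.DN

open MeasureTheory Set Filter Topology Complex Metric
open Pool.Agent.R399.TW (pt pt_re pt_im pt_cont)
open Pool.Agent.N786.D (QQ lint_shift)

/-- Jensen's inequality for a finite set of points in a disc -/
lemma jensen_fin' {g : ℂ → ℂ} {c : ℂ} {ρ : ℝ} (hgb : AnalyticOnNhd ℂ g (closedBall c |ρ|))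
    (hρ : 0 < ρ) (hc : g c ≠ 0) {Z : Finset ℂ} (hZ : ∀ z ∈ Z, ‖c - z‖ ≤ ρ) :
    ∑ z ∈ Z, (analyticOrderNatAt g z : ℝ) * Real.log (ρ * ‖c - z‖⁻¹) ≤
      Real.circleAverage (fun z => Real.log ‖g z‖) c ρ - Real.log ‖g c‖ := by
  rw [hgb.circleAverage_log_norm hρ.ne' hc, add_sub_cancel_right]
  have hfin := (MeromorphicOn.divisor g (closedBall c |ρ|)).finiteSupport
    (isCompact_closedBall c |ρ|)
  have hone : ∀ z ∈ closedBall c |ρ|, (MeromorphicOn.divisor g (closedBall c |ρ|) z : ℝ) =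
      analyticOrderNatAt g z := by
    intro z hz
    rw [MeromorphicOn.AnalyticOnNhd.divisor_apply hgb hz]
    unfold analyticOrderNatAt
    cases h : analyticOrderAt g z with
    | top => simp
    | coe n => simp
  have hnn : ∀ z, 0 ≤ (MeromorphicOn.divisor g (closedBall c |ρ|) z : ℝ) *
      Real.log (ρ * ‖c - z‖⁻¹) := by
    intro z
    by_cases hz : z ∈ closedBall c |ρ|
    · rw [hone z hz]
      refine mul_nonneg (Nat.cast_nonneg _) ?_
      rw [mem_closedBall, dist_comm, dist_eq_norm, abs_of_pos hρ] at hz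
      rcases (norm_nonneg (c - z)).eq_or_lt with h | h
      · rw [← h]; simp
      · refine Real.log_nonneg ?_
        rw [← div_eq_mul_inv, le_div_iff₀ h]
        linarith
    · rw [Function.locallyFinsuppWithin.apply_eq_zero_of_notMem _ hz]
      simp
  have hsup : (Function.support fun z => (MeromorphicOn.divisor g (closedBall c |ρ|) z : ℝ) *
      Real.log (ρ * ‖c - z‖⁻¹)) ⊆ (hfin.toFinset ∪ Z : Finset ℂ) := by
    intro z hz
    rw [Function.mem_support] at hz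
    simp only [Finset.coe_union, Set.mem_union]
    left
    rw [Finset.mem_coe, Set.Finite.mem_toFinset, Function.mem_support]
    intro h
    rw [h] at hz
    simp at hz
  rw [finsum_eq_sum_of_support_subset _ hsup]
  refine le_trans (Finset.sum_le_sum fun z hz => ?_)
    (Finset.sum_le_sum_of_subset_of_nonneg Finset.subset_union_right fun z _ _ => hnn z)
  rw [hone z]
  rw [mem_closedBall, dist_comm, dist_eq_norm, abs_of_pos hρ]
  exact hZ z hz

/-- the point of the `s`-plane -/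
noncomputable def sp (σ t lam : ℝ) (ζ : ℂ) : ℂ := pt σ t + Complex.log ζ / (lam : ℂ)

lemma ball_re {ρ : ℝ} (hρ : 0 < ρ) {ζ : ℂ} (h : ζ ∈ closedBall (((1 + ρ : ℝ) : ℂ)) |ρ|) :
    1 ≤ ζ.re := by
  rw [mem_closedBall, dist_eq_norm, abs_of_pos hρ] at h
  have h1 := (Complex.abs_re_le_norm _).trans h
  rw [Complex.sub_re, Complex.ofReal_re, abs_le] at h1
  linarith [h1.1]

lemma sp_analytic (σ t lam : ℝ) {ζ : ℂ} (h : 0 < ζ.re) : AnalyticAt ℂ (sp σ t lam) ζ := by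
  unfold sp
  have h1 : AnalyticAt ℂ Complex.log ζ := analyticAt_clog (Or.inl h)
  exact analyticAt_const.add (h1.div_const)

lemma sp_deriv (σ t : ℝ) {lam : ℝ} (hl : 0 < lam) {ζ : ℂ} (h : 0 < ζ.re) :
    deriv (sp σ t lam) ζ ≠ 0 := by
  have h1 : HasDerivAt Complex.log ζ⁻¹ ζ := Complex.hasDerivAt_log (Or.inl h)
  have h2 : HasDerivAt (sp σ t lam) (ζ⁻¹ / (lam : ℂ)) ζ := by
    unfold sp
    exact (h1.div_const _).const_add _
  rw [h2.deriv]
  have h3 : ζ ≠ 0 := by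
    rintro rfl
    simp at h
  have h4 : (lam : ℂ) ≠ 0 := by exact_mod_cast hl.ne'
  exact div_ne_zero (inv_ne_zero h3) h4

/-- the weight of a zero -/
lemma wt_zero {ρ r ψ : ℝ} (hρ : 4 ≤ ρ) (hr : 2 ≤ r) (hr' : r ≤ 1 + ρ) (hψ : |ψ| ≤ 1 / 2) :
    ρ / 2 ≤ ρ ^ 2 - (((1 + ρ) - r * Real.cos ψ) ^ 2 + (r * Real.sin ψ) ^ 2) := by
  have hc : 3 / 4 ≤ Real.cos ψ := by
    have h1 := Real.one_sub_sq_div_two_le_cos (x := ψ)
    have h2 : ψ ^ 2 ≤ (1 / 2) ^ 2 := by
      rw [← sq_abs]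
      exact pow_le_pow_left₀ (abs_nonneg _) hψ 2
    linarith
  have h2 := Real.sin_sq_add_cos_sq ψ
  have e : ρ ^ 2 - (((1 + ρ) - r * Real.cos ψ) ^ 2 + (r * Real.sin ψ) ^ 2) =
      ρ ^ 2 - (1 + ρ) ^ 2 + 2 * r * (1 + ρ) * Real.cos ψ -
        r ^ 2 * (Real.sin ψ ^ 2 + Real.cos ψ ^ 2) := by ring
  rw [e, h2, mul_one]
  have h3 : 2 * r * (1 + ρ) * (3 / 4) ≤ 2 * r * (1 + ρ) * Real.cos ψ :=
    mul_le_mul_of_nonneg_left hc (by positivity)
  nlinarith [mul_nonneg (sub_nonneg.mpr hr) (sub_nonneg.mpr hr')]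

/-- Jensen's inequality in the variable `exp (lam (s - σ))` -/
lemma jensen_loc {f : ℂ → ℂ} (hf : Differentiable ℂ f) {σ t lam ρ : ℝ} (hl : 0 < lam)
    (hρ : 4 ≤ ρ) (hρe : 1 + ρ = Real.exp (lam * (2 - σ)))
    (hc : ‖f (pt 2 t)‖ ^ 2 ≤ 1 / 2) {Z : Finset ℂ}
    (hZ : ∀ z ∈ Z, σ + 1 / lam ≤ z.re ∧ z.re ≤ 2 ∧ |lam * (z.im - t)| ≤ 1 / 2) :
    ∑ z ∈ Z, (analyticOrderNatAt (fun s => 1 - f s ^ 2) z : ℝ) * (1 / (4 * ρ)) ≤
      Real.circleAverage (fun ζ => ‖f (sp σ t lam ζ)‖ ^ 2) ((1 + ρ : ℝ) : ℂ) ρ +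
        2 * ‖f (pt 2 t)‖ ^ 2 := by
  classical
  have hρ0 : 0 < ρ := by linarith
  have hlc : (lam : ℂ) ≠ 0 := by exact_mod_cast hl.ne'
  set h : ℂ → ℂ := fun s => 1 - f s ^ 2 with hh
  have hhd : Differentiable ℂ h := (differentiable_const _).sub (hf.pow 2)
  set g : ℂ → ℂ := fun ζ => h (sp σ t lam ζ) with hg
  have hgb : AnalyticOnNhd ℂ g (closedBall ((1 + ρ : ℝ) : ℂ) |ρ|) := by
    intro ζ hζ
    have h1 := ball_re hρ0 hζ
    exact (hhd.analyticAt _).comp (sp_analytic σ t lam (by linarith))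
  have hcen : sp σ t lam ((1 + ρ : ℝ) : ℂ) = pt 2 t := by
    unfold sp
    rw [← Complex.ofReal_log (by linarith), hρe, Real.log_exp]
    unfold pt
    push_cast
    field_simp
    ring
  have hlow : 1 - ‖f (pt 2 t)‖ ^ 2 ≤ ‖h (pt 2 t)‖ := by
    have h1 := norm_sub_norm_le (1 : ℂ) (f (pt 2 t) ^ 2)
    rw [norm_one, norm_pow] at h1
    exact h1
  have hc0 : h (pt 2 t) ≠ 0 := by
    intro h0
    rw [h0, norm_zero] at hlow
    linarith
  have hgc : g ((1 + ρ : ℝ) : ℂ) ≠ 0 := by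
    rw [hg]
    simp only
    rw [hcen]
    exact hc0
  -- the points in the new variable
  set e : ℂ → ℂ := fun z => Complex.exp ((lam : ℂ) * (z - pt σ t)) with he
  have hre : ∀ z : ℂ, ((lam : ℂ) * (z - pt σ t)).re = lam * (z.re - σ) := by
    intro z
    rw [Complex.re_ofReal_mul, Complex.sub_re, pt_re]
  have him : ∀ z : ℂ, ((lam : ℂ) * (z - pt σ t)).im = lam * (z.im - t) := by
    intro z
    rw [Complex.im_ofReal_mul, Complex.sub_im, pt_im]
  have hse : ∀ z ∈ Z, sp σ t lam (e z) = z := by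
    intro z hz
    obtain ⟨h1, h2, h3⟩ := hZ z hz
    have h4 := abs_le.mp h3
    unfold sp
    rw [he]
    simp only
    rw [Complex.log_exp (by rw [him]; linarith [Real.pi_gt_three])
      (by rw [him]; linarith [Real.pi_gt_three])]
    field_simp
    ring
  have hinj : Set.InjOn e (Z : Set ℂ) := by
    intro z hz z' hz' hzz
    rw [← hse z hz, ← hse z' hz', hzz]
  have hepos : ∀ z ∈ Z, 0 < (e z).re := by
    intro z hz
    obtain ⟨h1, h2, h3⟩ := hZ z hz
    have h4 := abs_le.mp h3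
    rw [he]
    simp only
    rw [Complex.exp_re, him]
    refine mul_pos (Real.exp_pos _) (Real.cos_pos_of_mem_Ioo ⟨?_, ?_⟩) <;>
      linarith [Real.pi_gt_three]
  have hnorm : ∀ z ∈ Z, ρ / 2 ≤ ρ ^ 2 - ‖((1 + ρ : ℝ) : ℂ) - e z‖ ^ 2 := by
    intro z hz
    obtain ⟨h1, h2, h3⟩ := hZ z hz
    have h4 : ‖((1 + ρ : ℝ) : ℂ) - e z‖ ^ 2 =
        ((1 + ρ) - Real.exp (lam * (z.re - σ)) * Real.cos (lam * (z.im - t))) ^ 2 +
        (Real.exp (lam * (z.re - σ)) * Real.sin (lam * (z.im - t))) ^ 2 := by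
      rw [← Complex.normSq_eq_norm_sq, Complex.normSq_apply, Complex.sub_re, Complex.sub_im,
        Complex.ofReal_re, Complex.ofReal_im, he]
      simp only
      rw [Complex.exp_re, Complex.exp_im, hre, him]
      ring
    rw [h4]
    refine wt_zero hρ ?_ ?_ h3
    · have h5 : 1 ≤ lam * (z.re - σ) := by
        have h6 : 1 / lam ≤ z.re - σ := by linarith
        rw [div_le_iff₀ hl] at h6
        linarith
      have h7 := Real.add_one_le_exp (lam * (z.re - σ))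
      linarith
    · rw [hρe]
      exact Real.exp_le_exp.mpr (mul_le_mul_of_nonneg_left (by linarith) hl.le)
  have hdist : ∀ z ∈ Z, ‖((1 + ρ : ℝ) : ℂ) - e z‖ ≤ ρ := by
    intro z hz
    refine le_of_sq_le_sq ?_ hρ0.le
    have := hnorm z hz
    linarith
  have hJ := jensen_fin' hgb hρ0 hgc (Z := Z.image e) (by
    intro ζ hζ
    obtain ⟨z, hz, rfl⟩ := Finset.mem_image.mp hζ
    exact hdist z hz)
  rw [Finset.sum_image hinj] at hJ
  have hord : ∀ z ∈ Z, analyticOrderNatAt g (e z) = analyticOrderNatAt h z := by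
    intro z hz
    unfold analyticOrderNatAt
    have h1 := analyticOrderAt_comp_of_deriv_ne_zero (f := h)
      (sp_analytic σ t lam (hepos z hz)) (sp_deriv σ t hl (hepos z hz))
    have h2 : g = h ∘ sp σ t lam := rfl
    rw [h2, h1, hse z hz]
  have hlog : ∀ z ∈ Z, ((1 + ρ : ℝ) : ℂ) ≠ e z →
      1 / (4 * ρ) ≤ Real.log (ρ * ‖((1 + ρ : ℝ) : ℂ) - e z‖⁻¹) := by
    intro z hz hne
    have hd : 0 < ‖((1 + ρ : ℝ) : ℂ) - e z‖ := norm_pos_iff.mpr (sub_ne_zero.mpr hne)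
    have h1 := Real.log_le_sub_one_of_pos (x := (‖((1 + ρ : ℝ) : ℂ) - e z‖ / ρ) ^ 2)
      (by positivity)
    rw [Real.log_pow, Real.log_div hd.ne' hρ0.ne', div_pow] at h1
    have h2 : ‖((1 + ρ : ℝ) : ℂ) - e z‖ ^ 2 / ρ ^ 2 ≤ 1 - 1 / (2 * ρ) := by
      rw [div_le_iff₀ (by positivity)]
      have h3 := hnorm z hz
      have h4 : (1 - 1 / (2 * ρ)) * ρ ^ 2 = ρ ^ 2 - ρ / 2 := by
        field_simp
      rw [h4]
      linarith
    rw [Real.log_mul hρ0.ne' (inv_ne_zero hd.ne'), Real.log_inv]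
    have h3 : 1 / (4 * ρ) = (1 / (2 * ρ)) / 2 := by
      field_simp
      ring
    rw [h3]
    rw [show ((2 : ℕ) : ℝ) = 2 by norm_num] at h1
    linarith
  have h2 : ∑ z ∈ Z, (analyticOrderNatAt h z : ℝ) * (1 / (4 * ρ)) ≤
      ∑ z ∈ Z, (analyticOrderNatAt g (e z) : ℝ) * Real.log (ρ * ‖((1 + ρ : ℝ) : ℂ) - e z‖⁻¹) := by
    refine Finset.sum_le_sum fun z hz => ?_
    by_cases hcz : ((1 + ρ : ℝ) : ℂ) = e z
    · have h3 : analyticOrderNatAt h z = 0 := by
        have h4 : z = pt 2 t := by rw [← hse z hz, ← hcz, hcen]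
        rw [h4]
        unfold analyticOrderNatAt
        rw [(hhd.analyticAt _).analyticOrderAt_eq_zero.mpr hc0]
        rfl
      rw [hord z hz, h3]
      simp
    · rw [hord z hz]
      exact mul_le_mul_of_nonneg_left (hlog z hz hcz) (Nat.cast_nonneg _)
  have hspc : ContinuousOn (fun ζ => ‖f (sp σ t lam ζ)‖ ^ 2)
      (sphere ((1 + ρ : ℝ) : ℂ) |ρ|) := by
    intro ζ hζ
    have h1 := ball_re hρ0 (sphere_subset_closedBall hζ)
    have h5 := (sp_analytic σ t lam (ζ := ζ) (by linarith)).continuousAt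
    exact (((hf.continuous.continuousAt.comp h5).norm).pow 2).continuousWithinAt
  have h4 : Real.circleAverage (fun z => Real.log ‖g z‖) ((1 + ρ : ℝ) : ℂ) ρ ≤
      Real.circleAverage (fun ζ => ‖f (sp σ t lam ζ)‖ ^ 2) ((1 + ρ : ℝ) : ℂ) ρ := by
    refine Real.circleAverage_mono ?_ ?_ ?_
    · have hm : MeromorphicOn g (sphere ((1 + ρ : ℝ) : ℂ) |ρ|) := fun z hz =>
        (hgb z (sphere_subset_closedBall hz)).meromorphicAt
      exact hm.circleIntegrable_log_norm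
    · exact hspc.circleIntegrable'
    · intro z _
      rcases eq_or_ne (g z) 0 with h0 | h0
      · rw [h0, norm_zero, Real.log_zero]; positivity
      · have h5 := Real.log_le_sub_one_of_pos (norm_pos_iff.mpr h0)
        have h6 : ‖g z‖ ≤ 1 + ‖f (sp σ t lam z)‖ ^ 2 := by
          have := norm_sub_le (1 : ℂ) (f (sp σ t lam z) ^ 2)
          rw [norm_one, norm_pow] at this
          exact this
        linarith
  have h7 : -Real.log ‖g ((1 + ρ : ℝ) : ℂ)‖ ≤ 2 * ‖f (pt 2 t)‖ ^ 2 := by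
    have hgh : g ((1 + ρ : ℝ) : ℂ) = h (pt 2 t) := by
      rw [hg]
      simp only
      rw [hcen]
    rw [hgh]
    have hpos : 0 < ‖h (pt 2 t)‖ := norm_pos_iff.mpr hc0
    have h8 := Real.one_sub_inv_le_log_of_pos hpos
    have h9 : ‖h (pt 2 t)‖⁻¹ ≤ 1 + 2 * ‖f (pt 2 t)‖ ^ 2 := by
      rw [inv_le_comm₀ hpos (by positivity)]
      refine le_trans ?_ hlow
      rw [inv_le_iff_one_le_mul₀ (by positivity)]
      nlinarith [sq_nonneg ‖f (pt 2 t)‖]
    linarith
  linarith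

end Pool.Agent.V8H15.DN
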