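import Pool.Agent.V8H15.DN.Sel
import Pool.Agent.N786.D.Jen2
import Pool.Agent.N786.D.Cut

/-!
# The mean square of the mollified Dirichlet polynomials

Project DN (helper15).
-/

set_option autoImplicit false

open Finset Filter Topology MeasureTheory ArithmeticFunction

namespace Pool.Agent.V8H15.DN

open Pool.Agent.N786.D (Fr Cutf JJ)
open Pool.Agent.R399.TW (pt pt_re pt_im pt_cont)

/-- product of two Dirichlet polynomials -/
lemma prod_dp (M₁ M₂ : ℕ) (U V w : ℕ → ℂ) (hU : ∀ n, M₁ < n → U n = 0)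
    (hV : ∀ n, M₂ < n → V n = 0) (hw : ∀ m n, m ≠ 0 → n ≠ 0 → w (m * n) = w m * w n) :
    (∑ n ∈ Icc 1 M₁, U n * w n) * (∑ n ∈ Icc 1 M₂, V n * w n) =
      ∑ n ∈ Icc 1 (M₁ * M₂), (∑ p ∈ n.divisorsAntidiagonal, U p.1 * V p.2) * w n := by
  have h1 : ∑ n ∈ Icc 1 (M₁ * M₂), (∑ p ∈ n.divisorsAntidiagonal, U p.1 * V p.2) * w n =
      ∑ n ∈ Icc 1 (M₁ * M₂), ∑ p ∈ n.divisorsAntidiagonal, (U p.1 * w p.1) * (V p.2 * w p.2) := by
    refine sum_congr rfl fun n hn => ?_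
    rw [sum_mul]
    refine sum_congr rfl fun p hp => ?_
    obtain ⟨h2, h3⟩ := Nat.mem_divisorsAntidiagonal.mp hp
    have hp1 : p.1 ≠ 0 := left_ne_zero_of_mul (h2 ▸ h3)
    have hp2 : p.2 ≠ 0 := right_ne_zero_of_mul (h2 ▸ h3)
    rw [← h2, hw _ _ hp1 hp2]
    ring
  rw [h1, sum_sigma', sum_mul_sum, ← sum_product']
  have h2 : ∑ x ∈ (Icc 1 (M₁ * M₂)).sigma fun n => n.divisorsAntidiagonal,
      (U x.2.1 * w x.2.1) * (V x.2.2 * w x.2.2) =
      ∑ p ∈ ((Icc 1 (M₁ * M₂)).sigma fun n => n.divisorsAntidiagonal).image (fun x => x.2),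
        (U p.1 * w p.1) * (V p.2 * w p.2) := by
    rw [sum_image]
    rintro ⟨n, p⟩ hx ⟨m, r⟩ hy hxy
    simp only [coe_sigma, Set.mem_sigma_iff, mem_coe] at hx hy
    simp only at hxy
    subst hxy
    have h3 := (Nat.mem_divisorsAntidiagonal.mp hx.2).1
    have h4 := (Nat.mem_divisorsAntidiagonal.mp hy.2).1
    have : n = m := h3.symm.trans h4
    subst this
    rfl
  rw [h2]
  refine sum_subset ?_ fun p hp hnp => ?_
  · intro p hp
    rw [mem_product, mem_Icc, mem_Icc] at hp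
    obtain ⟨⟨a1, a2⟩, a3, a4⟩ := hp
    refine mem_image.mpr ⟨⟨p.1 * p.2, p⟩, ?_, rfl⟩
    refine mem_sigma.mpr ⟨mem_Icc.mpr ⟨Nat.mul_pos a1 a3, Nat.mul_le_mul a2 a4⟩, ?_⟩
    exact Nat.mem_divisorsAntidiagonal.mpr ⟨rfl, (Nat.mul_pos a1 a3).ne'⟩
  · obtain ⟨⟨n, r⟩, hx, rfl⟩ := mem_image.mp hp
    obtain ⟨hn, hr⟩ := mem_sigma.mp hx
    obtain ⟨h3, h4⟩ := Nat.mem_divisorsAntidiagonal.mp hr
    simp only at h3 h4 hn hr hnp ⊢
    have hp1 : r.1 ≠ 0 := left_ne_zero_of_mul (h3 ▸ h4)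
    have hp2 : r.2 ≠ 0 := right_ne_zero_of_mul (h3 ▸ h4)
    rw [mem_product, mem_Icc, mem_Icc] at hnp
    by_cases h5 : r.1 ≤ M₁
    · have h6 : ¬ r.2 ≤ M₂ := fun h6 => hnp ⟨⟨by omega, h5⟩, by omega, h6⟩
      rw [hV _ (by omega)]
      ring
    · rw [hU _ (by omega)]
      ring

/-- the mean square of the coefficients -/
theorem coef_sq {a : ArithmeticFunction ℂ} {c : ℕ → ℂ} (h : LD a c) {C : ℝ} (hC : HB c C) {k : ℕ}
    (hk : 8 * C ≤ k) {f₁ f₂ g₁ g₂ : ℝ → ℂ} (h₁ : Fr f₁ g₁) (h₂ : Fr f₂ g₂) :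
    ∃ A : ℝ, 0 ≤ A ∧ ∀ R δ : ℝ, 0 < R → 1 / 2 ≤ R * δ → ∀ (v : ℝ) (X : ℕ),
      ∑ n ∈ Icc 1 X, ‖(Real.exp (-((1 / 2 + δ) * Real.log n)) : ℂ) *
        ∑ p ∈ n.divisorsAntidiagonal, (a p.1 * f₁ (Real.log p.1 / R)) *
          (inv a p.2 * f₂ (Real.log p.2 / R) * Complex.exp ((v * Real.log p.2 : ℝ) * Complex.I))‖ ^ 2
      ≤ A * (1 + R * |v|) ^ k := by
  obtain ⟨hg1, hi1, hf1⟩ := h₁
  obtain ⟨hg2, hi2, hf2⟩ := h₂
  obtain ⟨W, hW⟩ : ∃ W : ℝ × ℝ → ℝ, W = fun p => ((1 + |p.1|) ^ k * ‖g₁ p.1‖) *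
    ((1 + |p.2|) ^ k * ‖g₂ p.2‖) := ⟨_, rfl⟩
  have hWi : Integrable W (volume.prod volume) := by
    rw [hW]
    exact (hi1 k).mul_prod (hi2 k)
  have hW0 : ∀ p, 0 ≤ W p := fun p => by rw [hW]; positivity
  obtain ⟨Q, hQ⟩ : ∃ Q : ℝ, Q = (2 * Real.pi) ^ (2 * k) * ∫ p, W p ∂(volume.prod volume) := ⟨_, rfl⟩
  have hpi : 1 ≤ 2 * Real.pi := by linarith [Real.pi_gt_three]
  have hQ0 : 0 ≤ Q := by
    rw [hQ]
    have : 0 ≤ ∫ p, W p ∂(volume.prod volume) := integral_nonneg hW0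
    positivity
  refine ⟨Q ^ 2, by positivity, fun R δ hR hRδ v X => ?_⟩
  have hδ : 0 < δ := by
    by_contra h'
    push Not at h'
    have : R * δ ≤ 0 := mul_nonpos_of_nonneg_of_nonpos hR.le h'
    linarith
  -- the vector
  obtain ⟨y₁, hy₁⟩ : ∃ y₁ : ℝ × ℝ → ℝ, y₁ = fun p => 2 * Real.pi * p.1 / R := ⟨_, rfl⟩
  obtain ⟨y₂, hy₂⟩ : ∃ y₂ : ℝ × ℝ → ℝ, y₂ = fun p => 2 * Real.pi * p.2 / R + v := ⟨_, rfl⟩
  obtain ⟨V, hV⟩ : ∃ V : ℕ → ℝ × ℝ → ℂ, V = fun (n : ℕ) (p : ℝ × ℝ) =>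
    (Real.exp (-((1 / 2 + δ) * Real.log (n : ℝ))) : ℂ) * qt a (y₁ p) (y₂ p) n := ⟨_, rfl⟩
  obtain ⟨u, hu⟩ : ∃ u : ℕ → ℂ, u = fun (n : ℕ) =>
        (Real.exp (-((1 / 2 + δ) * Real.log (n : ℝ))) : ℂ) *
        ∑ p ∈ n.divisorsAntidiagonal, (a p.1 * f₁ (Real.log p.1 / R)) *
          (inv a p.2 * f₂ (Real.log p.2 / R) *
            Complex.exp ((v * Real.log p.2 : ℝ) * Complex.I)) := ⟨_, rfl⟩
  obtain ⟨G, hG⟩ : ∃ G : ℝ × ℝ → ℂ, G = fun p => g₁ p.1 * g₂ p.2 := ⟨_, rfl⟩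
  have hgi1 : Integrable g₁ := by
    have := hi1 0
    simp only [pow_zero, one_mul] at this
    exact (integrable_norm_iff hg1.aestronglyMeasurable).mp this
  have hgi2 : Integrable g₂ := by
    have := hi2 0
    simp only [pow_zero, one_mul] at this
    exact (integrable_norm_iff hg2.aestronglyMeasurable).mp this
  -- bounded continuous multiples of `g₁`, `g₂`
  have hmul : ∀ (g : ℝ → ℂ), Integrable g → ∀ y : ℝ, Integrable fun u : ℝ => g u *
      Complex.exp ((y * u : ℝ) * Complex.I) := by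
    intro g hg y
    refine hg.mul_bdd (c := 1) ?_ (Eventually.of_forall fun u => ?_)
    · exact (by fun_prop : Continuous fun u : ℝ => Complex.exp ((y * u : ℝ) * Complex.I)).aestronglyMeasurable
    · rw [Complex.norm_exp_ofReal_mul_I]
  have hpair : ∀ (k l : ℕ), Integrable (fun p : ℝ × ℝ => G p *
      (Complex.exp ((y₁ p * Real.log k : ℝ) * Complex.I) *
        Complex.exp ((y₂ p * Real.log l : ℝ) * Complex.I))) (volume.prod volume) ∧
      ∫ p, G p * (Complex.exp ((y₁ p * Real.log k : ℝ) * Complex.I) *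
        Complex.exp ((y₂ p * Real.log l : ℝ) * Complex.I)) ∂(volume.prod volume) =
      f₁ (Real.log k / R) * (f₂ (Real.log l / R) *
        Complex.exp ((v * Real.log l : ℝ) * Complex.I)) := by
    intro k l
    have e1 : ∀ p : ℝ × ℝ, G p * (Complex.exp ((y₁ p * Real.log k : ℝ) * Complex.I) *
        Complex.exp ((y₂ p * Real.log l : ℝ) * Complex.I)) =
        (g₁ p.1 * Complex.exp ((2 * Real.pi * (Real.log k / R) * p.1 : ℝ) * Complex.I)) *
        ((g₂ p.2 * Complex.exp ((2 * Real.pi * (Real.log l / R) * p.2 : ℝ) * Complex.I)) *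
          Complex.exp ((v * Real.log l : ℝ) * Complex.I)) := by
      intro p
      have e2 : y₁ p * Real.log k = 2 * Real.pi * (Real.log k / R) * p.1 := by
        rw [hy₁]; ring
      have e3 : Complex.exp ((y₂ p * Real.log l : ℝ) * Complex.I) =
          Complex.exp ((2 * Real.pi * (Real.log l / R) * p.2 : ℝ) * Complex.I) *
          Complex.exp ((v * Real.log l : ℝ) * Complex.I) := by
        rw [← Complex.exp_add, hy₂]
        congr 1
        push_cast
        ring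
      rw [e2, e3, hG]
      ring
    simp_rw [e1]
    refine ⟨(hmul g₁ hgi1 _).mul_prod ((hmul g₂ hgi2 _).mul_const _), ?_⟩
    rw [integral_prod_mul (μ := volume) (ν := volume)
      (fun x : ℝ => g₁ x * Complex.exp ((2 * Real.pi * (Real.log k / R) * x : ℝ) * Complex.I))
      (fun x : ℝ => (g₂ x * Complex.exp ((2 * Real.pi * (Real.log l / R) * x : ℝ) * Complex.I)) *
          Complex.exp ((v * Real.log l : ℝ) * Complex.I)), integral_mul_const, hf1, hf2]
    congr 1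
    · refine integral_congr_ae (Eventually.of_forall fun x => ?_)
      simp only
      congr 3
      ring
    · congr 1
      refine integral_congr_ae (Eventually.of_forall fun x => ?_)
      simp only
      congr 3
      ring
  have hVn : ∀ n : ℕ, ∀ p, G p * V n p = (Real.exp (-((1 / 2 + δ) * Real.log n)) : ℂ) *
      ∑ q ∈ n.divisorsAntidiagonal, (a q.1 * inv a q.2) * (G p *
        (Complex.exp ((y₁ p * Real.log q.1 : ℝ) * Complex.I) *
        Complex.exp ((y₂ p * Real.log q.2 : ℝ) * Complex.I))) := by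
    intro n p
    rw [hV]
    simp only
    unfold qt
    rw [mul_apply]
    simp only [tw_apply]
    rw [mul_left_comm, mul_sum]
    congr 1
    refine sum_congr rfl fun q _ => ?_
    ring
  have hVi : ∀ n : ℕ, Integrable (fun p => G p * V n p) (volume.prod volume) := by
    intro n
    simp_rw [hVn n]
    refine Integrable.const_mul ?_ _
    refine integrable_finsetSum _ fun q _ => ?_
    exact (hpair q.1 q.2).1.const_mul _
  have hun : ∀ n : ℕ, ∫ p, G p * V n p ∂(volume.prod volume) = u n := by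
    intro n
    simp_rw [hVn n]
    rw [integral_const_mul, integral_finsetSum _ fun q _ => (hpair q.1 q.2).1.const_mul _, hu]
    simp only
    congr 1
    refine sum_congr rfl fun q _ => ?_
    rw [integral_const_mul, (hpair q.1 q.2).2]
    ring
  -- the norm of the vector
  have hVK : ∀ p, ∑ n ∈ Icc 1 X, ‖V n p‖ ^ 2 ≤
      (((1 + R * |v|) * (2 * Real.pi) ^ 2) * ((1 + |p.1|) * (1 + |p.2|))) ^ k := by
    intro p
    have h1 := qt_sq h hC hk X (y₁ p) (y₂ p) δ hδ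
    have e1 : ∀ n ∈ Icc 1 X, ‖V n p‖ ^ 2 = ‖qt a (y₁ p) (y₂ p) n‖ ^ 2 *
        Real.exp (-((1 + 2 * δ) * Real.log n)) := by
      intro n _
      rw [hV]
      simp only
      rw [norm_mul, mul_pow, Complex.norm_real, Real.norm_of_nonneg (Real.exp_pos _).le,
        ← Real.exp_nat_mul, mul_comm]
      congr 2
      push_cast
      ring
    rw [sum_congr rfl e1]
    refine h1.trans (pow_le_pow_left₀ (by positivity) ?_ k)
    have h2 : |y₁ p - y₂ p| / (2 * δ) ≤ R * |y₁ p - y₂ p| := by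
      rw [div_le_iff₀ (by linarith)]
      have h3 : 0 ≤ |y₁ p - y₂ p| := abs_nonneg _
      nlinarith
    have h4 : R * |y₁ p - y₂ p| ≤ 2 * Real.pi * |p.1| + 2 * Real.pi * |p.2| + R * |v| := by
      have e2 : R * (y₁ p - y₂ p) = 2 * Real.pi * p.1 - 2 * Real.pi * p.2 - R * v := by
        rw [hy₁, hy₂]
        field_simp
        ring
      have e3 : R * |y₁ p - y₂ p| = |R * (y₁ p - y₂ p)| := by
        rw [abs_mul, abs_of_pos hR]
      rw [e3, e2]
      refine (abs_sub _ _).trans ?_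
      refine (add_le_add_left (abs_sub _ _) _).trans (le_of_eq ?_)
      rw [abs_mul (2 * Real.pi), abs_mul (2 * Real.pi), abs_mul R, abs_of_pos hR,
        abs_of_pos (by linarith : (0 : ℝ) < 2 * Real.pi)]
    have a1 := abs_nonneg p.1
    have a2 := abs_nonneg p.2
    have a3 : 0 ≤ R * |v| := by positivity
    have a4 : 0 ≤ |p.1| * |p.2| := by positivity
    have a5 : 0 ≤ (R * |v|) * (|p.1| + |p.2| + |p.1| * |p.2|) := by positivity
    have h5 : 1 + R * |y₁ p - y₂ p| ≤ (1 + R * |v|) * (2 * Real.pi) * ((1 + |p.1|) * (1 + |p.2|)) := by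
      nlinarith
    have h6 : (1 + R * |v|) * (2 * Real.pi) * ((1 + |p.1|) * (1 + |p.2|)) ≤
        (1 + R * |v|) * (2 * Real.pi) ^ 2 * ((1 + |p.1|) * (1 + |p.2|)) := by
      gcongr
      nlinarith
    linarith
  -- duality
  obtain ⟨A, hA⟩ : ∃ A : ℝ, A = ∑ n ∈ Icc 1 X, ‖u n‖ ^ 2 := ⟨_, rfl⟩
  have hA0 : 0 ≤ A := by rw [hA]; positivity
  obtain ⟨B, hB⟩ : ∃ B : ℝ, B = Real.sqrt ((1 + R * |v|) ^ k) * Q := ⟨_, rfl⟩
  have hB0 : 0 ≤ B := by rw [hB]; positivity
  have hAB : A ≤ Real.sqrt A * B := by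
    have e1 : (A : ℂ) = ∫ p, G p * ∑ n ∈ Icc 1 X, (starRingEnd ℂ) (u n) * V n p
        ∂(volume.prod volume) := by
      have e2 : ∀ p, G p * ∑ n ∈ Icc 1 X, (starRingEnd ℂ) (u n) * V n p =
          ∑ n ∈ Icc 1 X, (starRingEnd ℂ) (u n) * (G p * V n p) := by
        intro p
        rw [mul_sum]
        refine sum_congr rfl fun n _ => ?_
        ring
      simp_rw [e2]
      rw [integral_finsetSum _ fun n _ => (hVi n).const_mul _, hA]
      push_cast
      refine sum_congr rfl fun n _ => ?_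
      rw [integral_const_mul, hun, ← Complex.normSq_eq_conj_mul_self, Complex.normSq_eq_norm_sq]
      push_cast
      ring
    have e3 : A = ‖∫ p, G p * ∑ n ∈ Icc 1 X, (starRingEnd ℂ) (u n) * V n p
        ∂(volume.prod volume)‖ := by rw [← e1, Complex.norm_real, Real.norm_of_nonneg hA0]
    refine (e3.le.trans (norm_integral_le_integral_norm _)).trans ?_
    have e4 : ∀ p, ‖G p * ∑ n ∈ Icc 1 X, (starRingEnd ℂ) (u n) * V n p‖ ≤
        Real.sqrt A * (Real.sqrt ((1 + R * |v|) ^ k) * ((2 * Real.pi) ^ (2 * k) * W p)) := by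
      intro p
      have b1 : ‖∑ n ∈ Icc 1 X, (starRingEnd ℂ) (u n) * V n p‖ ≤
          Real.sqrt A * Real.sqrt (∑ n ∈ Icc 1 X, ‖V n p‖ ^ 2) := by
        refine (norm_sum_le _ _).trans ?_
        have := Real.sum_mul_le_sqrt_mul_sqrt (Icc 1 X) (fun n => ‖u n‖) (fun n => ‖V n p‖)
        rw [← hA] at this
        refine le_trans (le_of_eq ?_) this
        refine sum_congr rfl fun n _ => ?_
        rw [norm_mul, RCLike.norm_conj]
      have b2 : Real.sqrt (∑ n ∈ Icc 1 X, ‖V n p‖ ^ 2) ≤ Real.sqrt ((1 + R * |v|) ^ k) *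
          ((2 * Real.pi) ^ (2 * k) * ((1 + |p.1|) ^ k * (1 + |p.2|) ^ k)) := by
        refine (Real.sqrt_le_sqrt (hVK p)).trans ?_
        have e5 : (((1 + R * |v|) * (2 * Real.pi) ^ 2) * ((1 + |p.1|) * (1 + |p.2|))) ^ k =
            (1 + R * |v|) ^ k * ((2 * Real.pi) ^ (2 * k) * ((1 + |p.1|) ^ k * (1 + |p.2|) ^ k)) := by
          rw [mul_pow ((1 + R * |v|) * (2 * Real.pi) ^ 2), mul_pow (1 + R * |v|),
            mul_pow (1 + |p.1|), ← pow_mul]
          ring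
        rw [e5, Real.sqrt_mul (by positivity)]
        refine mul_le_mul_of_nonneg_left ?_ (Real.sqrt_nonneg _)
        have b3 : 1 ≤ (2 * Real.pi) ^ (2 * k) * ((1 + |p.1|) ^ k * (1 + |p.2|) ^ k) := by
          have c1 : 1 ≤ (2 * Real.pi) ^ (2 * k) := one_le_pow₀ hpi
          have c2 : 1 ≤ (1 + |p.1|) ^ k := one_le_pow₀ (by linarith [abs_nonneg p.1])
          have c3 : 1 ≤ (1 + |p.2|) ^ k := one_le_pow₀ (by linarith [abs_nonneg p.2])
          exact one_le_mul_of_one_le_of_one_le c1 (one_le_mul_of_one_le_of_one_le c2 c3)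
        rw [Real.sqrt_le_left (by linarith)]
        nlinarith
      rw [norm_mul]
      have b4 : ‖G p‖ = ‖g₁ p.1‖ * ‖g₂ p.2‖ := by rw [hG]; exact norm_mul _ _
      calc ‖G p‖ * ‖∑ n ∈ Icc 1 X, (starRingEnd ℂ) (u n) * V n p‖ ≤
          (‖g₁ p.1‖ * ‖g₂ p.2‖) * (Real.sqrt A * (Real.sqrt ((1 + R * |v|) ^ k) *
          ((2 * Real.pi) ^ (2 * k) * ((1 + |p.1|) ^ k * (1 + |p.2|) ^ k)))) := by
            rw [b4]
            refine mul_le_mul_of_nonneg_left (b1.trans ?_) (by positivity)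
            exact mul_le_mul_of_nonneg_left b2 (Real.sqrt_nonneg _)
        _ = _ := by rw [hW]; ring
    have e6 : Integrable (fun p => Real.sqrt A * (Real.sqrt ((1 + R * |v|) ^ k) *
        ((2 * Real.pi) ^ (2 * k) * W p))) (volume.prod volume) :=
      ((hWi.const_mul _).const_mul _).const_mul _
    refine (integral_mono_of_nonneg (Eventually.of_forall fun p => norm_nonneg _) e6
      (Eventually.of_forall e4)).trans (le_of_eq ?_)
    rw [integral_const_mul, integral_const_mul, integral_const_mul, hB, hQ]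
  have hfin : A ≤ B ^ 2 := by
    have h1 : Real.sqrt A ≤ B := by
      rcases eq_or_lt_of_le (Real.sqrt_nonneg A) with h' | h'
      · rw [← h']; exact hB0
      · have h2 : Real.sqrt A * Real.sqrt A ≤ Real.sqrt A * B := by
          rw [Real.mul_self_sqrt hA0]; exact hAB
        exact le_of_mul_le_mul_left h2 h'
    calc A = Real.sqrt A ^ 2 := (Real.sq_sqrt hA0).symm
      _ ≤ B ^ 2 := pow_le_pow_left₀ (Real.sqrt_nonneg _) h1 2
  have e7 : B ^ 2 = Q ^ 2 * (1 + R * |v|) ^ k := by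
    rw [hB, mul_pow, Real.sq_sqrt (by positivity)]
    ring
  rw [e7, hA, hu] at hfin
  exact hfin

end Pool.Agent.V8H15.DN
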