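import Pool.Agent.V8H15.DN.Pol
import Pool.Agent.N880.HD.Gau
import Pool.Agent.Helper112.MultLS

/-!
# The large sieve inequality for primitive characters, with an integral over a window

Project DN (helper15).
-/

set_option autoImplicit false

open Finset Filter Topology MeasureTheory ArithmeticFunction

namespace Pool.Agent.V8H15.DN

open Pool.Agent.Helper112 (ee)

open Classical in
/-- the large sieve inequality for coefficients in a block -/
theorem block_ls (M K F : ℕ) (α : ℕ → ℂ) (hα : ∀ n, n ≤ M → α n = 0) :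
    ∑ f ∈ Icc 1 F, ((f : ℝ) / (Nat.totient f : ℝ)) *
      ∑ χ ∈ (univ : Finset (DirichletCharacter ℂ f)).filter (fun χ => χ.IsPrimitive),
        ‖∑ n ∈ Icc 1 (M + K), α n * χ (n : ZMod f)‖ ^ 2
      ≤ 6 * (K + (F : ℝ) ^ 2) * ∑ n ∈ Icc 1 (M + K), ‖α n‖ ^ 2 := by
  have hsum : ∀ {β : Type} [AddCommMonoid β] (h : ℕ → β), (∀ n, n ≤ M → h n = 0) →
      ∑ n ∈ Icc 1 (M + K), h n = ∑ m ∈ Icc 1 K, h (M + m) := by
    intro β _ h hh
    have h1 : Icc 1 K = (Ioc M (M + K)).preimage (fun m => M + m)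
        (fun a _ b _ hab => Nat.add_left_cancel hab) := by
      ext m
      simp only [mem_Icc, mem_preimage, mem_Ioc]
      omega
    have h2 : ∑ m ∈ Icc 1 K, h (M + m) = ∑ n ∈ Ioc M (M + K), h n := by
      refine sum_bij (fun m _ => M + m) ?_ ?_ ?_ ?_
      · intro m hm
        rw [mem_Icc] at hm
        rw [mem_Ioc]
        omega
      · intro a _ b _ hab
        exact Nat.add_left_cancel hab
      · intro n hn
        rw [mem_Ioc] at hn
        exact ⟨n - M, by rw [mem_Icc]; omega, by omega⟩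
      · intro m _
        rfl
    rw [h2]
    refine (sum_subset ?_ fun n hn hn2 => ?_).symm
    · intro n hn
      rw [mem_Ioc] at hn
      rw [mem_Icc]
      omega
    · rw [mem_Icc] at hn
      rw [mem_Ioc] at hn2
      exact hh n (by omega)
  have h1 := Pool.Agent.Helper112.additive_large_sieve K F (fun m => α (M + m))
  rw [hsum (fun n => ‖α n‖ ^ 2) (fun n hn => by rw [hα n hn]; simp)]
  refine le_trans (sum_le_sum fun f hf => ?_) h1
  rw [mem_Icc] at hf
  have : NeZero f := ⟨by omega⟩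
  refine (Pool.Agent.Helper112.MLS.prim_bound f (M + K) α).trans ?_
  rw [Pool.Agent.Helper112.MLS.sum_units]
  refine le_of_eq (sum_congr rfl fun a _ => ?_)
  rw [hsum (fun n => α n * ee (n * a / f)) (fun n hn => by rw [hα n hn]; simp)]
  have h2 : ∑ m ∈ Icc 1 K, α (M + m) * ee (((M + m : ℕ) : ℝ) * a / f) =
      ee ((M : ℝ) * a / f) * ∑ m ∈ Icc 1 K, α (M + m) * ee ((m : ℝ) * a / f) := by
    rw [mul_sum]
    refine sum_congr rfl fun m _ => ?_
    have h3 : ee (((M + m : ℕ) : ℝ) * a / f) = ee ((M : ℝ) * a / f) * ee ((m : ℝ) * a / f) := by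
      unfold Pool.Agent.Helper112.ee
      rw [← Complex.exp_add]
      congr 1
      push_cast
      ring
    rw [h3]
    ring
  rw [h2, norm_mul]
  have h4 : ‖ee ((M : ℝ) * a / f)‖ = 1 := by
    unfold Pool.Agent.Helper112.ee
    rw [show (2 * (Real.pi : ℂ) * (((M : ℝ) * a / f : ℝ) : ℂ) * Complex.I) =
      ((2 * Real.pi * ((M : ℝ) * a / f) : ℝ) : ℂ) * Complex.I by push_cast; ring]
    exact Complex.norm_exp_ofReal_mul_I _
  rw [h4, one_mul]

open Classical in
/-- the family: primitive characters of conductor at most `Q`, prime to `N` -/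
noncomputable def idx (N Q : ℕ) : Finset (Σ q : ℕ, DirichletCharacter ℂ q) :=
  ((Icc 1 Q).filter (fun q => Nat.Coprime q N)).sigma
    fun q => (univ : Finset (DirichletCharacter ℂ q)).filter fun χ => χ.IsPrimitive

/-- the values -/
noncomputable def gv (i : Σ q : ℕ, DirichletCharacter ℂ q) (n : ℕ) : ℂ := i.2 (n : ZMod i.1)

open Classical in
lemma mem_idx {N Q : ℕ} {i : Σ q : ℕ, DirichletCharacter ℂ q} :
    i ∈ idx N Q ↔ (1 ≤ i.1 ∧ i.1 ≤ Q) ∧ Nat.Coprime i.1 N ∧ i.2.IsPrimitive := by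
  unfold idx
  simp only [mem_sigma, mem_filter, mem_Icc, mem_univ, true_and, and_assoc]

open Classical in
lemma idx_card (N Q : ℕ) : ((idx N Q).card : ℝ) ≤ (Q : ℝ) ^ 2 := by
  unfold idx
  rw [card_sigma]
  push_cast
  calc ∑ q ∈ (Icc 1 Q).filter (fun q => Nat.Coprime q N),
        (((univ : Finset (DirichletCharacter ℂ q)).filter fun χ => χ.IsPrimitive).card : ℝ) ≤
      ∑ q ∈ Icc 1 Q, (Q : ℝ) := by
        refine le_trans (sum_le_sum fun q hq => ?_)
          (sum_le_sum_of_subset_of_nonneg (filter_subset _ _) fun _ _ _ => Nat.cast_nonneg _)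
        rw [mem_filter, mem_Icc] at hq
        have : NeZero q := ⟨by omega⟩
        have h1 : ((univ : Finset (DirichletCharacter ℂ q)).filter fun χ => χ.IsPrimitive).card ≤
            Q := by
          refine (card_filter_le _ _).trans ?_
          rw [card_univ, ← Nat.card_eq_fintype_card,
            DirichletCharacter.card_eq_totient_of_hasEnoughRootsOfUnity]
          exact (Nat.totient_le q).trans hq.1.2
        exact_mod_cast h1
    _ = (Q : ℝ) ^ 2 := by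
        rw [sum_const, Nat.card_Icc, nsmul_eq_mul]
        simp
        ring

open Classical in
/-- block version for the family -/
theorem idx_block (N Q M K : ℕ) (α : ℕ → ℂ) (hα : ∀ n, n ≤ M → α n = 0) :
    ∑ i ∈ idx N Q, ‖∑ n ∈ Icc 1 (M + K), α n * gv i n‖ ^ 2 ≤
      6 * (K + (Q : ℝ) ^ 2) * ∑ n ∈ Icc 1 (M + K), ‖α n‖ ^ 2 := by
  refine le_trans ?_ (block_ls M K Q α hα)
  unfold idx
  rw [sum_sigma]
  refine le_trans (sum_le_sum fun q hq => ?_)
    (sum_le_sum_of_subset_of_nonneg (filter_subset (fun q => Nat.Coprime q N) (Icc 1 Q))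
      fun q _ _ => by positivity)
  rw [mem_filter, mem_Icc] at hq
  have h1 : 0 < Nat.totient q := Nat.totient_pos.mpr (by omega)
  have h2 : (1 : ℝ) ≤ (q : ℝ) / (Nat.totient q : ℝ) := by
    rw [le_div_iff₀ (by exact_mod_cast h1), one_mul]
    exact_mod_cast Nat.totient_le q
  exact le_mul_of_one_le_left (by positivity) h2

lemma gv_le (i : Σ q : ℕ, DirichletCharacter ℂ q) (n : ℕ) : ‖gv i n‖ ≤ 1 := i.2.norm_le_one _

/-- the coefficient of a twist -/
lemma tw_norm (u : ℂ) (t : ℝ) (n : ℕ) :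
    ‖u * Complex.exp (-(((t * Real.log n : ℝ) : ℂ) * Complex.I))‖ = ‖u‖ := by
  rw [norm_mul]
  have h : -(((t * Real.log n : ℝ) : ℂ) * Complex.I) =
      ((-(t * Real.log n) : ℝ) : ℂ) * Complex.I := by push_cast; ring
  rw [h, Complex.norm_exp_ofReal_mul_I, mul_one]

/-- **short windows** -/
theorem lsp_short (N Q M : ℕ) {H : ℝ} (hH : 0 ≤ H) :
    LSP (idx N Q) gv H (6 * (M + (Q : ℝ) ^ 2) * H) M := by
  intro u t₁
  have hpt : ∀ t : ℝ, ∑ i ∈ idx N Q, ‖∑ n ∈ Icc 1 M, u n * (gv i n *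
      Complex.exp (-(((t * Real.log n : ℝ) : ℂ) * Complex.I)))‖ ^ 2 ≤
      6 * (M + (Q : ℝ) ^ 2) * ∑ n ∈ Icc 1 M, ‖u n‖ ^ 2 := by
    intro t
    have h1 := idx_block N Q 0 M (fun n => if n = 0 then 0 else
      u n * Complex.exp (-(((t * Real.log n : ℝ) : ℂ) * Complex.I))) (fun n hn => by
        simp [Nat.le_zero.mp hn])
    rw [zero_add] at h1
    have e1 : ∀ i : Σ q : ℕ, DirichletCharacter ℂ q, ∑ n ∈ Icc 1 M, (if n = 0 then 0 else
        u n * Complex.exp (-(((t * Real.log n : ℝ) : ℂ) * Complex.I))) * gv i n =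
        ∑ n ∈ Icc 1 M, u n * (gv i n *
          Complex.exp (-(((t * Real.log n : ℝ) : ℂ) * Complex.I))) := by
      intro i
      refine sum_congr rfl fun n hn => ?_
      rw [mem_Icc] at hn
      rw [if_neg (by omega)]
      ring
    have e2 : ∑ n ∈ Icc 1 M, ‖(if n = 0 then 0 else
        u n * Complex.exp (-(((t * Real.log n : ℝ) : ℂ) * Complex.I)))‖ ^ 2 =
        ∑ n ∈ Icc 1 M, ‖u n‖ ^ 2 := by
      refine sum_congr rfl fun n hn => ?_
      rw [mem_Icc] at hn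
      rw [if_neg (by omega), tw_norm]
    rw [e2] at h1
    simp only [e1] at h1
    exact h1
  have hcont : ∀ i : Σ q : ℕ, DirichletCharacter ℂ q, Continuous fun t : ℝ =>
      ‖∑ n ∈ Icc 1 M, u n * (gv i n *
        Complex.exp (-(((t * Real.log n : ℝ) : ℂ) * Complex.I)))‖ ^ 2 := by
    intro i
    fun_prop
  rw [← intervalIntegral.integral_finsetSum fun i _ => (hcont i).intervalIntegrable _ _]
  calc ∫ t in t₁..(t₁ + H), ∑ i ∈ idx N Q, ‖∑ n ∈ Icc 1 M, u n * (gv i n *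
        Complex.exp (-(((t * Real.log n : ℝ) : ℂ) * Complex.I)))‖ ^ 2 ≤
      ∫ t in t₁..(t₁ + H), 6 * (M + (Q : ℝ) ^ 2) * ∑ n ∈ Icc 1 M, ‖u n‖ ^ 2 := by
        refine intervalIntegral.integral_mono_on (by linarith) ?_ ?_ fun t _ => hpt t
        · exact (continuous_finsetSum _ fun i _ => hcont i).intervalIntegrable _ _
        · exact intervalIntegrable_const
    _ = _ := by
        rw [intervalIntegral.integral_const, smul_eq_mul]
        ring

/-- the Fourier transform of the Gaussian -/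
lemma gauss_ft {H : ℝ} (hH : 0 < H) (Δ : ℝ) :
    ∫ s : ℝ, ((Real.exp (-(s ^ 2 / H ^ 2)) : ℝ) : ℂ) *
      Complex.exp (-(((s * Δ : ℝ) : ℂ) * Complex.I)) =
      ((H * √Real.pi * Real.exp (-(H ^ 2 * Δ ^ 2 / 4)) : ℝ) : ℂ) := by
  have hb : 0 < (((1 / H ^ 2 : ℝ) : ℂ)).re := by
    rw [Complex.ofReal_re]; positivity
  have h1 := fourierIntegral_gaussian hb (-(Δ : ℂ))
  have e1 : ∀ s : ℝ, ((Real.exp (-(s ^ 2 / H ^ 2)) : ℝ) : ℂ) *
      Complex.exp (-(((s * Δ : ℝ) : ℂ) * Complex.I)) =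
      Complex.exp (Complex.I * (-(Δ : ℂ)) * s) * Complex.exp (-(((1 / H ^ 2 : ℝ) : ℂ)) * s ^ 2) := by
    intro s
    rw [Complex.ofReal_exp, ← Complex.exp_add, ← Complex.exp_add]
    congr 1
    push_cast
    ring
  simp_rw [e1]
  rw [h1]
  have hHc : (H : ℂ) ≠ 0 := by exact_mod_cast hH.ne'
  have e2 : (Real.pi : ℂ) / ((1 / H ^ 2 : ℝ) : ℂ) = (((H * √Real.pi) ^ 2 : ℝ) : ℂ) := by
    rw [mul_pow, Real.sq_sqrt Real.pi_pos.le]
    push_cast
    field_simp
  have e3 : ((((H * √Real.pi) ^ 2 : ℝ) : ℂ)) ^ (1 / 2 : ℂ) = ((H * √Real.pi : ℝ) : ℂ) := by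
    have h2 : (1 / 2 : ℂ) = ((1 / 2 : ℝ) : ℂ) := by push_cast; rfl
    rw [h2, ← Complex.ofReal_cpow (by positivity), ← Real.sqrt_eq_rpow,
      Real.sqrt_sq (by positivity)]
  rw [e2, e3, Complex.ofReal_mul (H * √Real.pi), Complex.ofReal_exp]
  congr 2
  push_cast
  field_simp

/-- the Gaussian mean square of a finite sum -/
lemma gauss_ms {P : Finset ℕ} (y : ℕ → ℂ) (ℓ : ℕ → ℝ) {H : ℝ} (hH : 0 < H) :
    Integrable (fun s : ℝ => Real.exp (-(s ^ 2 / H ^ 2)) *
      ‖∑ p ∈ P, y p * Complex.exp (-(((s * ℓ p : ℝ) : ℂ) * Complex.I))‖ ^ 2) ∧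
    ∫ s : ℝ, Real.exp (-(s ^ 2 / H ^ 2)) *
      ‖∑ p ∈ P, y p * Complex.exp (-(((s * ℓ p : ℝ) : ℂ) * Complex.I))‖ ^ 2 =
      H * √Real.pi * (∑ p ∈ P, ∑ q ∈ P, y p * (starRingEnd ℂ) (y q) *
        ((Real.exp (-(H ^ 2 * (ℓ p - ℓ q) ^ 2 / 4)) : ℝ) : ℂ)).re := by
  have hgi : Integrable fun s : ℝ => Real.exp (-(s ^ 2 / H ^ 2)) := by
    have := integrable_exp_neg_mul_sq (b := 1 / H ^ 2) (by positivity)
    refine this.congr (Eventually.of_forall fun s => ?_)
    simp only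
    congr 1
    ring
  have hgc : ∀ Δ : ℝ, Integrable fun s : ℝ => ((Real.exp (-(s ^ 2 / H ^ 2)) : ℝ) : ℂ) *
      Complex.exp (-(((s * Δ : ℝ) : ℂ) * Complex.I)) := by
    intro Δ
    refine hgi.ofReal.mul_bdd (c := 1) ?_ (Eventually.of_forall fun s => ?_)
    · exact (by fun_prop : Continuous fun s : ℝ =>
        Complex.exp (-(((s * Δ : ℝ) : ℂ) * Complex.I))).aestronglyMeasurable
    · have := tw_norm 1 s 1
      have h : -(((s * Δ : ℝ) : ℂ) * Complex.I) =
        ((-(s * Δ) : ℝ) : ℂ) * Complex.I := by push_cast; ring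
      rw [h, Complex.norm_exp_ofReal_mul_I]
  have hexp : ∀ s : ℝ, Real.exp (-(s ^ 2 / H ^ 2)) *
      ‖∑ p ∈ P, y p * Complex.exp (-(((s * ℓ p : ℝ) : ℂ) * Complex.I))‖ ^ 2 =
      (∑ p ∈ P, ∑ q ∈ P, (y p * (starRingEnd ℂ) (y q)) *
        (((Real.exp (-(s ^ 2 / H ^ 2)) : ℝ) : ℂ) *
          Complex.exp (-(((s * (ℓ p - ℓ q) : ℝ) : ℂ) * Complex.I)))).re := by
    intro s
    have h1 : ∀ S : ℂ, ‖S‖ ^ 2 = (S * (starRingEnd ℂ) S).re := by
      intro S
      rw [Complex.mul_conj, Complex.ofReal_re, Complex.normSq_eq_norm_sq]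
    rw [h1, ← Complex.re_ofReal_mul, map_sum, sum_mul_sum, mul_sum]
    congr 1
    refine sum_congr rfl fun p _ => ?_
    rw [mul_sum]
    refine sum_congr rfl fun q _ => ?_
    have h2 : (starRingEnd ℂ) (Complex.exp (-(((s * ℓ q : ℝ) : ℂ) * Complex.I))) =
        Complex.exp (((s * ℓ q : ℝ) : ℂ) * Complex.I) := by
      rw [← Complex.exp_conj]
      congr 1
      rw [map_neg, map_mul, Complex.conj_ofReal, Complex.conj_I]
      ring
    have h3 : Complex.exp (-(((s * (ℓ p - ℓ q) : ℝ) : ℂ) * Complex.I)) =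
        Complex.exp (-(((s * ℓ p : ℝ) : ℂ) * Complex.I)) *
          Complex.exp (((s * ℓ q : ℝ) : ℂ) * Complex.I) := by
      rw [← Complex.exp_add]
      congr 1
      push_cast
      ring
    rw [map_mul, h2, h3]
    ring
  have hint : Integrable fun s : ℝ => ∑ p ∈ P, ∑ q ∈ P, (y p * (starRingEnd ℂ) (y q)) *
        (((Real.exp (-(s ^ 2 / H ^ 2)) : ℝ) : ℂ) *
          Complex.exp (-(((s * (ℓ p - ℓ q) : ℝ) : ℂ) * Complex.I))) :=
    integrable_finsetSum _ fun p _ => integrable_finsetSum _ fun q _ => (hgc _).const_mul _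
  simp_rw [hexp]
  refine ⟨hint.re, ?_⟩
  have h1 : ∫ s : ℝ, (∑ p ∈ P, ∑ q ∈ P, (y p * (starRingEnd ℂ) (y q)) *
        (((Real.exp (-(s ^ 2 / H ^ 2)) : ℝ) : ℂ) *
          Complex.exp (-(((s * (ℓ p - ℓ q) : ℝ) : ℂ) * Complex.I)))).re =
      (∫ s : ℝ, ∑ p ∈ P, ∑ q ∈ P, (y p * (starRingEnd ℂ) (y q)) *
        (((Real.exp (-(s ^ 2 / H ^ 2)) : ℝ) : ℂ) *
          Complex.exp (-(((s * (ℓ p - ℓ q) : ℝ) : ℂ) * Complex.I)))).re := integral_re hint
  rw [h1, integral_finsetSum _ fun p _ => integrable_finsetSum _ fun q _ => (hgc _).const_mul _,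
    ← Complex.re_ofReal_mul, mul_sum]
  congr 1
  refine sum_congr rfl fun p _ => ?_
  rw [integral_finsetSum _ fun q _ => (hgc _).const_mul _, mul_sum]
  refine sum_congr rfl fun q _ => ?_
  rw [integral_const_mul, gauss_ft hH]
  push_cast
  ring

end Pool.Agent.V8H15.DN
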