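import Pool.Agent.V8H15.DN.Ser
import Pool.Agent.N786.D.Jen2

/-!
# The mean square of the mollified Dirichlet polynomials

Project DN (helper15).
-/

set_option autoImplicit false

open Finset Filter Topology MeasureTheory ArithmeticFunction

namespace Pool.Agent.V8H15.DN

open Pool.Agent.N786.D (Fr Cutf JJ)
open Pool.Agent.R399.TW (pt pt_re pt_im pt_cont)

/-- the large sieve inequality for the family `g i`, `i ∈ S`, windows of length `H`, length `M`,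
constant `P` -/
def LSP {ι : Type} (S : Finset ι) (g : ι → ℕ → ℂ) (H P : ℝ) (M : ℕ) : Prop :=
  ∀ (u : ℕ → ℂ) (t₁ : ℝ), ∑ i ∈ S, ∫ t in t₁..(t₁ + H),
    ‖∑ n ∈ Icc 1 M, u n * (g i n * Complex.exp (-(((t * Real.log n : ℝ) : ℂ) * Complex.I)))‖ ^ 2 ≤
      P * ∑ n ∈ Icc 1 M, ‖u n‖ ^ 2

lemma ex_pt (x t : ℝ) (n : ℕ) :
    ex (pt x t) n = (Real.exp (-(x * Real.log n)) : ℂ) *
      Complex.exp (-(((t * Real.log n : ℝ) : ℂ) * Complex.I)) := by
  unfold ex pt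
  rw [Complex.ofReal_exp, ← Complex.exp_add]
  congr 1
  push_cast
  ring

/-- **the mean square of the mollified Dirichlet polynomials** -/
theorem ls_JJ {a : ArithmeticFunction ℂ} {c : ℕ → ℂ} (h : LD a c) {C : ℝ} (hC : HB c C) {k : ℕ}
    (hk : 8 * C ≤ k) {α₁ α₂ β₁ β₂ : ℝ} {φ θ : ℝ → ℝ}
    (hφ : Cutf α₁ α₂ φ) (hθ : Cutf β₁ β₂ θ) (c₀ : ℝ) :
    ∃ A : ℝ, 0 ≤ A ∧ ∀ (R δ : ℝ), 0 < R → 1 / 2 ≤ R * δ →
      ∀ {ι : Type} (S : Finset ι) (g : ι → ℕ → ℂ) (H P : ℝ), (∀ i ∈ S, CM (g i)) → 0 ≤ H → 0 ≤ P →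
      LSP S g H P (⌊Real.exp (α₂ * R)⌋₊ * ⌊Real.exp (β₂ * R)⌋₊) →
      ∀ t₀ v₁ : ℝ, JJ S (fun i => Dp φ R ⌊Real.exp (α₂ * R)⌋₊ a (g i))
        (fun i => Dp θ R ⌊Real.exp (β₂ * R)⌋₊ (inv a) (g i)) (1 / 2 + δ - c₀ / R) (1 / 2 + δ)
        H t₀ v₁ ≤ ENNReal.ofReal (P * A * (1 + R * |v₁|) ^ k) := by
  obtain ⟨g₁, h₁⟩ := hφ.fr c₀
  obtain ⟨g₂, h₂⟩ := hθ.fr 0
  obtain ⟨A, hA0, hA⟩ := coef_sq h hC hk h₁ h₂
  refine ⟨A, hA0, ?_⟩
  intro R δ hR hRδ ι S g H P hg hH hP hls t₀ v₁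
  obtain ⟨M₁, hM₁⟩ : ∃ M₁ : ℕ, M₁ = ⌊Real.exp (α₂ * R)⌋₊ := ⟨_, rfl⟩
  obtain ⟨M₂, hM₂⟩ : ∃ M₂ : ℕ, M₂ = ⌊Real.exp (β₂ * R)⌋₊ := ⟨_, rfl⟩
  rw [← hM₁, ← hM₂] at hls ⊢
  -- the coefficients
  obtain ⟨U, hU⟩ : ∃ U : ℕ → ℂ, ∀ n, U n = (Real.exp (-((1 / 2 + δ) * Real.log n)) : ℂ) *
    (a n * ((φ (Real.log n / R) * Real.exp (c₀ * (Real.log n / R)) : ℝ) : ℂ)) := ⟨_, fun n => rfl⟩
  obtain ⟨V, hV⟩ : ∃ V : ℕ → ℂ, ∀ n, V n = (Real.exp (-((1 / 2 + δ) * Real.log n)) : ℂ) *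
    (inv a n * ((θ (Real.log n / R) * Real.exp (0 * (Real.log n / R)) : ℝ) : ℂ) *
      Complex.exp ((v₁ * Real.log n : ℝ) * Complex.I)) := ⟨_, fun n => rfl⟩
  have z1 : ∀ n, M₁ < n → U n = 0 := by
    intro n hn
    rw [hM₁] at hn
    rw [hU, cut_zero hφ hR hn]
    simp
  have z2 : ∀ n, M₂ < n → V n = 0 := by
    intro n hn
    rw [hM₂] at hn
    rw [hV, cut_zero hθ hR hn]
    simp
  have hprod : ∀ i ∈ S, ∀ t : ℝ, Dp φ R M₁ a (g i) (pt (1 / 2 + δ - c₀ / R) t) *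
      Dp θ R M₂ (inv a) (g i) (pt (1 / 2 + δ) (t - v₁)) =
      ∑ n ∈ Icc 1 (M₁ * M₂), (∑ p ∈ n.divisorsAntidiagonal, U p.1 * V p.2) *
        (g i n * Complex.exp (-(((t * Real.log n : ℝ) : ℂ) * Complex.I))) := by
    intro i hi t
    rw [← prod_dp M₁ M₂ U V
      (fun n => g i n * Complex.exp (-(((t * Real.log n : ℝ) : ℂ) * Complex.I))) z1 z2 ?_]
    · unfold Dp
      congr 1
      · refine sum_congr rfl fun n _ => ?_
        rw [ex_pt, hU]
        have e1 : Real.exp (-((1 / 2 + δ - c₀ / R) * Real.log n)) =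
            Real.exp (-((1 / 2 + δ) * Real.log n)) * Real.exp (c₀ * (Real.log n / R)) := by
          rw [← Real.exp_add]
          congr 1
          ring
        rw [e1]
        push_cast
        ring
      · refine sum_congr rfl fun n _ => ?_
        rw [ex_pt, hV]
        have e2 : Complex.exp (-((((t - v₁) * Real.log n : ℝ) : ℂ) * Complex.I)) =
            Complex.exp ((v₁ * Real.log n : ℝ) * Complex.I) *
            Complex.exp (-(((t * Real.log n : ℝ) : ℂ) * Complex.I)) := by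
          rw [← Complex.exp_add]
          congr 1
          push_cast
          ring
        rw [e2, zero_mul, Real.exp_zero, mul_one]
        ring
    · intro m n hm hn
      rw [(hg i hi).mul]
      have e3 : Complex.exp (-(((t * Real.log ((m * n : ℕ) : ℝ) : ℝ) : ℂ) * Complex.I)) =
          Complex.exp (-(((t * Real.log m : ℝ) : ℂ) * Complex.I)) *
          Complex.exp (-(((t * Real.log n : ℝ) : ℂ) * Complex.I)) := by
        rw [← Complex.exp_add, Nat.cast_mul,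
          Real.log_mul (by exact_mod_cast hm) (by exact_mod_cast hn)]
        congr 1
        push_cast
        ring
      rw [e3]
      ring
  have hcoef : ∀ n ∈ Icc 1 (M₁ * M₂), ‖∑ p ∈ n.divisorsAntidiagonal, U p.1 * V p.2‖ ^ 2 =
      ‖(Real.exp (-((1 / 2 + δ) * Real.log n)) : ℂ) *
        ∑ p ∈ n.divisorsAntidiagonal,
          (a p.1 * ((φ (Real.log p.1 / R) * Real.exp (c₀ * (Real.log p.1 / R)) : ℝ) : ℂ)) *
          (inv a p.2 * ((θ (Real.log p.2 / R) * Real.exp (0 * (Real.log p.2 / R)) : ℝ) : ℂ) *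
            Complex.exp ((v₁ * Real.log p.2 : ℝ) * Complex.I))‖ ^ 2 := by
    intro n _
    congr 2
    rw [mul_sum]
    refine sum_congr rfl fun p hp => ?_
    obtain ⟨h3, h4⟩ := Nat.mem_divisorsAntidiagonal.mp hp
    have hp1 : p.1 ≠ 0 := left_ne_zero_of_mul (h3 ▸ h4)
    have hp2 : p.2 ≠ 0 := right_ne_zero_of_mul (h3 ▸ h4)
    have e4 : Real.exp (-((1 / 2 + δ) * Real.log n)) =
        Real.exp (-((1 / 2 + δ) * Real.log p.1)) * Real.exp (-((1 / 2 + δ) * Real.log p.2)) := by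
      rw [← Real.exp_add, ← h3, Nat.cast_mul,
        Real.log_mul (by exact_mod_cast hp1) (by exact_mod_cast hp2)]
      congr 1
      ring
    rw [e4, hU, hV]
    push_cast
    ring
  have hsum : ∑ n ∈ Icc 1 (M₁ * M₂), ‖∑ p ∈ n.divisorsAntidiagonal, U p.1 * V p.2‖ ^ 2 ≤
      A * (1 + R * |v₁|) ^ k := by
    rw [sum_congr rfl hcoef]
    exact hA R δ hR hRδ v₁ _
  have hJ : JJ S (fun i => Dp φ R M₁ a (g i)) (fun i => Dp θ R M₂ (inv a) (g i))
      (1 / 2 + δ - c₀ / R) (1 / 2 + δ) H t₀ v₁ = ENNReal.ofReal (∑ i ∈ S, ∫ t in t₀..(t₀ + H),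
        ‖∑ n ∈ Icc 1 (M₁ * M₂), (∑ p ∈ n.divisorsAntidiagonal, U p.1 * V p.2) *
        (g i n * Complex.exp (-(((t * Real.log n : ℝ) : ℂ) * Complex.I)))‖ ^ 2) := by
    unfold JJ
    rw [ENNReal.ofReal_sum_of_nonneg]
    · refine sum_congr rfl fun i hi => ?_
      rw [intervalIntegral.integral_of_le (by linarith), ← integral_Icc_eq_integral_Ioc,
        ofReal_integral_eq_lintegral_ofReal ?_ (Eventually.of_forall fun t => by positivity)]
      · refine lintegral_congr fun t => ?_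
        rw [← hprod i hi t, norm_mul, mul_pow]
      · have hc : Continuous fun t : ℝ =>
            ‖∑ n ∈ Icc 1 (M₁ * M₂), (∑ p ∈ n.divisorsAntidiagonal, U p.1 * V p.2) *
              (g i n * Complex.exp (-(((t * Real.log n : ℝ) : ℂ) * Complex.I)))‖ ^ 2 := by
          fun_prop
        exact hc.integrableOn_Icc
    · intro i _
      exact intervalIntegral.integral_nonneg (by linarith) fun t _ => by positivity
  rw [hJ]
  refine ENNReal.ofReal_le_ofReal ?_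
  refine (hls _ t₀).trans ?_
  rw [mul_assoc]
  exact mul_le_mul_of_nonneg_left hsum hP

end Pool.Agent.V8H15.DN
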