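import Pool.Agent.V8H15.DN.Coef2
import Pool.Agent.W388.TW.D0

/-!
# From Selberg orthonormality to the bound `HB`

Project DN (helper15).
-/

set_option autoImplicit false

open Finset Filter Topology ArithmeticFunction

namespace Pool.Agent.V8H15.DN

/-- Chebyshev type bound -/
lemma cheb_of_sel {c : ℕ → ℂ} (h : W388.SelE c) : ∃ C : ℝ, 0 ≤ C ∧ ∀ n : ℕ, 1 ≤ n →
    ∑ m ∈ Icc 1 n, vonMangoldt m * ‖c m‖ ^ 2 / m ≤ C * Real.log n := by
  unfold W388.SelE at h
  have h1 := h.eventually (gt_mem_nhds (show (1 : ℝ) < 2 by norm_num))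
  obtain ⟨x₀, hx₀⟩ := h1.exists_forall_of_atTop
  obtain ⟨M, hM⟩ : ∃ M : ℕ, M = max 2 ⌈x₀⌉₊ := ⟨_, rfl⟩
  have hM2 : 2 ≤ M := hM ▸ le_max_left _ _
  have hMx : x₀ ≤ M := (Nat.le_ceil x₀).trans (by rw [hM]; exact_mod_cast le_max_right _ _)
  have hnn : ∀ m : ℕ, 0 ≤ vonMangoldt m * ‖c m‖ ^ 2 / m := fun m => by
    have := vonMangoldt_nonneg (n := m)
    positivity
  have hlarge : ∀ n : ℕ, M ≤ n →
      ∑ m ∈ Icc 1 n, vonMangoldt m * ‖c m‖ ^ 2 / m ≤ 2 * Real.log n := by
    intro n hn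
    have h2 := hx₀ n (hMx.trans (by exact_mod_cast hn))
    have h3 : 0 < Real.log (n : ℝ) := Real.log_pos (by exact_mod_cast (by omega : 1 < n))
    rw [Nat.floor_natCast, div_lt_iff₀ h3] at h2
    exact h2.le
  have hl2 : 0 < Real.log 2 := Real.log_pos (by norm_num)
  have hlM : 0 ≤ Real.log M := Real.log_nonneg (by exact_mod_cast (by omega : 1 ≤ M))
  refine ⟨2 + 2 * Real.log M / Real.log 2, by positivity, fun n hn => ?_⟩
  have hln : 0 ≤ Real.log n := Real.log_nonneg (by exact_mod_cast hn)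
  rcases le_or_gt M n with h2 | h2
  · refine (hlarge n h2).trans (mul_le_mul_of_nonneg_right ?_ hln)
    have : 0 ≤ 2 * Real.log M / Real.log 2 := by positivity
    linarith
  · rcases eq_or_lt_of_le hn with h3 | h3
    · rw [← h3]
      simp
    · have h4 : ∑ m ∈ Icc 1 n, vonMangoldt m * ‖c m‖ ^ 2 / m ≤
          ∑ m ∈ Icc 1 M, vonMangoldt m * ‖c m‖ ^ 2 / m :=
        sum_le_sum_of_subset_of_nonneg (Icc_subset_Icc le_rfl h2.le) fun m _ _ => hnn m
      have h5 : Real.log 2 ≤ Real.log n := Real.log_le_log (by norm_num) (by exact_mod_cast h3)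
      have h6 : 2 * Real.log M ≤ 2 * Real.log M / Real.log 2 * Real.log n := by
        rw [div_mul_eq_mul_div, le_div_iff₀ hl2]
        exact mul_le_mul_of_nonneg_left h5 (by positivity)
      have h7 : 0 ≤ 2 * Real.log n := by positivity
      have h8 := hlarge M le_rfl
      rw [add_mul]
      linarith

theorem hb_of_sel {c : ℕ → ℂ} (h : W388.SelE c) : ∃ C : ℝ, HB c C := by
  obtain ⟨C, hC, hW⟩ := cheb_of_sel h
  refine ⟨C, hC, fun X s hs => ?_⟩
  obtain ⟨w, hw⟩ : ∃ w : ℕ → ℝ, w = fun m => vonMangoldt m * ‖c m‖ ^ 2 / m := ⟨_, rfl⟩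
  have hW' : ∀ n : ℕ, 1 ≤ n → ∑ m ∈ Icc 1 n, w m ≤ C * Real.log n := by rw [hw]; exact hW
  obtain ⟨e, he⟩ : ∃ e : ℕ → ℝ, e = fun n : ℕ => Real.exp (-(s * Real.log (n : ℝ))) :=
    ⟨_, rfl⟩
  have hdp : dpR X (fun n => vonMangoldt n * ‖c n‖ ^ 2) (1 + s) = ∑ n ∈ Icc 1 X, w n * e n := by
    unfold dpR
    refine sum_congr rfl fun n hn => ?_
    have hn0 : (0 : ℝ) < n := by exact_mod_cast (mem_Icc.mp hn).1
    have h1 : Real.exp (-((1 + s) * Real.log n)) = (n : ℝ)⁻¹ * Real.exp (-(s * Real.log n)) := by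
      rw [add_mul, one_mul, neg_add, Real.exp_add, Real.exp_neg (Real.log n), Real.exp_log hn0]
    rw [h1, hw, he]
    simp only
    ring
  rw [hdp]
  have key : ∀ Y : ℕ, 1 ≤ Y → ∑ n ∈ Icc 1 Y, w n * e n - (∑ n ∈ Icc 1 Y, w n) * e Y ≤
      C * ((1 - e Y) / s - Real.log Y * e Y) := by
    intro Y hY
    induction Y, hY using Nat.le_induction with
    | base => simp [he]
    | succ Y hY ih =>
      rw [sum_Icc_succ_top (by omega), sum_Icc_succ_top (by omega)]
      have h1 := hW' Y hY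
      have hY0 : (0 : ℝ) < Y := by exact_mod_cast hY
      have hlog : Real.log Y ≤ Real.log ((Y + 1 : ℕ) : ℝ) :=
        Real.log_le_log hY0 (by push_cast; linarith)
      have h2 : e (Y + 1) ≤ e Y := by
        rw [he]
        refine Real.exp_le_exp.mpr (neg_le_neg ?_)
        exact mul_le_mul_of_nonneg_left hlog hs.le
      have h3 : (Real.log ((Y + 1 : ℕ) : ℝ) - Real.log Y) * e (Y + 1) ≤ (e Y - e (Y + 1)) / s := by
        rw [le_div_iff₀ hs]
        have h4 := Real.add_one_le_exp (s * (Real.log ((Y + 1 : ℕ) : ℝ) - Real.log Y))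
        have h5 : e Y = e (Y + 1) * Real.exp (s * (Real.log ((Y + 1 : ℕ) : ℝ) - Real.log Y)) := by
          rw [he]
          simp only
          rw [← Real.exp_add]
          congr 1
          ring
        have h6 : 0 < e (Y + 1) := by rw [he]; exact Real.exp_pos _
        rw [h5]
        nlinarith
      have h7 : (∑ n ∈ Icc 1 Y, w n) * (e Y - e (Y + 1)) ≤ C * Real.log Y * (e Y - e (Y + 1)) :=
        mul_le_mul_of_nonneg_right h1 (by linarith)
      have h8 : C * ((Real.log ((Y + 1 : ℕ) : ℝ) - Real.log Y) * e (Y + 1)) ≤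
          C * ((e Y - e (Y + 1)) / s) := mul_le_mul_of_nonneg_left h3 hC
      have e1 : (∑ n ∈ Icc 1 Y, w n * e n + w (Y + 1) * e (Y + 1)) -
          (∑ n ∈ Icc 1 Y, w n + w (Y + 1)) * e (Y + 1) =
          (∑ n ∈ Icc 1 Y, w n * e n - (∑ n ∈ Icc 1 Y, w n) * e Y) +
          (∑ n ∈ Icc 1 Y, w n) * (e Y - e (Y + 1)) := by ring
      rw [e1]
      have e2 : C * ((1 - e (Y + 1)) / s - Real.log ((Y + 1 : ℕ) : ℝ) * e (Y + 1)) =
          C * ((1 - e Y) / s - Real.log Y * e Y) + C * Real.log Y * (e Y - e (Y + 1)) +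
          (C * ((e Y - e (Y + 1)) / s) -
            C * ((Real.log ((Y + 1 : ℕ) : ℝ) - Real.log Y) * e (Y + 1))) := by
        field_simp
        ring
      rw [e2]
      linarith
  rcases Nat.eq_zero_or_pos X with hX | hX
  · subst hX
    simp only [show Icc 1 0 = (∅ : Finset ℕ) from rfl, sum_empty]
    positivity
  · have h1 := key X hX
    have h2 := hW' X hX
    have h3 : 0 < e X := by rw [he]; exact Real.exp_pos _
    have h4 := mul_le_mul_of_nonneg_right h2 h3.le
    have h5 : C * ((1 - e X) / s) ≤ C / s := by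
      rw [mul_div_assoc']
      refine div_le_div_of_nonneg_right ?_ hs.le
      nlinarith
    have e1 : C * ((1 - e X) / s - Real.log X * e X) = C * ((1 - e X) / s) -
      C * Real.log X * e X := by ring
    rw [e1] at h1
    linarith

end Pool.Agent.V8H15.DN
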