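import Pool.Agent.V8H15.DN.Lsq

/-!
# Dirichlet polynomials and Dirichlet series to the right of `Re s = 3/2`

Project DN (helper15).
-/

set_option autoImplicit false

open Finset Filter Topology MeasureTheory ArithmeticFunction

namespace Pool.Agent.V8H15.DN

open Pool.Agent.N786.D (Fr Cutf JJ)
open Pool.Agent.R399.TW (pt pt_re pt_im pt_cont)

/-- completely multiplicative, bounded by `1` -/
structure CM (g : ℕ → ℂ) : Prop where
  one : g 1 = 1
  mul : ∀ m n, g (m * n) = g m * g n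
  le : ∀ n, ‖g n‖ ≤ 1

/-- `n ^ (-s)` -/
noncomputable def ex (s : ℂ) (n : ℕ) : ℂ := Complex.exp (-(s * ((Real.log n : ℝ) : ℂ)))

lemma norm_ex (s : ℂ) (n : ℕ) : ‖ex s n‖ = Real.exp (-(s.re * Real.log n)) := by
  unfold ex
  rw [Complex.norm_exp]
  congr 1
  rw [Complex.neg_re, Complex.re_mul_ofReal]

lemma ex_mul (s : ℂ) {m n : ℕ} (hm : m ≠ 0) (hn : n ≠ 0) : ex s (m * n) = ex s m * ex s n := by
  unfold ex
  rw [← Complex.exp_add, Nat.cast_mul, Real.log_mul (by exact_mod_cast hm) (by exact_mod_cast hn)]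
  congr 1
  push_cast
  ring

lemma ex_cpow (s : ℂ) {n : ℕ} (hn : n ≠ 0) : ex s n = (n : ℂ) ^ (-s) := by
  unfold ex
  rw [Complex.cpow_def_of_ne_zero (by exact_mod_cast hn), ← Complex.natCast_log]
  congr 1
  ring

/-- absolute convergence at `3/2` -/
def AC (a : ArithmeticFunction ℂ) (Z : ℝ) : Prop :=
  0 ≤ Z ∧ ∀ X : ℕ, ∑ n ∈ Icc 1 X, ‖a n‖ * Real.exp (-(3 / 2 * Real.log n)) ≤ Z

lemma AC.summable {a : ArithmeticFunction ℂ} {Z : ℝ} (h : AC a Z) :
    Summable (fun n : ℕ => ‖a n‖ * Real.exp (-(3 / 2 * Real.log n))) ∧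
    ∑' n : ℕ, ‖a n‖ * Real.exp (-(3 / 2 * Real.log n)) ≤ Z := by
  have h0 : ∀ n : ℕ, 0 ≤ ‖a n‖ * Real.exp (-(3 / 2 * Real.log n)) := fun n => by positivity
  have h1 : ∀ s : Finset ℕ, ∑ n ∈ s, ‖a n‖ * Real.exp (-(3 / 2 * Real.log n)) ≤ Z := by
    intro s
    refine le_trans ?_ (h.2 (s.sup id))
    have h2 : ∑ n ∈ s, ‖a n‖ * Real.exp (-(3 / 2 * Real.log n)) =
        ∑ n ∈ s.filter (fun n => n ≠ 0), ‖a n‖ * Real.exp (-(3 / 2 * Real.log n)) := by
      refine (sum_filter_of_ne fun n _ hn => ?_).symm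
      rintro rfl
      exact hn (by simp)
    rw [h2]
    refine sum_le_sum_of_subset_of_nonneg ?_ fun n _ _ => h0 n
    intro n hn
    rw [mem_filter] at hn
    rw [mem_Icc]
    exact ⟨Nat.one_le_iff_ne_zero.mpr hn.2, Finset.le_sup (f := id) hn.1⟩
  exact ⟨summable_of_sum_le h0 h1, Real.tsum_le_of_sum_le h0 h1⟩

/-- the tails -/
lemma tail_le {a : ArithmeticFunction ℂ} {Z : ℝ} (h : AC a Z) {g : ℕ → ℂ} (hg : CM g)
    {u : ℕ → ℂ} (hu : ∀ n, ‖u n‖ ≤ ‖a n‖) {y : ℝ}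
    (hy : ∀ n : ℕ, n ≠ 0 → Real.log n ≤ y → u n = 0) {s : ℂ} (hs : 3 / 2 ≤ s.re) :
    Summable (fun n : ℕ => u n * g n * ex s n) ∧
    ‖∑' n : ℕ, u n * g n * ex s n‖ ≤ Real.exp (-(y * (s.re - 3 / 2))) * Z := by
  obtain ⟨h1, h2⟩ := h.summable
  have h3 : ∀ n : ℕ, ‖u n * g n * ex s n‖ ≤ Real.exp (-(y * (s.re - 3 / 2))) *
      (‖a n‖ * Real.exp (-(3 / 2 * Real.log n))) := by
    intro n
    by_cases hn : n = 0
    · subst hn
      have h4 := hu 0
      rw [ArithmeticFunction.map_zero, norm_zero] at h4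
      have h5 : u 0 = 0 := norm_le_zero_iff.mp h4
      rw [h5, zero_mul, zero_mul, norm_zero]
      positivity
    by_cases hn2 : Real.log n ≤ y
    · rw [hy n hn hn2, zero_mul, zero_mul, norm_zero]
      positivity
    · push Not at hn2
      rw [norm_mul, norm_mul, norm_ex]
      have h6 : Real.exp (-(s.re * Real.log n)) ≤ Real.exp (-(y * (s.re - 3 / 2))) *
          Real.exp (-(3 / 2 * Real.log n)) := by
        rw [← Real.exp_add]
        refine Real.exp_le_exp.mpr ?_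
        have h7 := mul_le_mul_of_nonneg_right hn2.le (by linarith : 0 ≤ s.re - 3 / 2)
        linarith
      have h8 : ‖u n‖ * ‖g n‖ ≤ ‖a n‖ := by
        calc ‖u n‖ * ‖g n‖ ≤ ‖a n‖ * 1 :=
              mul_le_mul (hu n) (hg.le n) (norm_nonneg _) (norm_nonneg _)
          _ = _ := mul_one _
      calc ‖u n‖ * ‖g n‖ * Real.exp (-(s.re * Real.log n)) ≤
          ‖a n‖ * (Real.exp (-(y * (s.re - 3 / 2))) * Real.exp (-(3 / 2 * Real.log n))) :=
            mul_le_mul h8 h6 (Real.exp_pos _).le (norm_nonneg _)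
        _ = _ := by ring
  have h4 : Summable (fun n : ℕ => Real.exp (-(y * (s.re - 3 / 2))) *
      (‖a n‖ * Real.exp (-(3 / 2 * Real.log n)))) := h1.mul_left _
  refine ⟨Summable.of_norm_bounded h4 h3, ?_⟩
  refine (tsum_of_norm_bounded h4.hasSum h3).trans ?_
  rw [tsum_mul_left]
  exact mul_le_mul_of_nonneg_left h2 (Real.exp_pos _).le

/-- the approximating Dirichlet polynomial; also used for the mollifier -/
noncomputable def Dp (φ : ℝ → ℝ) (R : ℝ) (M : ℕ) (a : ℕ → ℂ) (g : ℕ → ℂ) (s : ℂ) : ℂ :=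
  ∑ n ∈ Icc 1 M, ((φ (Real.log n / R) : ℝ) : ℂ) * a n * g n * ex s n

lemma Dp_diff (φ : ℝ → ℝ) (R : ℝ) (M : ℕ) (a : ℕ → ℂ) (g : ℕ → ℂ) :
    Differentiable ℂ (Dp φ R M a g) := by
  unfold Dp ex
  fun_prop

lemma log_ge {x : ℝ} {n : ℕ} (hn : ⌊Real.exp x⌋₊ < n) : x ≤ Real.log n := by
  have h1 : Real.exp x < n := (Nat.floor_lt (Real.exp_pos _).le).mp hn
  rw [Real.le_log_iff_exp_le (lt_trans (Real.exp_pos _) h1)]
  exact h1.le

lemma cut_zero {α₁ α₂ : ℝ} {φ : ℝ → ℝ} (hφ : Cutf α₁ α₂ φ) {R : ℝ} (hR : 0 < R) {n : ℕ}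
    (hn : ⌊Real.exp (α₂ * R)⌋₊ < n) : φ (Real.log n / R) = 0 := by
  refine hφ.zero _ (le_trans ?_ (le_abs_self _))
  rw [le_div_iff₀ hR]
  exact log_ge hn

lemma cut_one {α₁ α₂ : ℝ} {φ : ℝ → ℝ} (hφ : Cutf α₁ α₂ φ) {R : ℝ} (hR : 0 < R) {n : ℕ}
    (hn : Real.log n ≤ α₁ * R) : φ (Real.log n / R) = 1 := by
  refine hφ.one _ ?_
  rw [abs_of_nonneg (div_nonneg (Real.log_natCast_nonneg n) hR.le), div_le_iff₀ hR]
  exact hn

lemma Dp_series {α₁ α₂ : ℝ} {φ : ℝ → ℝ} (hφ : Cutf α₁ α₂ φ) {R : ℝ} (hR : 0 < R)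
    (a : ArithmeticFunction ℂ) (g : ℕ → ℂ) (s : ℂ) :
    Dp φ R ⌊Real.exp (α₂ * R)⌋₊ a g s =
      ∑' n : ℕ, ((φ (Real.log n / R) : ℝ) : ℂ) * a n * g n * ex s n := by
  unfold Dp
  refine (tsum_eq_sum fun n hn => ?_).symm
  rw [mem_Icc] at hn
  by_cases h0 : n = 0
  · subst h0; simp
  · rw [cut_zero hφ hR (by omega)]
    simp

/-- the difference of the Dirichlet polynomial and the series -/
theorem D_sub_L {a : ArithmeticFunction ℂ} {Z : ℝ} (h : AC a Z) {g : ℕ → ℂ} (hg : CM g)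
    {α₁ α₂ : ℝ} {φ : ℝ → ℝ} (hφ : Cutf α₁ α₂ φ) {R : ℝ} (hR : 0 < R) {s : ℂ} (hs : 3 / 2 ≤ s.re) :
    ‖Dp φ R ⌊Real.exp (α₂ * R)⌋₊ a g s - ∑' n : ℕ, a n * g n * ex s n‖ ≤
      Real.exp (-(α₁ * R * (s.re - 3 / 2))) * Z := by
  have hφn : ∀ x, ‖((φ x : ℝ) : ℂ)‖ ≤ 1 := fun x => by
    rw [Complex.norm_real, Real.norm_of_nonneg (hφ.nn x)]
    exact hφ.le x
  have hl : ∀ n : ℕ, n ≠ 0 → Real.log n ≤ -1 → False := fun n _ h' => by
    have := Real.log_natCast_nonneg n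
    linarith
  obtain ⟨s1, -⟩ := tail_le h hg (u := fun n => ((φ (Real.log n / R) : ℝ) : ℂ) * a n) (y := -1)
    (fun n => by
      rw [norm_mul]
      exact mul_le_of_le_one_left (norm_nonneg _) (hφn _)) (fun n h1 h2 => (hl n h1 h2).elim) hs
  obtain ⟨s2, -⟩ := tail_le h hg (u := fun n => a n) (y := -1)
    (fun n => le_rfl) (fun n h1 h2 => (hl n h1 h2).elim) hs
  obtain ⟨-, b3⟩ := tail_le h hg (u := fun n => ((φ (Real.log n / R) : ℝ) : ℂ) * a n - a n)
    (y := α₁ * R) (fun n => by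
      have e1 : ((φ (Real.log n / R) : ℝ) : ℂ) * a n - a n =
          (((φ (Real.log n / R) - 1 : ℝ)) : ℂ) * a n := by push_cast; ring
      rw [e1, norm_mul, Complex.norm_real]
      refine mul_le_of_le_one_left (norm_nonneg _) ?_
      have := hφ.nn (Real.log n / R)
      have := hφ.le (Real.log n / R)
      rw [Real.norm_eq_abs, abs_le]
      constructor <;> linarith) (fun n _ h2 => by
      rw [cut_one hφ hR h2]; simp) hs
  rw [Dp_series hφ hR, ← Summable.tsum_sub s1 s2]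
  refine le_trans (le_of_eq ?_) b3
  congr 1
  refine tsum_congr fun n => ?_
  ring

/-- the twist by `g` -/
noncomputable def gm (g : ℕ → ℂ) (b : ArithmeticFunction ℂ) : ArithmeticFunction ℂ :=
  ⟨fun n => b n * g n, by simp⟩

lemma gm_apply (g : ℕ → ℂ) (b : ArithmeticFunction ℂ) (n : ℕ) : gm g b n = b n * g n := rfl

/-- the series of the inverse -/
theorem series_inv {a : ArithmeticFunction ℂ} (h1 : a 1 = 1) {Z Z' : ℝ} (h : AC a Z)
    (h' : AC (inv a) Z') {g : ℕ → ℂ} (hg : CM g) {s : ℂ} (hs : 3 / 2 ≤ s.re) :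
    (∑' n : ℕ, a n * g n * ex s n) * ∑' n : ℕ, inv a n * g n * ex s n = 1 := by
  have hl : ∀ n : ℕ, n ≠ 0 → Real.log n ≤ -1 → False := fun n _ h' => by
    have := Real.log_natCast_nonneg n
    linarith
  have hterm : ∀ (b : ArithmeticFunction ℂ) (n : ℕ),
      LSeries.term (fun n => gm g b n) s n =
        b n * g n * ex s n := by
    intro b n
    unfold LSeries.term
    split_ifs with h0
    · subst h0; simp
    · rw [ex_cpow s h0, Complex.cpow_neg, div_eq_mul_inv]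
      rfl
  have hsum : ∀ (b : ArithmeticFunction ℂ) (W : ℝ), AC b W → LSeriesSummable
      (fun n => gm g b n) s := by
    intro b W hb
    unfold LSeriesSummable
    have := (tail_le hb hg (u := fun n => b n) (y := -1) (fun n => le_rfl)
      (fun n h1 h2 => (hl n h1 h2).elim) hs).1
    exact this.congr fun n => (hterm b n).symm
  have hL : ∀ (b : ArithmeticFunction ℂ),
      LSeries (fun n => gm g b n) s =
        ∑' n : ℕ, b n * g n * ex s n := fun b => tsum_congr fun n => hterm b n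
  have hmul : LSeries (fun n => (gm g a * gm g (inv a)) n) s =
      LSeries (fun n => gm g a n) s * LSeries (fun n => gm g (inv a) n) s :=
    LSeries_mul' (hsum a Z h) (hsum (inv a) Z' h')
  rw [hL a, hL (inv a)] at hmul
  rw [← hmul]
  have hone : gm g a * gm g (inv a) = 1 := by
    ext n
    rw [mul_apply]
    have h2 := congrArg (fun f : ArithmeticFunction ℂ => f n) (mul_inv h1)
    simp only [mul_apply] at h2
    have h3 : ∑ x ∈ n.divisorsAntidiagonal, gm g a x.1 * gm g (inv a) x.2 =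
        (∑ x ∈ n.divisorsAntidiagonal, a x.1 * inv a x.2) * g n := by
      rw [sum_mul]
      refine sum_congr rfl fun x hx => ?_
      rw [← (Nat.mem_divisorsAntidiagonal.mp hx).1, hg.mul, gm_apply, gm_apply]
      ring
    rw [h3, h2, one_apply]
    split_ifs with hn
    · subst hn; rw [hg.one, one_mul]
    · rw [zero_mul]
  have hs0 : s ≠ 0 := by
    rintro rfl
    simp at hs
    linarith
  rw [hone, one_eq_delta, LSeries_delta]
  rfl

/-- the mollified function -/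
theorem LM_sub_one {a : ArithmeticFunction ℂ} (h1 : a 1 = 1) {Z Z' : ℝ} (h : AC a Z)
    (h' : AC (inv a) Z') {g : ℕ → ℂ} (hg : CM g)
    {β₁ β₂ : ℝ} {θ : ℝ → ℝ} (hθ : Cutf β₁ β₂ θ) {R : ℝ} (hR : 0 < R) {s : ℂ} (hs : 3 / 2 ≤ s.re) :
    ‖(∑' n : ℕ, a n * g n * ex s n) * Dp θ R ⌊Real.exp (β₂ * R)⌋₊ (inv a) g s - 1‖ ≤
      Real.exp (-(β₁ * R * (s.re - 3 / 2))) * (Z * Z') := by
  have h2 := series_inv h1 h h' hg hs
  have h3 := D_sub_L h' hg hθ hR hs
  have hl : ∀ n : ℕ, n ≠ 0 → Real.log n ≤ 0 * 1 - 1 → False := fun n _ h' => by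
    have := Real.log_natCast_nonneg n
    linarith
  have h4 : ‖∑' n : ℕ, a n * g n * ex s n‖ ≤ Z := by
    have hh : ∀ y : ℝ, y < 0 → ‖∑' n : ℕ, a n * g n * ex s n‖ ≤
        Real.exp (-(y * (s.re - 3 / 2))) * Z := fun y hy =>
      (tail_le h hg (u := fun n => a n) (y := y) (fun n => le_rfl)
        (fun n _ h2 => by
          have := Real.log_natCast_nonneg n
          linarith) hs).2
    have ht : Tendsto (fun y : ℝ => Real.exp (-(y * (s.re - 3 / 2))) * Z) (𝓝[<] 0) (𝓝 Z) := by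
      have : Continuous fun y : ℝ => Real.exp (-(y * (s.re - 3 / 2))) * Z := by fun_prop
      have h5 := this.tendsto 0
      simp only [zero_mul, neg_zero, Real.exp_zero, one_mul] at h5
      exact h5.mono_left nhdsWithin_le_nhds
    exact ge_of_tendsto ht (by
      filter_upwards [self_mem_nhdsWithin] with y hy
      exact hh y hy)
  have e1 : (∑' n : ℕ, a n * g n * ex s n) * Dp θ R ⌊Real.exp (β₂ * R)⌋₊ (inv a) g s - 1 =
      (∑' n : ℕ, a n * g n * ex s n) * (Dp θ R ⌊Real.exp (β₂ * R)⌋₊ (inv a) g s -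
        ∑' n : ℕ, inv a n * g n * ex s n) := by
    rw [mul_sub, h2]
  rw [e1, norm_mul]
  calc _ ≤ Z * (Real.exp (-(β₁ * R * (s.re - 3 / 2))) * Z') :=
        mul_le_mul h4 h3 (norm_nonneg _) h.1
    _ = _ := by ring

end Pool.Agent.V8H15.DN
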